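import Pool.Agent.H779R2.Li.V14

set_option autoImplicit false

namespace Pool.Agent.H779R2.Li

open Filter Topology MeasureTheory Metric
open scoped BigOperators

variable {D : ℕ}

private theorem CM_translate {r : ℝ} {h : Ve D → Ve D} (H : CM r h) {x₀ : Ve D}
    (hx₀ : x₀ ∈ ball (0 : Ve D) r) :
    0 < r - ‖x₀‖ ∧ CM (r - ‖x₀‖) (fun y => h (x₀ + y) - h x₀) := by
  have hx : ‖x₀‖ < r := by simpa using hx₀
  have hmaps : ∀ y ∈ ball (0 : Ve D) (r - ‖x₀‖), x₀ + y ∈ ball (0 : Ve D) r := by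
    intro y hy
    have hy' : ‖y‖ < r - ‖x₀‖ := by simpa using hy
    have : ‖x₀ + y‖ ≤ ‖x₀‖ + ‖y‖ := norm_add_le _ _
    simp only [mem_ball, dist_zero_right]
    linarith
  have hder : ∀ y, fderiv ℝ (fun y => h (x₀ + y) - h x₀) y = fderiv ℝ h (x₀ + y) := by
    intro y
    rw [fderiv_sub_const]
    exact fderiv_comp_add_left x₀
  refine ⟨by linarith, ⟨?_, ?_, ?_⟩⟩
  · refine ContDiffOn.sub ?_ contDiffOn_const
    refine H.c1.comp (contDiff_const.add contDiff_id).contDiffOn ?_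
    intro y hy
    exact hmaps y hy
  · intro y hy
    rw [hder]
    exact H.conf _ (hmaps y hy)
  · intro y hy
    rw [hder]
    exact H.ne _ (hmaps y hy)

private theorem h_analytic (hD : 3 ≤ D) {r : ℝ} {h : Ve D → Ve D} (H : CM r h) :
    AnalyticOnNhd ℝ h (ball (0 : Ve D) r) := by
  intro x₀ hx₀
  obtain ⟨hr', H'⟩ := CM_translate H hx₀
  obtain ⟨b, hb⟩ := liouville_loc hD hr' H' (by simp)
  set A := fderiv ℝ (fun y => h (x₀ + y) - h x₀) 0 with hA
  have h1 : AnalyticAt ℝ (mobD A b) 0 := mobD_analytic A b 0 (by simp [den])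
  have h2 : AnalyticAt ℝ (fun x : Ve D => mobD A b (x - x₀) + h x₀) x₀ := by
    refine AnalyticAt.add ?_ analyticAt_const
    have h3 : AnalyticAt ℝ (fun x : Ve D => x - x₀) x₀ := analyticAt_id.sub analyticAt_const
    refine AnalyticAt.fun_comp (g := mobD A b) ?_ h3
    simpa using h1
  refine h2.congr ?_
  have h4 : Tendsto (fun x : Ve D => x - x₀) (𝓝 x₀) (𝓝 0) := by
    have : Continuous (fun x : Ve D => x - x₀) := by fun_prop
    have h5 := this.tendsto x₀
    simpa using h5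
  filter_upwards [h4.eventually hb] with x hx
  have : x₀ + (x - x₀) = x := by abel
  rw [this] at hx
  rw [← hx]
  abel

private theorem inner_self_smul (b : Ve D) (hb : b ≠ 0) :
    inner ℝ b ((‖b‖ ^ 2)⁻¹ • b) = (1 : ℝ) := by
  have hb' : ‖b‖ ≠ 0 := norm_ne_zero_iff.2 hb
  rw [inner_smul_right, real_inner_self_eq_norm_sq]
  field_simp

/-- V15: Liouville's theorem for `C¹` maps. -/
theorem liouville (hD : 3 ≤ D) {r : ℝ} (hr : 0 < r) {h : Ve D → Ve D} (H : CM r h)
    (h0 : h 0 = 0) : ∃ b : Ve D, ‖b‖ ≤ 1 / r ∧ ∀ x ∈ ball (0 : Ve D) r, den b x ≠ 0 ∧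
      h x = mobD (fderiv ℝ h 0) b x := by
  have han := h_analytic hD H
  obtain ⟨b, hb⟩ := liouville_loc hD hr H h0
  have hA : Conf (fderiv ℝ h 0) := H.conf 0 (mem_ball_self hr)
  have hA0 : fderiv ℝ h 0 ≠ 0 := H.ne 0 (mem_ball_self hr)
  set A := fderiv ℝ h 0 with hAdef
  have hden_cont : Continuous (fun x : Ve D => den b x) := by
    unfold den
    fun_prop
  have hden_an : ∀ x, AnalyticAt ℝ (fun x : Ve D => den b x) x := by
    intro x
    have h1 : AnalyticAt ℝ (fun x : Ve D => (inner ℝ b x : ℝ)) x :=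
      (innerSL ℝ b).analyticAt x
    have h2 : AnalyticAt ℝ (fun x : Ve D => ‖x‖ ^ 2) x :=
      (contDiff_norm_sq ℝ (n := ⊤)).contDiffAt.analyticAt
    unfold den
    exact (analyticAt_const.sub (analyticAt_const.mul h1)).add (analyticAt_const.mul h2)
  have hG : ∀ x ∈ ball (0 : Ve D) r, den b x • h x - A (x - ‖x‖ ^ 2 • b) = 0 := by
    have hGan : AnalyticOnNhd ℝ (fun x : Ve D => den b x • h x - A (x - ‖x‖ ^ 2 • b))
        (ball (0 : Ve D) r) := by
      intro x hx
      have h2 : AnalyticAt ℝ (fun x : Ve D => ‖x‖ ^ 2) x :=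
        (contDiff_norm_sq ℝ (n := ⊤)).contDiffAt.analyticAt
      refine ((hden_an x).smul (han x hx)).sub ?_
      refine AnalyticAt.fun_comp (g := fun z => A z) (A.analyticAt _) ?_
      exact analyticAt_id.sub (h2.smul analyticAt_const)
    have hpre : IsPreconnected (ball (0 : Ve D) r) := (convex_ball _ _).isPreconnected
    have hev : (fun x : Ve D => den b x • h x - A (x - ‖x‖ ^ 2 • b)) =ᶠ[𝓝 (0 : Ve D)] 0 := by
      have hne : ∀ᶠ x in 𝓝 (0 : Ve D), den b x ≠ 0 := by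
        have : den b 0 ≠ 0 := by simp [den]
        exact hden_cont.continuousAt.eventually_ne this
      filter_upwards [hb, hne] with x hx hx'
      simp only [hx, mobD, Pi.zero_apply, smul_smul, mul_inv_cancel₀ hx', one_smul, sub_self]
    intro x hx
    exact hGan.eqOn_zero_of_preconnected_of_eventuallyEq_zero hpre (mem_ball_self hr) hev hx
  have hden : ∀ x ∈ ball (0 : Ve D) r, den b x ≠ 0 := by
    intro x hx hx0
    have hb0 : b ≠ 0 := by
      rintro rfl
      simp [den] at hx0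
    have hbn : ‖b‖ ≠ 0 := norm_ne_zero_iff.2 hb0
    have hxb : x = (‖b‖ ^ 2)⁻¹ • b := by
      rw [den_eq b x hb0] at hx0
      have : ‖x - (‖b‖ ^ 2)⁻¹ • b‖ = 0 := by
        rcases mul_eq_zero.1 hx0 with h1 | h1
        · exact absurd h1 (by positivity)
        · exact pow_eq_zero_iff (two_ne_zero) |>.1 h1
      exact sub_eq_zero.1 (norm_eq_zero.1 this)
    have hxn : ‖x‖ * ‖b‖ = 1 := by
      rw [hxb, norm_smul, norm_inv, norm_pow, norm_norm]
      field_simp
    have hib : inner ℝ b x = (1 : ℝ) := by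
      rw [hxb]
      exact inner_self_smul b hb0
    have hxr : ‖x‖ < r := by simpa using hx
    have hdt : ∀ t : ℝ, den b (t • x) = (1 - t) ^ 2 := by
      intro t
      unfold den
      rw [inner_smul_right, hib, norm_smul, mul_pow, Real.norm_eq_abs, sq_abs]
      have : ‖b‖ ^ 2 * (t ^ 2 * ‖x‖ ^ 2) = t ^ 2 := by
        calc ‖b‖ ^ 2 * (t ^ 2 * ‖x‖ ^ 2) = t ^ 2 * (‖x‖ * ‖b‖) ^ 2 := by ring
          _ = t ^ 2 := by rw [hxn]; ring
      rw [this]
      ring
    have hmem : ∀ t ∈ Set.Ioo (0 : ℝ) 1, t • x ∈ ball (0 : Ve D) r := by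
      intro t ht
      simp only [mem_ball, dist_zero_right, norm_smul, Real.norm_eq_abs, abs_of_pos ht.1]
      nlinarith [norm_nonneg x, ht.2]
    have hkey : ∀ t ∈ Set.Ioo (0 : ℝ) 1, (1 - t) * ‖h (t • x)‖ = ‖A‖ * (t * ‖x‖) := by
      intro t ht
      have h1 := hG (t • x) (hmem t ht)
      have h2 : den b (t • x) • h (t • x) = A (t • x - ‖t • x‖ ^ 2 • b) := sub_eq_zero.1 h1
      have h3 := congrArg (fun z => ‖z‖) h2
      simp only [norm_smul] at h3
      rw [hA, hdt] at h3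
      have h4 : ‖t • x - ‖t • x‖ ^ 2 • b‖ = t * ‖x‖ * (1 - t) := by
        have h5 := norm_sub_sq_smul b (t • x)
        rw [hdt, norm_smul t x, Real.norm_eq_abs, abs_of_pos ht.1] at h5
        have h6 : 0 ≤ t * ‖x‖ * (1 - t) := by
          have := ht.1; have := ht.2
          have : 0 ≤ 1 - t := by linarith
          positivity
        have h7 : ‖t • x - ‖t • x‖ ^ 2 • b‖ ^ 2 = (t * ‖x‖ * (1 - t)) ^ 2 := by
          rw [norm_smul t x, Real.norm_eq_abs, abs_of_pos ht.1, h5]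
          ring
        exact (sq_eq_sq₀ (norm_nonneg _) h6).1 h7
      simp only [norm_smul] at h4
      rw [h4] at h3
      have h8 : (0 : ℝ) < 1 - t := by linarith [ht.2]
      rw [Real.norm_eq_abs, abs_of_nonneg (by positivity)] at h3
      have h9 : (1 - t) * ((1 - t) * ‖h (t • x)‖) = (1 - t) * (‖A‖ * (t * ‖x‖)) := by
        nlinarith [h3]
      exact mul_left_cancel₀ h8.ne' h9
    have hcont : ContinuousAt h x := (han x hx).continuousAt
    have hT : Tendsto (fun t : ℝ => t • x) (𝓝[<] 1) (𝓝 x) := by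
      have h1 : Continuous (fun t : ℝ => t • x) := by fun_prop
      have h2 := h1.tendsto 1
      simp only [one_smul] at h2
      exact h2.mono_left nhdsWithin_le_nhds
    have hL : Tendsto (fun t : ℝ => (1 - t) * ‖h (t • x)‖) (𝓝[<] 1) (𝓝 (0 * ‖h x‖)) := by
      refine Tendsto.mul ?_ ((hcont.tendsto.comp hT).norm)
      have h1 : Continuous (fun t : ℝ => 1 - t) := by fun_prop
      have h2 := h1.tendsto 1
      simp only [sub_self] at h2
      exact h2.mono_left nhdsWithin_le_nhds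
    have hR : Tendsto (fun t : ℝ => ‖A‖ * (t * ‖x‖)) (𝓝[<] 1) (𝓝 (‖A‖ * (1 * ‖x‖))) := by
      have h1 : Continuous (fun t : ℝ => ‖A‖ * (t * ‖x‖)) := by fun_prop
      exact (h1.tendsto 1).mono_left nhdsWithin_le_nhds
    have hEq : (fun t : ℝ => (1 - t) * ‖h (t • x)‖) =ᶠ[𝓝[<] 1]
        (fun t : ℝ => ‖A‖ * (t * ‖x‖)) := by
      have : Set.Ioo (0 : ℝ) 1 ∈ 𝓝[<] (1 : ℝ) := Ioo_mem_nhdsLT (by norm_num)
      filter_upwards [this] with t ht
      exact hkey t ht
    have hlim := tendsto_nhds_unique (hL.congr' hEq) hR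
    have hx1 : ‖x‖ ≠ 0 := by
      intro h1
      rw [h1] at hxn
      simp at hxn
    have hA1 : ‖A‖ ≠ 0 := norm_ne_zero_iff.2 hA0
    rw [zero_mul, one_mul] at hlim
    exact (mul_ne_zero hA1 hx1) hlim.symm
  refine ⟨b, ?_, fun x hx => ⟨hden x hx, ?_⟩⟩
  · by_contra hcon
    push Not at hcon
    have hb0 : b ≠ 0 := by
      rintro rfl
      simp only [norm_zero] at hcon
      have : 0 < 1 / r := by positivity
      linarith
    have hbn : 0 < ‖b‖ := norm_pos_iff.2 hb0
    have hmem : (‖b‖ ^ 2)⁻¹ • b ∈ ball (0 : Ve D) r := by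
      simp only [mem_ball, dist_zero_right, norm_smul, norm_inv, norm_pow, norm_norm]
      have h1 : (‖b‖ ^ 2)⁻¹ * ‖b‖ = 1 / ‖b‖ := by field_simp
      rw [h1]
      rw [div_lt_iff₀ hbn]
      rw [div_lt_iff₀ hr] at hcon
      linarith
    refine hden _ hmem ?_
    rw [den_eq b _ hb0]
    simp
  · have h1 := hG x hx
    have h2 : den b x • h x = A (x - ‖x‖ ^ 2 • b) := sub_eq_zero.1 h1
    unfold mobD
    rw [← h2, smul_smul, inv_mul_cancel₀ (hden x hx), one_smul]

end Pool.Agent.H779R2.Li
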