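import Pool.Agent.H779R2.Li.VDef

set_option autoImplicit false

namespace Pool.Agent.H779R2.Li

open Filter Topology MeasureTheory Metric
open scoped BigOperators

variable {D : ℕ}

/-- V1: monotonicity and Lipschitz estimate of the `D`-Laplace nonlinearity at a unit vector. -/
theorem pl_mono (k : ℕ) (a p : Ve D) (ha : ‖a‖ = 1) :
    1 / 2 * ‖p - a‖ ^ 2 ≤ inner ℝ (‖p‖ ^ k • p - a) (p - a) := by
  have h1 : ‖p - a‖ ^ 2 = ‖p‖ ^ 2 - 2 * inner ℝ p a + 1 := by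
    rw [norm_sub_sq_real, ha]; ring
  have h2 : inner ℝ (‖p‖ ^ k • p - a) (p - a) =
      ‖p‖ ^ k * (‖p‖ ^ 2 - inner ℝ p a) - inner ℝ p a + 1 := by
    rw [inner_sub_left, inner_sub_right, inner_sub_right, real_inner_smul_left,
      real_inner_smul_left, real_inner_self_eq_norm_sq, real_inner_self_eq_norm_sq, ha,
      real_inner_comm p a]
    ring
  rw [h1, h2]
  set s := ‖p‖ with hs
  set t : ℝ := inner ℝ p a with ht
  have hs0 : 0 ≤ s := norm_nonneg _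
  have h3 : 0 ≤ (s ^ k - 1) * (s ^ 2 - 1) := by
    rcases le_total 1 s with h | h
    · have := one_le_pow₀ h (n := k)
      have := one_le_pow₀ h (n := 2)
      exact mul_nonneg (by linarith) (by linarith)
    · have := pow_le_one₀ hs0 h (n := k)
      have := pow_le_one₀ hs0 h (n := 2)
      exact mul_nonneg_of_nonpos_of_nonpos (by linarith) (by linarith)
  have h4 : 0 ≤ s ^ k * (s ^ 2 - 2 * t + 1) := by
    have : 0 ≤ s ^ 2 - 2 * t + 1 := by rw [← h1]; positivity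
    positivity
  nlinarith [h3, h4]

/-- V1 -/
theorem pl_lip (k : ℕ) : ∃ C : ℝ, 0 < C ∧ ∀ a p : Ve D, ‖a‖ = 1 → ‖p‖ ≤ 2 →
    ‖‖p‖ ^ k • p - a‖ ≤ C * ‖p - a‖ := by
  refine ⟨2 ^ k + k * 2 ^ k, by positivity, ?_⟩
  intro a p ha hp
  have h1 : ‖p‖ ^ k • p - a = ‖p‖ ^ k • (p - a) + (‖p‖ ^ k - 1) • a := by
    rw [smul_sub, sub_smul, one_smul]; abel
  have h2 : ‖p‖ ^ k ≤ 2 ^ k := pow_le_pow_left₀ (norm_nonneg _) hp k
  have h3 : |‖p‖ ^ k - 1| ≤ k * 2 ^ k * ‖p - a‖ := by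
    have h4 : (∑ i ∈ Finset.range k, ‖p‖ ^ i) * (‖p‖ - 1) = ‖p‖ ^ k - 1 := geom_sum_mul _ _
    rw [← h4, abs_mul]
    have h5 : |‖p‖ - 1| ≤ ‖p - a‖ := by
      rw [← ha]
      exact abs_norm_sub_norm_le p a
    have h6 : |∑ i ∈ Finset.range k, ‖p‖ ^ i| ≤ k * 2 ^ k := by
      rw [abs_of_nonneg (Finset.sum_nonneg fun i _ => by positivity)]
      calc ∑ i ∈ Finset.range k, ‖p‖ ^ i ≤ ∑ i ∈ Finset.range k, (2 : ℝ) ^ k := by
            refine Finset.sum_le_sum fun i hi => ?_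
            have h7 : ‖p‖ ^ i ≤ 2 ^ i := pow_le_pow_left₀ (norm_nonneg _) hp i
            have h8 : (2 : ℝ) ^ i ≤ 2 ^ k :=
              pow_le_pow_right₀ (by norm_num) (Finset.mem_range.1 hi).le
            linarith
        _ = k * 2 ^ k := by simp
    exact mul_le_mul h6 h5 (abs_nonneg _) (by positivity)
  rw [h1]
  calc ‖‖p‖ ^ k • (p - a) + (‖p‖ ^ k - 1) • a‖
      ≤ ‖‖p‖ ^ k • (p - a)‖ + ‖(‖p‖ ^ k - 1) • a‖ := norm_add_le _ _
    _ = ‖p‖ ^ k * ‖p - a‖ + |‖p‖ ^ k - 1| := by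
        rw [norm_smul, norm_smul, ha, Real.norm_eq_abs, Real.norm_eq_abs,
          abs_of_nonneg (pow_nonneg (norm_nonneg p) k)]
        ring
    _ ≤ 2 ^ k * ‖p - a‖ + k * 2 ^ k * ‖p - a‖ := by
        have := mul_le_mul_of_nonneg_right h2 (norm_nonneg (p - a))
        linarith
    _ = (2 ^ k + k * 2 ^ k) * ‖p - a‖ := by ring

end Pool.Agent.H779R2.Li
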