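import Pool.Agent.H779R2.Li.VDef

set_option autoImplicit false

namespace Pool.Agent.H779R2.Li

open Filter Topology MeasureTheory Metric
open scoped BigOperators Convolution

variable {D : ℕ}

private theorem V7_fderiv_refl {f : Ve D → ℝ} (hf : ContDiff ℝ 1 f) (x y a : Ve D) :
    fderiv ℝ (fun z => f (x - z)) y a = - fderiv ℝ f (x - y) a := by
  have h1 : HasFDerivAt f (fderiv ℝ f (x - y)) (x - y) :=
    (hf.differentiable one_ne_zero (x - y)).hasFDerivAt
  have h2 : HasFDerivAt (fun z : Ve D => x - z) (-ContinuousLinearMap.id ℝ (Ve D)) y :=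
    (hasFDerivAt_id y).const_sub x
  have h3 := h1.comp y h2
  have h4 : fderiv ℝ (fun z => f (x - z)) y =
      (fderiv ℝ f (x - y)).comp (-ContinuousLinearMap.id ℝ (Ve D)) := h3.fderiv
  rw [h4]
  simp

/-- derivative of the mollification, in weak form -/
private theorem V7_key {f : Ve D → ℝ} (hf : ContDiff ℝ 1 f) (hfc : HasCompactSupport f)
    {K₀ : Ve D → Ve D} (hK : LocallyIntegrable K₀ (volume : Measure (Ve D))) (x a b : Ve D) :
    Integrable (fun y => fderiv ℝ (fun z => f (x - z)) y a * inner ℝ (K₀ y) b) ∧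
    inner ℝ (fderiv ℝ (f ⋆[ContinuousLinearMap.lsmul ℝ ℝ, (volume : Measure (Ve D))] K₀) x a) b =
      - ∫ y, fderiv ℝ (fun z => f (x - z)) y a * inner ℝ (K₀ y) b := by
  have hder := hfc.hasFDerivAt_convolution_left (𝕜 := ℝ) (μ := (volume : Measure (Ve D)))
    (ContinuousLinearMap.lsmul ℝ ℝ : ℝ →L[ℝ] Ve D →L[ℝ] Ve D) hf hK x
  have hex : ConvolutionExistsAt (fderiv ℝ f) K₀ x
      ((ContinuousLinearMap.lsmul ℝ ℝ : ℝ →L[ℝ] Ve D →L[ℝ] Ve D).precompL (Ve D))
      (volume : Measure (Ve D)) :=
    (hfc.fderiv ℝ).convolutionExists_left _ (hf.continuous_fderiv one_ne_zero) hK x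
  have hex1 : Integrable (fun t => ((ContinuousLinearMap.lsmul ℝ ℝ :
      ℝ →L[ℝ] Ve D →L[ℝ] Ve D).precompL (Ve D)) (fderiv ℝ f t) (K₀ (x - t))) := hex
  have hex2 : Integrable (fun t => (fderiv ℝ f t a) • (K₀ (x - t))) := by
    have := hex1.apply_continuousLinearMap a
    simpa using this
  have hex3 : Integrable (fun t => fderiv ℝ f t a * inner ℝ (K₀ (x - t)) b) := by
    have := hex2.inner_const (𝕜 := ℝ) b
    simpa [inner_smul_left] using this
  have hval : fderiv ℝ (f ⋆[ContinuousLinearMap.lsmul ℝ ℝ, (volume : Measure (Ve D))] K₀) x a =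
      ∫ t, (fderiv ℝ f t a) • (K₀ (x - t)) := by
    rw [hder.fderiv]
    rw [convolution_def, ContinuousLinearMap.integral_apply hex1 a]
    simp
  have hswap : (fun y => fderiv ℝ (fun z => f (x - z)) y a * inner ℝ (K₀ y) b) =
      fun y => - (fun t => fderiv ℝ f t a * inner ℝ (K₀ (x - t)) b) (x - y) := by
    funext y
    rw [V7_fderiv_refl hf]
    simp
  constructor
  · rw [hswap]
    exact (hex3.comp_sub_left x).neg
  · rw [hswap, integral_neg, neg_neg,
      integral_sub_left_eq_self (fun t => fderiv ℝ f t a * inner ℝ (K₀ (x - t)) b) volume x, hval,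
      real_inner_comm, ← integral_inner hex2]
    refine integral_congr_ae (Eventually.of_forall fun t => ?_)
    simp only
    rw [inner_smul_right, real_inner_comm]

/-- V7: mollification. -/
theorem mollify {r r' : ℝ} (hr' : 0 < r') (hr : r' < r) {K : Ve D → Ve D} (hK : WK r K) :
    ∀ η > 0, ∃ K' : Ve D → Ve D, SK r' K' ∧ ∀ x ∈ ball (0 : Ve D) r', ‖K' x - K x‖ ≤ η := by
  intro η hη
  set ρ : ℝ := (r + r') / 2 with hρ
  have hρ1 : r' < ρ := by rw [hρ]; linarith
  have hρ2 : ρ < r := by rw [hρ]; linarith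
  have hcomp : IsCompact (closedBall (0 : Ve D) ρ) := isCompact_closedBall _ _
  have hsub : closedBall (0 : Ve D) ρ ⊆ ball 0 r := closedBall_subset_ball hρ2
  have hcont : ContinuousOn K (closedBall (0 : Ve D) ρ) := hK.cont.mono hsub
  have huc := hcomp.uniformContinuousOn_of_continuous hcont
  rw [Metric.uniformContinuousOn_iff] at huc
  obtain ⟨δ, hδ, huc⟩ := huc η hη
  set ε : ℝ := min δ (ρ - r') with hε
  have hε0 : 0 < ε := lt_min hδ (by linarith)
  have hε1 : ε ≤ δ := min_le_left _ _
  have hε2 : ε ≤ ρ - r' := min_le_right _ _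
  set K₀ : Ve D → Ve D := (closedBall (0 : Ve D) ρ).indicator K with hK₀
  have hK0int : Integrable K₀ (volume : Measure (Ve D)) := by
    rw [hK₀, integrable_indicator_iff measurableSet_closedBall]
    exact hcont.integrableOn_compact hcomp
  have hloc : LocallyIntegrable K₀ (volume : Measure (Ve D)) := hK0int.locallyIntegrable
  let φ : ContDiffBump (0 : Ve D) := ⟨ε / 2, ε, half_pos hε0, half_lt_self hε0⟩
  have hφout : φ.rOut = ε := rfl
  set f : Ve D → ℝ := φ.normed volume with hf
  have hfc : HasCompactSupport f := φ.hasCompactSupport_normed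
  have hf4 : ContDiff ℝ 4 f := by
    have := φ.contDiff_normed (μ := (volume : Measure (Ve D))) (n := 4)
    exact_mod_cast this
  have hf1 : ContDiff ℝ 1 f := hf4.of_le (by norm_num)
  have hψ1 : ∀ x : Ve D, ContDiff ℝ 1 (fun z => f (x - z)) := fun x =>
    hf1.comp (contDiff_const.sub contDiff_id)
  have hsupp : ∀ x : Ve D, Function.support (fun z => f (x - z)) ⊆ closedBall x ε := by
    intro x z hz
    have h1 : x - z ∈ Function.support f := hz
    rw [hf, φ.support_normed_eq, hφout, mem_ball_zero_iff] at h1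
    rw [mem_closedBall, dist_comm, dist_eq_norm]
    exact h1.le
  have htsupp : ∀ x : Ve D, tsupport (fun z => f (x - z)) ⊆ closedBall x ε := fun x =>
    closure_minimal (hsupp x) isClosed_closedBall
  have hψc : ∀ x : Ve D, HasCompactSupport (fun z => f (x - z)) := fun x =>
    HasCompactSupport.intro (isCompact_closedBall x ε) fun z hz => by
      by_contra hne
      exact hz (hsupp x hne)
  have hin : ∀ x ∈ ball (0 : Ve D) r', closedBall x ε ⊆ closedBall (0 : Ve D) ρ := by
    intro x hx
    refine closedBall_subset_closedBall' ?_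
    rw [mem_ball] at hx
    linarith
  have hts : ∀ x ∈ ball (0 : Ve D) r', tsupport (fun z => f (x - z)) ⊆ ball (0 : Ve D) r :=
    fun x hx => ((htsupp x).trans (hin x hx)).trans hsub
  have hzero : ∀ x ∈ ball (0 : Ve D) r', ∀ y a b : Ve D,
      fderiv ℝ (fun z => f (x - z)) y a * inner ℝ (K₀ y) b =
      fderiv ℝ (fun z => f (x - z)) y a * inner ℝ (K y) b := by
    intro x hx y a b
    by_cases hy : y ∈ closedBall (0 : Ve D) ρ
    · rw [hK₀, Set.indicator_of_mem hy]
    · have : fderiv ℝ (fun z => f (x - z)) y = 0 := by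
        by_contra hne
        have h1 : y ∈ tsupport (fderiv ℝ (fun z => f (x - z))) := subset_tsupport _ hne
        exact hy (hin x hx (htsupp x (tsupport_fderiv_subset ℝ h1)))
      rw [this]
      simp
  refine ⟨f ⋆[ContinuousLinearMap.lsmul ℝ ℝ, (volume : Measure (Ve D))] K₀, ⟨?_, ?_⟩, ?_⟩
  · exact hfc.contDiff_convolution_left _ hf4 hloc
  · intro x hx
    constructor
    · intro a b hab
      obtain ⟨hi1, he1⟩ := V7_key hf1 hfc hloc x a b
      obtain ⟨hi2, he2⟩ := V7_key hf1 hfc hloc x b a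
      rw [he1, he2, ← neg_add, ← integral_add hi1 hi2]
      have := hK.orth _ (hψ1 x) (hψc x) (hts x hx) a b hab
      rw [neg_eq_zero, ← this]
      refine integral_congr_ae (Eventually.of_forall fun y => ?_)
      simp only [hzero x hx]
    · intro a b ha hb
      obtain ⟨hi1, he1⟩ := V7_key hf1 hfc hloc x a a
      obtain ⟨hi2, he2⟩ := V7_key hf1 hfc hloc x b b
      rw [he1, he2, neg_inj, ← sub_eq_zero, ← integral_sub hi1 hi2]
      have := hK.diag _ (hψ1 x) (hψc x) (hts x hx) a b ha hb
      rw [← this]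
      refine integral_congr_ae (Eventually.of_forall fun y => ?_)
      simp only [hzero x hx]
  · intro x hx
    have hxρ : x ∈ closedBall (0 : Ve D) ρ := by
      rw [mem_closedBall]
      rw [mem_ball] at hx
      linarith
    have hKx : K₀ x = K x := by rw [hK₀, Set.indicator_of_mem hxρ]
    have := φ.dist_normed_convolution_le (μ := (volume : Measure (Ve D))) (g := K₀) (x₀ := x)
      (ε := η) hK0int.aestronglyMeasurable ?_
    · rw [← dist_eq_norm, ← hKx]
      exact this
    · intro z hz
      rw [hφout] at hz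
      have hz2 : z ∈ closedBall (0 : Ve D) ρ := hin x hx (ball_subset_closedBall hz)
      rw [hKx, hK₀, Set.indicator_of_mem hz2]
      exact (huc z hz2 x hxρ (lt_of_lt_of_le hz hε1)).le

end Pool.Agent.H779R2.Li
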