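import Pool.Agent.H779R2.Li.VDef

set_option autoImplicit false

namespace Pool.Agent.H779R2.Li

open Filter Topology MeasureTheory Metric
open scoped BigOperators

variable {D : ℕ}

theorem V8_polar {B : Ve D →L[ℝ] Ve D} (hB : Inf B) {e : Ve D} (he : ‖e‖ = 1) (a b : Ve D) :
    inner ℝ b (B a) + inner ℝ a (B b) = 2 * inner ℝ e (B e) * inner ℝ a b := by
  have q : ∀ v : Ve D, inner ℝ v (B v) = inner ℝ e (B e) * ‖v‖ ^ 2 := by
    intro v
    by_cases hv : v = 0
    · subst hv; simp
    have hn : ‖v‖ ≠ 0 := norm_ne_zero_iff.2 hv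
    have h1 : ‖(‖v‖⁻¹ • v)‖ = 1 := by
      rw [norm_smul, norm_inv, norm_norm, inv_mul_cancel₀ hn]
    have h2 := hB.diag (‖v‖⁻¹ • v) e h1 he
    rw [map_smul, inner_smul_left, inner_smul_right, real_inner_comm, real_inner_comm e (B e)] at h2
    have h3 : (starRingEnd ℝ) ‖v‖⁻¹ = ‖v‖⁻¹ := rfl
    rw [h3] at h2
    rw [← h2]
    field_simp
  have h1 := q (a + b)
  have h2 := q a
  have h3 := q b
  rw [map_add, inner_add_left, inner_add_right, inner_add_right] at h1
  have h4 : ‖a + b‖ ^ 2 = ‖a‖ ^ 2 + 2 * inner ℝ a b + ‖b‖ ^ 2 := norm_add_sq_real a b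
  rw [h4] at h1
  linarith [h1, h2, h3]

theorem V8_hess (hD : 3 ≤ D) {H : Ve D →L[ℝ] Ve D →L[ℝ] ℝ}
    (hH : ∀ a b c d : Ve D, H d a * inner ℝ b c - H d b * inner ℝ c a =
      H c a * inner ℝ b d - H c b * inner ℝ d a) : H = 0 := by
  classical
  have third : ∀ i j : Fin D, ∃ k : Fin D, k ≠ i ∧ k ≠ j := by
    intro i j
    by_contra hcon
    push Not at hcon
    have hsub : (Finset.univ : Finset (Fin D)) ⊆ {i, j} := by
      intro k _
      by_cases hk : k = i
      · simp [hk]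
      · simp [hcon k hk]
    have := Finset.card_le_card hsub
    have h2 : ({i, j} : Finset (Fin D)).card ≤ 2 := Finset.card_le_two
    simp at this
    omega
  let s : Fin D → Ve D := fun i => EuclideanSpace.single i (1 : ℝ)
  have hs : ∀ i j, inner ℝ (s i) (s j) = if i = j then (1 : ℝ) else 0 := by
    intro i j
    simp only [s]
    rw [EuclideanSpace.inner_single_left]
    simp [EuclideanSpace.single_apply]
  have off : ∀ i j, i ≠ j → H (s i) (s j) = 0 := by
    intro i j hij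
    obtain ⟨k, hki, hkj⟩ := third i j
    have := hH (s j) (s k) (s k) (s i)
    simp only [hs] at this
    simp [hki, hkj, hij] at this
    exact this
  have dg : ∀ i j, i ≠ j → H (s i) (s i) = - H (s j) (s j) := by
    intro i j hij
    have := hH (s i) (s j) (s j) (s i)
    simp only [hs] at this
    simp [hij, hij.symm] at this
    linarith
  have dz : ∀ i, H (s i) (s i) = 0 := by
    intro i
    obtain ⟨j, hji, -⟩ := third i i
    obtain ⟨k, hki, hkj⟩ := third i j
    have h1 := dg i j hji.symm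
    have h2 := dg j k hkj.symm
    have h3 := dg k i hki
    linarith
  have all : ∀ i j, H (s i) (s j) = 0 := by
    intro i j
    by_cases hij : i = j
    · subst hij; exact dz i
    · exact off i j hij
  have b := (EuclideanSpace.basisFun (Fin D) ℝ)
  ext x y
  have hx : x = ∑ i, x i • s i := by
    have := (EuclideanSpace.basisFun (Fin D) ℝ).sum_repr x
    simpa [s] using this.symm
  have hy : y = ∑ i, y i • s i := by
    have := (EuclideanSpace.basisFun (Fin D) ℝ).sum_repr y
    simpa [s] using this.symm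
  rw [hx, hy]
  simp [map_sum, all, ContinuousLinearMap.sum_apply]

/-- V8: smooth conformal vector fields are polynomial in dimension at least three. -/
theorem kill_poly (hD : 3 ≤ D) {r : ℝ} (hr : 0 < r) {K : Ve D → Ve D} (hK : SK r K) :
    IsPoly r K := by
  have hU : IsOpen (ball (0 : Ve D) r) := isOpen_ball
  have hUc : IsPreconnected (ball (0 : Ve D) r) := (convex_ball _ _).isPreconnected
  have h0 : (0 : Ve D) ∈ ball (0 : Ve D) r := mem_ball_self hr
  have hK4 := hK.smooth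
  obtain ⟨K1, hK1def⟩ : ∃ K1, K1 = fderiv ℝ K := ⟨_, rfl⟩
  have hK1 : ContDiff ℝ 3 K1 := by
    rw [hK1def]; exact hK4.fderiv_right (by norm_num)
  obtain ⟨K2, hK2def⟩ : ∃ K2, K2 = fderiv ℝ K1 := ⟨_, rfl⟩
  have hK2 : ContDiff ℝ 2 K2 := by
    rw [hK2def]; exact hK1.fderiv_right (by norm_num)
  obtain ⟨K3, hK3def⟩ : ∃ K3, K3 = fderiv ℝ K2 := ⟨_, rfl⟩
  have sym2 : ∀ x a c, K2 x a c = K2 x c a := by
    intro x a c
    have := (hK4.contDiffAt (x := x)).isSymmSndFDerivAt (by simp; exact_mod_cast (by norm_num : (2 : ℕ) ≤ 4))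
    have h := this.eq a c
    rw [← hK1def, ← hK2def] at h
    exact h
  have sym3 : ∀ x a c, K3 x a c = K3 x c a := by
    intro x a c
    have := (hK1.contDiffAt (x := x)).isSymmSndFDerivAt (by simp; exact_mod_cast (by norm_num : (2 : ℕ) ≤ 3))
    have h := this.eq a c
    rw [← hK2def, ← hK3def] at h
    exact h
  have hd1 : ∀ x, HasFDerivAt K1 (K2 x) x := by
    intro x
    rw [hK2def]
    exact (hK1.differentiable (by norm_num) x).hasFDerivAt
  have hd2 : ∀ x, HasFDerivAt K2 (K3 x) x := by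
    intro x
    rw [hK3def]
    exact (hK2.differentiable (by norm_num) x).hasFDerivAt
  have hd0 : ∀ x, HasFDerivAt K (K1 x) x := by
    intro x
    rw [hK1def]
    exact (hK4.differentiable (by norm_num) x).hasFDerivAt
  -- scalar functions
  let e : Ve D := EuclideanSpace.single (⟨0, by omega⟩ : Fin D) (1 : ℝ)
  have he : ‖e‖ = 1 := by simp [e]
  -- derivative of `⟪b, K1 x a⟫`
  have dF : ∀ (a b x : Ve D), HasFDerivAt (fun x => inner ℝ b (K1 x a))
      ((innerSL ℝ b).comp ((ContinuousLinearMap.apply ℝ (Ve D) a).comp (K2 x))) x := by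
    intro a b x
    exact (innerSL ℝ b).hasFDerivAt.comp x
      ((ContinuousLinearMap.apply ℝ (Ve D) a).hasFDerivAt.comp x (hd1 x))
  have dG : ∀ (a b c x : Ve D), HasFDerivAt (fun x => inner ℝ b (K2 x c a))
      ((innerSL ℝ b).comp ((ContinuousLinearMap.apply ℝ (Ve D) a).comp
        ((ContinuousLinearMap.apply ℝ (Ve D →L[ℝ] Ve D) c).comp (K3 x)))) x := by
    intro a b c x
    have s1 : HasFDerivAt (fun x => K2 x c)
        ((ContinuousLinearMap.apply ℝ (Ve D →L[ℝ] Ve D) c).comp (K3 x)) x := by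
      have hL : HasFDerivAt (fun A : Ve D →L[ℝ] Ve D →L[ℝ] Ve D => A c)
          (ContinuousLinearMap.apply ℝ (Ve D →L[ℝ] Ve D) c) (K2 x) :=
        (ContinuousLinearMap.apply ℝ (Ve D →L[ℝ] Ve D) c).hasFDerivAt
      exact HasFDerivAt.comp (f := K2) (f' := K3 x) x hL (hd2 x)
    have s2 : HasFDerivAt (fun x => K2 x c a)
        ((ContinuousLinearMap.apply ℝ (Ve D) a).comp
          ((ContinuousLinearMap.apply ℝ (Ve D →L[ℝ] Ve D) c).comp (K3 x))) x :=
      (ContinuousLinearMap.apply ℝ (Ve D) a).hasFDerivAt.comp x s1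
    exact (innerSL ℝ b).hasFDerivAt.comp x s2
  obtain ⟨κ, hκ⟩ : ∃ κ : Ve D → ℝ, κ = fun x => inner ℝ e (K1 x e) := ⟨_, rfl⟩
  have hκ3 : ContDiff ℝ 3 κ := by
    rw [hκ]
    exact contDiff_const.inner ℝ (hK1.clm_apply contDiff_const)
  obtain ⟨κ1, hκ1def⟩ : ∃ κ1, κ1 = fderiv ℝ κ := ⟨_, rfl⟩
  have hκ1 : ContDiff ℝ 2 κ1 := by
    rw [hκ1def]; exact hκ3.fderiv_right (by norm_num)
  obtain ⟨κ2, hκ2def⟩ : ∃ κ2, κ2 = fderiv ℝ κ1 := ⟨_, rfl⟩
  have hdκ : ∀ x, HasFDerivAt κ (κ1 x) x := by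
    intro x
    rw [hκ1def]
    exact (hκ3.differentiable (by norm_num) x).hasFDerivAt
  have hdκ1 : ∀ x, HasFDerivAt κ1 (κ2 x) x := by
    intro x
    rw [hκ2def]
    exact (hκ1.differentiable (by norm_num) x).hasFDerivAt
  have symκ : ∀ x a c, κ2 x a c = κ2 x c a := by
    intro x a c
    have := (hκ3.contDiffAt (x := x)).isSymmSndFDerivAt (by simp; exact_mod_cast (by norm_num : (2 : ℕ) ≤ 3))
    have h := this.eq a c
    rw [← hκ1def, ← hκ2def] at h
    exact h
  have dκc : ∀ (c x : Ve D), HasFDerivAt (fun x => κ1 x c)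
      ((ContinuousLinearMap.apply ℝ ℝ c).comp (κ2 x)) x := by
    intro c x
    exact (ContinuousLinearMap.apply ℝ ℝ c).hasFDerivAt.comp x (hdκ1 x)
  -- first identity
  have I1 : ∀ x ∈ ball (0 : Ve D) r, ∀ a b : Ve D,
      inner ℝ b (K1 x a) + inner ℝ a (K1 x b) = 2 * κ x * inner ℝ a b := by
    intro x hx a b
    have := V8_polar (hK.inf x hx) he a b
    rw [← hK1def] at this
    rw [hκ]
    exact this
  -- its derivative
  have I1' : ∀ x ∈ ball (0 : Ve D) r, ∀ a b c : Ve D,
      inner ℝ b (K2 x c a) + inner ℝ a (K2 x c b) = 2 * κ1 x c * inner ℝ a b := by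
    intro x hx a b c
    have hev : (fun x => inner ℝ b (K1 x a) + inner ℝ a (K1 x b)) =ᶠ[𝓝 x]
        fun x => 2 * κ x * inner ℝ a b := by
      filter_upwards [hU.mem_nhds hx] with y hy
      exact I1 y hy a b
    have d1 := (dF a b x).add (dF b a x)
    have d2 := ((hdκ x).const_mul 2).mul_const (inner ℝ a b)
    have d3 := d1.congr_of_eventuallyEq hev.symm
    have := congrArg (fun L : Ve D →L[ℝ] ℝ => L c) (d3.unique d2)
    simp at this
    linarith [this]
  have I2 : ∀ x ∈ ball (0 : Ve D) r, ∀ a b c : Ve D,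
      inner ℝ b (K2 x c a) = κ1 x c * inner ℝ a b + κ1 x a * inner ℝ b c
        - κ1 x b * inner ℝ c a := by
    intro x hx a b c
    have e1 := I1' x hx a b c
    have e2 := I1' x hx b c a
    have e3 := I1' x hx c a b
    rw [sym2 x a b] at e2
    rw [sym2 x a c] at e2
    rw [sym2 x b c] at e3
    linarith
  have I2' : ∀ x ∈ ball (0 : Ve D) r, ∀ a b c d : Ve D,
      inner ℝ b (K3 x d c a) = κ2 x d c * inner ℝ a b + κ2 x d a * inner ℝ b c
        - κ2 x d b * inner ℝ c a := by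
    intro x hx a b c d
    have hev : (fun x => inner ℝ b (K2 x c a)) =ᶠ[𝓝 x]
        fun x => κ1 x c * inner ℝ a b + κ1 x a * inner ℝ b c - κ1 x b * inner ℝ c a := by
      filter_upwards [hU.mem_nhds hx] with y hy
      exact I2 y hy a b c
    have d2 := (((dκc c x).mul_const (inner ℝ a b)).add ((dκc a x).mul_const (inner ℝ b c))).sub
      ((dκc b x).mul_const (inner ℝ c a))
    have d3 := (dG a b c x).congr_of_eventuallyEq hev.symm
    have := congrArg (fun L : Ve D →L[ℝ] ℝ => L d) (d3.unique d2)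
    simp at this
    linarith [this]
  have Hz : ∀ x ∈ ball (0 : Ve D) r, κ2 x = 0 := by
    intro x hx
    apply V8_hess hD
    intro a b c d
    have e1 := I2' x hx a b c d
    have e2 := I2' x hx a b d c
    rw [sym3 x c d] at e2
    have e3 := symκ x d c
    rw [e3] at e1
    linarith
  have κconst : ∀ x ∈ ball (0 : Ve D) r, κ1 x = κ1 0 := by
    intro x hx
    refine hU.is_const_of_fderiv_eq_zero (𝕜 := ℝ) hUc
      (fun y _ => (hdκ1 y).differentiableAt.differentiableWithinAt) ?_ hx h0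
    intro y hy
    rw [← hκ2def]
    exact Hz y hy
  obtain ⟨γ, hγ⟩ : ∃ γ : Ve D, ∀ v, κ1 0 v = inner ℝ γ v :=
    ⟨(InnerProductSpace.toDual ℝ (Ve D)).symm (κ1 0), fun v => by
      rw [InnerProductSpace.toDual_symm_apply]⟩
  have J1 : ∀ x ∈ ball (0 : Ve D) r, ∀ a b : Ve D,
      inner ℝ b (K1 x a) = inner ℝ b (K1 0 a) + (inner ℝ γ a * inner ℝ b x +
        inner ℝ γ x * inner ℝ a b - inner ℝ γ b * inner ℝ a x) := by
    intro x hx a b
    have hder : ∀ y, HasFDerivAt (fun x => inner ℝ b (K1 x a) - (inner ℝ γ a * inner ℝ b x +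
        inner ℝ γ x * inner ℝ a b - inner ℝ γ b * inner ℝ a x))
        (((innerSL ℝ b).comp ((ContinuousLinearMap.apply ℝ (Ve D) a).comp (K2 y))) -
          (((inner ℝ γ a) • (innerSL ℝ b) + (inner ℝ a b : ℝ) • (innerSL ℝ γ)) -
            (inner ℝ γ b : ℝ) • (innerSL ℝ a))) y := by
      intro y
      have g1 : HasFDerivAt (fun x => inner ℝ γ a * inner ℝ b x)
          ((inner ℝ γ a : ℝ) • (innerSL ℝ b)) y :=
        ((innerSL ℝ b).hasFDerivAt (x := y)).const_mul (inner ℝ γ a)
      have g2 : HasFDerivAt (fun x => inner ℝ γ x * inner ℝ a b)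
          ((inner ℝ a b : ℝ) • (innerSL ℝ γ)) y :=
        ((innerSL ℝ γ).hasFDerivAt (x := y)).mul_const (inner ℝ a b)
      have g3 : HasFDerivAt (fun x => inner ℝ γ b * inner ℝ a x)
          ((inner ℝ γ b : ℝ) • (innerSL ℝ a)) y :=
        ((innerSL ℝ a).hasFDerivAt (x := y)).const_mul (inner ℝ γ b)
      exact (dF a b y).sub ((g1.add g2).sub g3)
    have hc := hU.is_const_of_fderiv_eq_zero (𝕜 := ℝ) hUc
      (fun y _ => (hder y).differentiableAt.differentiableWithinAt) (fun y hy => ?_) hx h0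
    · simp at hc
      linarith [hc]
    · rw [(hder y).fderiv]
      ext c
      have e1 := I2 y hy a b c
      rw [κconst y hy, hγ, hγ, hγ] at e1
      simp
      rw [real_inner_comm a c] at e1
      linarith [e1]
  refine ⟨K 0, K1 0, (1 / 2 : ℝ) • γ, ?_, ?_⟩
  · rw [hK1def]; exact hK.inf 0 h0
  intro x hx
  refine ext_inner_left ℝ fun b => ?_
  have hder : ∀ y, HasFDerivAt (fun x => inner ℝ b (K x) - (inner ℝ b (K1 0 x) +
      (inner ℝ γ x * inner ℝ b x - 1 / 2 * inner ℝ γ b * inner ℝ x x)))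
      (((innerSL ℝ b).comp (K1 y)) - ((innerSL ℝ b).comp (K1 0) +
        (((inner ℝ γ y : ℝ) • (innerSL ℝ b) + (inner ℝ b y : ℝ) • (innerSL ℝ γ)) -
          (1 / 2 * inner ℝ γ b : ℝ) • ((2 : ℝ) • (innerSL ℝ y))))) y := by
    intro y
    have g0 : HasFDerivAt (fun x => inner ℝ b (K x)) ((innerSL ℝ b).comp (K1 y)) y :=
      (innerSL ℝ b).hasFDerivAt.comp y (hd0 y)
    have g1 : HasFDerivAt (fun x => inner ℝ b (K1 0 x)) ((innerSL ℝ b).comp (K1 0)) y :=
      (innerSL ℝ b).hasFDerivAt.comp y ((K1 0).hasFDerivAt)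
    have g2 : HasFDerivAt (fun x => inner ℝ γ x * inner ℝ b x)
        ((inner ℝ γ y : ℝ) • (innerSL ℝ b) + (inner ℝ b y : ℝ) • (innerSL ℝ γ)) y :=
      ((innerSL ℝ γ).hasFDerivAt (x := y)).mul ((innerSL ℝ b).hasFDerivAt (x := y))
    have g3 : HasFDerivAt (fun x : Ve D => (inner ℝ x x : ℝ)) ((2 : ℝ) • (innerSL ℝ y)) y := by
      have := (hasStrictFDerivAt_norm_sq y).hasFDerivAt
      refine (this.congr_of_eventuallyEq ?_).congr_fderiv ?_
      · filter_upwards with z
        rw [real_inner_self_eq_norm_sq]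
      · ext v; simp [two_smul]
    exact g0.sub (g1.add (g2.sub (g3.const_mul _)))
  have hc := hU.is_const_of_fderiv_eq_zero (𝕜 := ℝ) hUc
    (fun y _ => (hder y).differentiableAt.differentiableWithinAt) (fun y hy => ?_) hx h0
  · have hq : inner ℝ b (qv ((1 / 2 : ℝ) • γ) x) =
        inner ℝ γ x * inner ℝ b x - 1 / 2 * inner ℝ γ b * inner ℝ x x := by
      unfold qv
      rw [inner_sub_right, inner_smul_right, inner_smul_right, inner_smul_left, inner_smul_right,
        real_inner_self_eq_norm_sq, real_inner_comm γ b]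
      simp
      ring
    rw [inner_add_right, inner_add_right, hq]
    simp at hc
    rw [real_inner_self_eq_norm_sq] at *
    linarith [hc]
  · rw [(hder y).fderiv]
    ext a
    have e1 := J1 y hy a b
    simp
    rw [real_inner_comm a b, real_inner_comm a y] at *
    linarith [e1]

end Pool.Agent.H779R2.Li
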