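import Pool.Agent.H779R2.Li.VDef

set_option autoImplicit false

namespace Pool.Agent.H779R2.Li

open Filter Topology MeasureTheory Metric
open scoped BigOperators

variable {D : ℕ}

/-- The infinitesimal conformal maps as a subspace (first and second component free). -/
private def infSub (D : ℕ) : Submodule ℝ (Ve D × (Ve D →L[ℝ] Ve D) × Ve D) where
  carrier := {p | Inf p.2.1}
  add_mem' := by
    rintro ⟨k, B, c⟩ ⟨k', B', c'⟩ h h'
    refine ⟨fun a b hab => ?_, fun a b ha hb => ?_⟩
    · have e1 := h.orth a b hab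
      have e2 := h'.orth a b hab
      simp only [Prod.mk_add_mk, _root_.add_apply, inner_add_left] at *
      linarith
    · have e1 := h.diag a b ha hb
      have e2 := h'.diag a b ha hb
      simp only [Prod.mk_add_mk, _root_.add_apply, inner_add_left] at *
      linarith
  zero_mem' := ⟨fun a b _ => by simp, fun a b _ _ => by simp⟩
  smul_mem' := by
    rintro t ⟨k, B, c⟩ h
    refine ⟨fun a b hab => ?_, fun a b ha hb => ?_⟩
    · have e1 := h.orth a b hab
      simp only [Prod.smul_mk, _root_.smul_apply, inner_smul_left] at *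
      simp only [conj_trivial]
      rw [← mul_add, e1, mul_zero]
    · have e1 := h.diag a b ha hb
      simp only [Prod.smul_mk, _root_.smul_apply, inner_smul_left] at *
      rw [e1]

/-- The evaluation map on the ball. -/
private noncomputable def evMap (D : ℕ) (r : ℝ) :
    (Ve D × (Ve D →L[ℝ] Ve D) × Ve D) →ₗ[ℝ] (ball (0 : Ve D) r → Ve D) where
  toFun p x := p.1 + p.2.1 x + qv p.2.2 x
  map_add' := by
    rintro ⟨k, B, c⟩ ⟨k', B', c'⟩
    funext x
    simp only [Prod.mk_add_mk, _root_.add_apply, Pi.add_apply, qv, inner_add_left,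
      mul_add, add_smul, smul_add]
    abel
  map_smul' := by
    rintro t ⟨k, B, c⟩
    funext x
    simp only [Prod.smul_mk, _root_.smul_apply, Pi.smul_apply, qv, inner_smul_left,
      conj_trivial, RingHom.id_apply, smul_add, smul_sub, smul_smul]
    congr 2
    · ring_nf
    · ring_nf

/-- V9: uniform limits of polynomial conformal vector fields. -/
theorem poly_lim {r : ℝ} (hr : 0 < r) {K : Ve D → Ve D}
    (h : ∀ η > 0, ∃ K' : Ve D → Ve D, IsPoly r K' ∧ ∀ x ∈ ball (0 : Ve D) r, ‖K' x - K x‖ ≤ η) :
    IsPoly r K := by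
  have hcl : IsClosed (((infSub D).map (evMap D r) : Submodule ℝ (ball (0 : Ve D) r → Ve D)) :
      Set (ball (0 : Ve D) r → Ve D)) := Submodule.closed_of_finiteDimensional _
  choose! F hF hF' using h
  have hmem : (fun x : ball (0 : Ve D) r => K x) ∈
      ((infSub D).map (evMap D r) : Submodule ℝ (ball (0 : Ve D) r → Ve D)) := by
    refine hcl.mem_of_tendsto (f := fun n : ℕ => fun x : ball (0 : Ve D) r =>
      F (1 / ((n : ℝ) + 1)) x) (b := atTop) ?_ (Eventually.of_forall fun n => ?_)
    · rw [tendsto_pi_nhds]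
      intro x
      rw [tendsto_iff_norm_sub_tendsto_zero]
      refine squeeze_zero (fun n => norm_nonneg _) (fun n => ?_)
        (tendsto_one_div_add_atTop_nhds_zero_nat (𝕜 := ℝ))
      exact hF' _ (by positivity) x x.2
    · obtain ⟨k₀, B, c, hB, hx⟩ := hF (1 / ((n : ℝ) + 1)) (by positivity)
      refine ⟨(k₀, B, c), hB, ?_⟩
      funext x
      exact (hx x x.2).symm
  obtain ⟨⟨k₀, B, c⟩, hB, he⟩ := hmem
  refine ⟨k₀, B, c, hB, fun x hx => ?_⟩
  have := congrFun he ⟨x, hx⟩
  exact this.symm

end Pool.Agent.H779R2.Li
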