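import Pool.Agent.H779R2.Li.V6
import Pool.Agent.H779R2.Li.V7
import Pool.Agent.H779R2.Li.V8
import Pool.Agent.H779R2.Li.V9

set_option autoImplicit false

namespace Pool.Agent.H779R2.Li

open Filter Topology MeasureTheory Metric
open scoped BigOperators

variable {D : ℕ}

/-- The inverse derivative of a `C¹` conformal map is polynomial near `0`. -/
theorem wv_poly (hD : 3 ≤ D) {r : ℝ} (hr : 0 < r) {h : Ve D → Ve D} (H : CM r h) (e : Ve D) :
    ∃ r₃ > 0, r₃ < r ∧ IsPoly r₃ (Wv h e) := by
  obtain ⟨r₂, hr₂, hr₂', hW⟩ := weak_kill (by omega) hr H e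
  refine ⟨r₂ / 2, by positivity, by linarith, poly_lim (by positivity) ?_⟩
  intro η hη
  obtain ⟨K', hK', hK''⟩ := mollify (r' := r₂ / 2) (by positivity) (by linarith) hW η hη
  exact ⟨K', kill_poly hD (by positivity) hK', hK''⟩

private theorem v10_inf_zero : Inf (0 : Ve D →L[ℝ] Ve D) := by
  refine ⟨fun a b _ => ?_, fun a b _ _ => ?_⟩ <;> simp

private theorem v10_inf_add {B B' : Ve D →L[ℝ] Ve D} (h : Inf B) (h' : Inf B') :
    Inf (B + B') := by
  refine ⟨fun a b hab => ?_, fun a b ha hb => ?_⟩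
  · have h1 := h.orth a b hab
    have h2 := h'.orth a b hab
    rw [_root_.add_apply, _root_.add_apply, inner_add_left, inner_add_left]
    linarith
  · have h1 := h.diag a b ha hb
    have h2 := h'.diag a b ha hb
    rw [_root_.add_apply, _root_.add_apply, inner_add_left, inner_add_left]
    linarith

private theorem v10_inf_smul {B : Ve D →L[ℝ] Ve D} (t : ℝ) (h : Inf B) : Inf (t • B) := by
  refine ⟨fun a b hab => ?_, fun a b ha hb => ?_⟩
  · have h1 := h.orth a b hab
    have e1 : (t • B) a = t • B a := rfl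
    have e2 : (t • B) b = t • B b := rfl
    rw [e1, e2, real_inner_smul_left, real_inner_smul_left, ← mul_add, h1, mul_zero]
  · have h1 := h.diag a b ha hb
    have e1 : (t • B) a = t • B a := rfl
    have e2 : (t • B) b = t • B b := rfl
    rw [e1, e2, real_inner_smul_left, real_inner_smul_left, h1]

private theorem v10_qv_add (c c' x : Ve D) : qv (c + c') x = qv c x + qv c' x := by
  unfold qv
  rw [inner_add_left, mul_add, add_smul, smul_add]
  abel

private theorem v10_qv_smul (t : ℝ) (c x : Ve D) : qv (t • c) x = t • qv c x := by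
  unfold qv
  rw [real_inner_smul_left, smul_sub, smul_smul, smul_smul, smul_smul]
  congr 2
  · ring
  · ring

private theorem v10_zero (r : ℝ) : IsPoly r (fun _ : Ve D => (0 : Ve D)) := by
  refine ⟨0, 0, 0, v10_inf_zero, ?_⟩
  intro x _
  simp [qv]

private theorem v10_add {r : ℝ} {K K' : Ve D → Ve D} (h : IsPoly r K) (h' : IsPoly r K') :
    IsPoly r (fun x => K x + K' x) := by
  obtain ⟨k, B, c, hB, hK⟩ := h
  obtain ⟨k', B', c', hB', hK'⟩ := h'
  refine ⟨k + k', B + B', c + c', v10_inf_add hB hB', ?_⟩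
  intro x hx
  have e0 := hK x hx
  have e0' := hK' x hx
  change K x + K' x = _
  rw [e0, e0', v10_qv_add, _root_.add_apply]
  abel

private theorem v10_smul {r : ℝ} {K : Ve D → Ve D} (t : ℝ) (h : IsPoly r K) :
    IsPoly r (fun x => t • K x) := by
  obtain ⟨k, B, c, hB, hK⟩ := h
  refine ⟨t • k, t • B, t • c, v10_inf_smul t hB, ?_⟩
  intro x hx
  have e1 : (t • B) x = t • B x := rfl
  have e0 := hK x hx
  change t • K x = _
  rw [e0, v10_qv_smul, e1, smul_add, smul_add]

private theorem v10_mono {r r' : ℝ} {K : Ve D → Ve D} (hr : r' ≤ r) (h : IsPoly r K) :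
    IsPoly r' K := by
  obtain ⟨k, B, c, hB, hK⟩ := h
  exact ⟨k, B, c, hB, fun x hx => hK x (ball_subset_ball hr hx)⟩

private theorem v10_sum {r : ℝ} {ι : Type} (s : Finset ι) (t : ι → ℝ)
    (K : ι → Ve D → Ve D) (h : ∀ i, IsPoly r (K i)) :
    IsPoly r (fun x => ∑ i ∈ s, t i • K i x) := by
  classical
  induction s using Finset.induction_on with
  | empty => simpa using v10_zero (D := D) r
  | insert a s ha ih =>
    have h1 := v10_add (v10_smul (t a) (h a)) ih
    simpa only [Finset.sum_insert ha] using h1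

/-- V10: a uniform radius for all vectors. -/
theorem wv_poly_all (hD : 3 ≤ D) {r : ℝ} (hr : 0 < r) {h : Ve D → Ve D} (H : CM r h) :
    ∃ r₃ > 0, r₃ < r ∧ ∀ e, IsPoly r₃ (Wv h e) := by
  have hne : Nonempty (Fin D) := ⟨⟨0, by omega⟩⟩
  choose ρ hρ0 hρr hρ using fun i : Fin D => wv_poly hD hr H (EuclideanSpace.single i (1 : ℝ))
  obtain ⟨i₀, hi₀⟩ := Finite.exists_min ρ
  refine ⟨ρ i₀, hρ0 i₀, hρr i₀, ?_⟩
  intro e
  have h1 := v10_sum Finset.univ (fun i => e i)
    (fun i => Wv h (EuclideanSpace.single i (1 : ℝ))) (fun i => v10_mono (hi₀ i) (hρ i))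
  have h2 : (fun x => ∑ i, e i • Wv h (EuclideanSpace.single i (1 : ℝ)) x) = Wv h e := by
    funext x
    unfold Wv
    have he : e = ∑ i, e i • (EuclideanSpace.single i (1 : ℝ) : Ve D) := by
      ext j
      simp [Finset.sum_apply, Pi.single_apply]
    conv_rhs => rw [he]
    rw [map_sum]
    simp only [map_smul]
  rw [h2] at h1
  exact h1

end Pool.Agent.H779R2.Li
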