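import Pool.Agent.H779R2.Li.VDef

set_option autoImplicit false

namespace Pool.Agent.H779R2.Li

open Filter Topology MeasureTheory Metric
open scoped BigOperators

variable {D : ℕ}

/-- V2 -/
theorem Conf.inner_map {A : Ve D →L[ℝ] Ve D} (h : Conf A) (v w : Ve D) :
    inner ℝ (A v) (A w) = ‖A‖ ^ 2 * inner ℝ v w := by
  have h1 := h (v + w)
  have h2 := h v
  have h3 := h w
  have e1 := norm_add_sq_real (A v) (A w)
  have e2 := norm_add_sq_real v w
  rw [← map_add, h1, h2, h3] at e1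
  linear_combination (-1 / 2 : ℝ) * e1 + (‖A‖ ^ 2 / 2) * e2

/-- V2: conformal linear maps. -/
theorem Conf.adjoint_apply {A : Ve D →L[ℝ] Ve D} (h : Conf A) (v : Ve D) :
    (ContinuousLinearMap.adjoint A) (A v) = ‖A‖ ^ 2 • v := by
  refine ext_inner_right ℝ (fun w => ?_)
  rw [ContinuousLinearMap.adjoint_inner_left, h.inner_map, real_inner_smul_left]

theorem Conf.isInvertible {A : Ve D →L[ℝ] Ve D} (h : Conf A) (hA : A ≠ 0) :
    A.IsInvertible := by
  have hn : ‖A‖ ≠ 0 := norm_ne_zero_iff.mpr hA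
  have hinj : Function.Injective (A : Ve D →ₗ[ℝ] Ve D) := by
    intro x y hxy
    have hxy' : A x = A y := hxy
    have h1 := h (x - y)
    rw [map_sub, hxy', sub_self, norm_zero] at h1
    have h2 : ‖x - y‖ = 0 := by
      rcases mul_eq_zero.mp h1.symm with h3 | h3
      · exact absurd h3 hn
      · exact h3
    exact sub_eq_zero.mp (norm_eq_zero.mp h2)
  refine ⟨(LinearEquiv.ofInjectiveEndo (A : Ve D →ₗ[ℝ] Ve D) hinj).toContinuousLinearEquiv, ?_⟩
  ext x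
  rfl

/-- V2 -/
theorem Conf.norm_adjoint_apply {A : Ve D →L[ℝ] Ve D} (h : Conf A) (v : Ve D) :
    ‖(ContinuousLinearMap.adjoint A) v‖ = ‖A‖ * ‖v‖ := by
  by_cases hA : A = 0
  · subst hA
    simp
  · obtain ⟨w, rfl⟩ := (h.isInvertible hA).surjective v
    rw [h.adjoint_apply, norm_smul, h w, Real.norm_of_nonneg (by positivity)]
    ring

/-- V2 -/
theorem Conf.abs_det {A : Ve D →L[ℝ] Ve D} (h : Conf A) : |A.det| = ‖A‖ ^ D := by
  have h1 := ContinuousLinearMap.normDet_sq (𝕜 := ℝ) A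
  have h2 : (ContinuousLinearMap.adjoint A) ∘L A =
      (‖A‖ ^ 2) • (ContinuousLinearMap.id ℝ (Ve D)) := by
    ext1 v
    exact h.adjoint_apply v
  have h3 : ((‖A‖ ^ 2) • (ContinuousLinearMap.id ℝ (Ve D))).det = (‖A‖ ^ D) ^ 2 := by
    have : ((‖A‖ ^ 2) • (ContinuousLinearMap.id ℝ (Ve D))).det =
        LinearMap.det ((‖A‖ ^ 2) • (LinearMap.id : Ve D →ₗ[ℝ] Ve D)) := rfl
    rw [this, LinearMap.det_smul, LinearMap.det_id]
    simp
    ring
  have h4 : LinearMap.normDet (A : Ve D →ₗ[ℝ] Ve D) = |A.det| :=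
    LinearMap.normDet_eq_abs_det _
  have h5 : |A.det| ^ 2 = (‖A‖ ^ D) ^ 2 := by
    rw [← h4, ← h3, ← h2]
    exact h1
  exact (sq_eq_sq₀ (abs_nonneg _) (by positivity)).mp h5

/-- V2 -/
theorem Conf.inverse_apply {A : Ve D →L[ℝ] Ve D} (h : Conf A) (hA : A ≠ 0) (v : Ve D) :
    A (A.inverse v) = v ∧ A.inverse (A v) = v ∧ ‖A.inverse v‖ = ‖A‖⁻¹ * ‖v‖ := by
  have hi := h.isInvertible hA
  have h1 : A (A.inverse v) = v := by
    obtain ⟨e, he⟩ := hi
    rw [← he]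
    simp
  refine ⟨h1, hi.inverse_apply_self v, ?_⟩
  have h2 := h (A.inverse v)
  rw [h1] at h2
  have hn : ‖A‖ ≠ 0 := norm_ne_zero_iff.mpr hA
  rw [h2]
  field_simp

end Pool.Agent.H779R2.Li
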