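import Pool.Agent.H779R2.Li.VDef
import Pool.Agent.H779R2.Li.V2

set_option autoImplicit false

namespace Pool.Agent.H779R2.Li

open Filter Topology MeasureTheory Metric
open scoped BigOperators

variable {D : ℕ}

private theorem v11_polar (B : Ve D →L[ℝ] Ve D) (l : ℝ)
    (h : ∀ a : Ve D, inner ℝ (B a) a = l * ‖a‖ ^ 2) (a b : Ve D) :
    inner ℝ (B a) b + inner ℝ (B b) a = 2 * l * inner ℝ a b := by
  have h1 := h (a + b)
  have h2 := h a
  have h3 := h b
  have h4 : ‖a + b‖ ^ 2 = ‖a‖ ^ 2 + 2 * inner ℝ a b + ‖b‖ ^ 2 := norm_add_sq_real a b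
  rw [map_add, inner_add_left, inner_add_right, inner_add_right, h4] at h1
  linarith

/-- V11: the first prolongation. -/
theorem prolong (B : Ve D →L[ℝ] Ve D →L[ℝ] Ve D) (hsymm : ∀ x y, B x y = B y x)
    (hB : ∀ x, Inf (B x)) : ∃ β : Ve D, ∀ x e,
      B x e = inner ℝ β x • e + inner ℝ β e • x - inner ℝ x e • β := by
  rcases Nat.eq_zero_or_pos D with h0 | h0
  · subst h0
    exact ⟨0, fun x e => Subsingleton.elim _ _⟩
  · let a0 : Ve D := EuclideanSpace.single ⟨0, h0⟩ 1
    have ha0 : ‖a0‖ = 1 := by simp [a0]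
    let φ : Ve D →L[ℝ] ℝ := (innerSL ℝ a0).comp ((ContinuousLinearMap.apply ℝ (Ve D) a0).comp B)
    let β : Ve D := (InnerProductSpace.toDual ℝ (Ve D)).symm φ
    have hβ : ∀ x, inner ℝ β x = inner ℝ (B x a0) a0 := by
      intro x
      have h1 : inner ℝ β x = φ x := InnerProductSpace.toDual_symm_apply
      rw [h1, real_inner_comm]
      rfl
    have hdiag : ∀ x a : Ve D, inner ℝ (B x a) a = inner ℝ β x * ‖a‖ ^ 2 := by
      intro x a
      rcases eq_or_ne a 0 with ha | ha
      · subst ha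
        simp
      · have hn : ‖a‖ ≠ 0 := norm_ne_zero_iff.2 ha
        have h1 := (hB x).diag (‖a‖⁻¹ • a) a0 (by
          rw [norm_smul, norm_inv, norm_norm, inv_mul_cancel₀ hn]) ha0
        rw [map_smul, real_inner_smul_left, real_inner_smul_right, ← hβ] at h1
        have h2 : inner ℝ (B x a) a = ‖a‖ ^ 2 * (‖a‖⁻¹ * (‖a‖⁻¹ * inner ℝ (B x a) a)) := by
          field_simp
        rw [h2, h1, mul_comm]
    have hpol : ∀ x a b : Ve D, inner ℝ (B x a) b + inner ℝ (B x b) a =
        2 * inner ℝ β x * inner ℝ a b := fun x a b => v11_polar (B x) _ (hdiag x) a b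
    refine ⟨β, fun x e => ?_⟩
    refine ext_inner_right ℝ fun z => ?_
    rw [inner_sub_left, inner_add_left, real_inner_smul_left, real_inner_smul_left,
      real_inner_smul_left]
    have p1 := hpol x e z
    have p2 := hpol e x z
    have p3 := hpol z x e
    rw [hsymm e x] at p2
    rw [hsymm z x, hsymm z e] at p3
    linarith

private theorem v11_equiv {A : Ve D →L[ℝ] Ve D} (h : Conf A) (hA : A ≠ 0) :
    ∃ e : Ve D ≃L[ℝ] Ve D, (e : Ve D →L[ℝ] Ve D) = A := by
  have hn : 0 < ‖A‖ := norm_pos_iff.2 hA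
  have hinj : Function.Injective (A : Ve D →ₗ[ℝ] Ve D) := by
    rw [← LinearMap.ker_eq_bot, LinearMap.ker_eq_bot']
    intro v hv
    have h1 := h v
    have h2 : A v = 0 := hv
    rw [h2, norm_zero] at h1
    have h3 : ‖v‖ = 0 := by
      rcases mul_eq_zero.1 h1.symm with h4 | h4
      · exact absurd h4 hn.ne'
      · exact h4
    exact norm_eq_zero.1 h3
  refine ⟨(LinearEquiv.ofInjectiveEndo (A : Ve D →ₗ[ℝ] Ve D) hinj).toContinuousLinearEquiv, ?_⟩
  ext v
  rfl

/-- V11: the linear term of the inverse derivative of a conformal map with `h'(0) = id`. -/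
theorem lin_term (hD : 3 ≤ D) {r : ℝ} (hr : 0 < r) {h : Ve D → Ve D} (H : CM r h)
    (hid : fderiv ℝ h 0 = ContinuousLinearMap.id ℝ (Ve D)) (hp : ∀ e, IsPoly r (Wv h e)) :
    ∃ β : Ve D, ∀ e, ∃ c : Ve D, ∀ x ∈ ball (0 : Ve D) r,
      Wv h e x = e + (inner ℝ β x • e + inner ℝ β e • x - inner ℝ x e • β) + qv c x := by
  have h0 : (0 : Ve D) ∈ ball (0 : Ve D) r := mem_ball_self hr
  have hnhds : ball (0 : Ve D) r ∈ 𝓝 (0 : Ve D) := ball_mem_nhds _ hr
  choose k B c hInf hk using hp
  -- the constant term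
  have hinv0 : (fderiv ℝ h 0).inverse = ContinuousLinearMap.id ℝ (Ve D) := by
    rw [hid]
    exact ContinuousLinearMap.inverse_id
  have hk0 : ∀ e, k e = e := by
    intro e
    have h1 := hk e 0 h0
    unfold Wv qv at h1
    rw [hinv0] at h1
    simpa using h1.symm
  -- derivative of each `Wv h e` at `0`
  have hqv : ∀ c' : Ve D, HasFDerivAt (qv c') (0 : Ve D →L[ℝ] Ve D) 0 := by
    intro c'
    have h1 : HasFDerivAt (fun x : Ve D => (2 * inner ℝ c' x) • x)
        (0 : Ve D →L[ℝ] Ve D) 0 := by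
      have h2 : HasFDerivAt (fun x : Ve D => 2 * inner ℝ c' x)
          ((2 : ℝ) • (innerSL ℝ c')) 0 := by
        exact ((innerSL ℝ c').hasFDerivAt).const_mul 2
      have h3 := h2.smul (hasFDerivAt_id (𝕜 := ℝ) (0 : Ve D))
      refine h3.congr_fderiv ?_
      ext v
      simp
    have h4 : HasFDerivAt (fun x : Ve D => ‖x‖ ^ 2 • c') (0 : Ve D →L[ℝ] Ve D) 0 := by
      have h5 : HasFDerivAt (fun x : Ve D => ‖x‖ ^ 2) ((2 : ℕ) • (innerSL ℝ (0 : Ve D))) 0 :=
        (hasStrictFDerivAt_norm_sq (0 : Ve D)).hasFDerivAt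
      have h6 := h5.smul_const c'
      refine h6.congr_fderiv ?_
      ext v
      simp
    have h7 := h1.sub h4
    rw [sub_zero] at h7
    exact h7
  have hW : ∀ e, HasFDerivAt (Wv h e) (B e) 0 := by
    intro e
    have h1 : HasFDerivAt (fun x => k e + B e x + qv (c e) x) (B e) 0 := by
      have h2 := (((B e).hasFDerivAt (x := (0 : Ve D))).const_add (k e)).add (hqv (c e))
      rw [add_zero] at h2
      exact h2
    refine h1.congr_of_eventuallyEq ?_
    filter_upwards [hnhds] with x hx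
    exact hk e x hx
  -- the inverse derivative as a map into the linear maps
  set M : Ve D → (Ve D →L[ℝ] Ve D) := fun x => (fderiv ℝ h x).inverse with hM
  have hMc : ContDiffOn ℝ 1 M (ball 0 r) := by
    rw [contDiffOn_clm_apply]
    intro e
    have h1 : ContDiff ℝ 1 (fun x => k e + B e x + qv (c e) x) := by
      unfold qv
      have h2 : ContDiff ℝ 1 (fun x : Ve D => inner ℝ (c e) x) := (innerSL ℝ (c e)).contDiff
      have h3 : ContDiff ℝ 1 (fun x : Ve D => ‖x‖ ^ 2) := contDiff_norm_sq ℝ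
      exact (contDiff_const.add (B e).contDiff).add
        (((contDiff_const.mul h2).smul contDiff_id).sub (h3.smul contDiff_const))
    exact h1.contDiffOn.congr fun x hx => hk e x hx
  have hMd : ContDiffAt ℝ 1 M 0 := hMc.contDiffAt hnhds
  have hM0 : M 0 = ContinuousLinearMap.id ℝ (Ve D) := hinv0
  -- the derivative is differentiable at `0`
  have hA : DifferentiableAt ℝ (fderiv ℝ h) 0 := by
    have h1 : fderiv ℝ h =ᶠ[𝓝 0] fun x => ContinuousLinearMap.inverse (M x) := by
      filter_upwards [hnhds] with x hx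
      obtain ⟨e, he⟩ := v11_equiv (H.conf x hx) (H.ne x hx)
      simp only [hM]
      rw [← he, ContinuousLinearMap.inverse_equiv, ContinuousLinearMap.inverse_equiv]
      rfl
    have h2 : ContDiffAt ℝ 1 (fun x => ContinuousLinearMap.inverse (M x)) 0 := by
      have h3 : ContDiffAt ℝ 1 (ContinuousLinearMap.inverse :
          (Ve D →L[ℝ] Ve D) → (Ve D →L[ℝ] Ve D)) (M 0) := by
        rw [hM0]
        exact contDiffAt_map_inverse (ContinuousLinearEquiv.refl ℝ (Ve D))
      exact h3.comp 0 hMd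
    exact (h2.congr_of_eventuallyEq h1).differentiableAt (by norm_num)
  have hA' := hA.hasFDerivAt
  set A' : Ve D →L[ℝ] Ve D →L[ℝ] Ve D := fderiv ℝ (fderiv ℝ h) 0 with hA'def
  -- differentiate `h'(x) (h'(x)⁻¹ e) = e`
  have hrel : ∀ e v, B e v + A' v e = 0 := by
    intro e v
    have h1 := hA'.clm_apply (hW e)
    have h2 : HasFDerivAt (fun x => (fderiv ℝ h x) (Wv h e x)) (0 : Ve D →L[ℝ] Ve D) 0 := by
      refine (hasFDerivAt_const e (0 : Ve D)).congr_of_eventuallyEq ?_
      filter_upwards [hnhds] with x hx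
      obtain ⟨e', he'⟩ := v11_equiv (H.conf x hx) (H.ne x hx)
      unfold Wv
      rw [← he', ContinuousLinearMap.inverse_equiv]
      simp
    have h3 := h1.unique h2
    have h4 := congrArg (fun L : Ve D →L[ℝ] Ve D => L v) h3
    have h5 : Wv h e 0 = e := by
      unfold Wv
      rw [hinv0]
      rfl
    simpa [hid, h5] using h4
  -- symmetry of the second derivative
  have hsymm : ∀ v w, A' v w = A' w v := by
    intro v w
    refine second_derivative_symmetric_of_eventually (𝕜 := ℝ) (f := h) ?_ hA' v w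
    filter_upwards [hnhds] with x hx
    exact ((H.c1.contDiffAt (isOpen_ball.mem_nhds hx)).differentiableAt (by norm_num)).hasFDerivAt
  have hBA : ∀ e v, B e v = (-A') e v := by
    intro e v
    have h1 := hrel e v
    rw [hsymm] at h1
    rw [ContinuousLinearMap.neg_apply, ContinuousLinearMap.neg_apply]
    exact eq_neg_of_add_eq_zero_left h1
  have hBA' : ∀ e, (-A') e = B e := by
    intro e
    ext1 v
    exact (hBA e v).symm
  obtain ⟨β, hβ⟩ := prolong (-A') (by
    intro x y
    rw [ContinuousLinearMap.neg_apply, ContinuousLinearMap.neg_apply, ContinuousLinearMap.neg_apply,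
      ContinuousLinearMap.neg_apply, hsymm]) (fun x => by rw [hBA']; exact hInf x)
  refine ⟨β, fun e => ⟨c e, fun x hx => ?_⟩⟩
  rw [hk e x hx, hk0 e, hBA e x, hβ e x, real_inner_comm x e]
  abel

end Pool.Agent.H779R2.Li
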