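import Pool.Agent.H779R2.Li.VDef
import Pool.Agent.H779R2.Li.V2

set_option autoImplicit false

namespace Pool.Agent.H779R2.Li

open Filter Topology MeasureTheory Metric
open scoped BigOperators

variable {D : ℕ}

theorem V12_exists_perp (hD : 3 ≤ D) (e a : Ve D) :
    ∃ v : Ve D, ‖v‖ = 1 ∧ inner ℝ e v = 0 ∧ inner ℝ a v = 0 := by
  classical
  obtain ⟨K, hK⟩ : ∃ K : Submodule ℝ (Ve D), K = Submodule.span ℝ (({e, a} : Finset (Ve D)) :
    Set (Ve D)) := ⟨_, rfl⟩
  have h1 : Module.finrank ℝ K ≤ 2 := by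
    rw [hK]
    exact (finrank_span_finset_le_card _).trans Finset.card_le_two
  have h2 : Kᗮ ≠ ⊥ := by
    intro h
    have h3 := Submodule.finrank_add_finrank_orthogonal K
    rw [h, finrank_bot, finrank_euclideanSpace_fin] at h3
    omega
  obtain ⟨v, hv, hv0⟩ := Submodule.exists_mem_ne_zero_of_ne_bot h2
  have hn : ‖v‖ ≠ 0 := norm_ne_zero_iff.2 hv0
  have he : e ∈ K := by rw [hK]; exact Submodule.subset_span (by simp)
  have ha : a ∈ K := by rw [hK]; exact Submodule.subset_span (by simp)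
  have h4 := (Submodule.mem_orthogonal K v).1 hv
  refine ⟨‖v‖⁻¹ • v, ?_, ?_, ?_⟩
  · rw [norm_smul, norm_inv, norm_norm, inv_mul_cancel₀ hn]
  · rw [inner_smul_right, h4 e he, mul_zero]
  · rw [inner_smul_right, h4 a ha, mul_zero]

theorem V12_inner_qv (e c x : Ve D) :
    inner ℝ e (qv c x) = 2 * inner ℝ c x * inner ℝ e x - ‖x‖ ^ 2 * inner ℝ e c := by
  unfold qv
  rw [inner_sub_right, inner_smul_right, inner_smul_right]

theorem V12_norm_qv (c x : Ve D) : ‖qv c x‖ ^ 2 = ‖x‖ ^ 4 * ‖c‖ ^ 2 := by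
  have h : ‖qv c x‖ ^ 2 = inner ℝ (qv c x) (qv c x) := (real_inner_self_eq_norm_sq _).symm
  rw [h, V12_inner_qv]
  unfold qv
  rw [inner_sub_left, inner_sub_left, inner_smul_left, inner_smul_left, inner_smul_left,
    inner_smul_left, real_inner_self_eq_norm_sq, real_inner_self_eq_norm_sq,
    real_inner_comm c x]
  simp only [conj_trivial]
  ring

/-- V12: no linear term and no constant term: the map is the identity. -/
theorem id_of_norm (hD : 3 ≤ D) {r : ℝ} (hr : 0 < r) {k : Ve D → Ve D} (H : CM r k)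
    (h0 : k 0 = 0) (hW : ∀ e, ∃ c : Ve D, ∀ x ∈ ball (0 : Ve D) r, Wv k e x = e + qv c x) :
    ∀ x ∈ ball (0 : Ve D) r, k x = x := by
  choose C hC using hW
  have hμ : ∀ x ∈ ball (0 : Ve D) r, ∀ e, ‖Wv k e x‖ = ‖fderiv ℝ k x‖⁻¹ * ‖e‖ :=
    fun x hx e => ((H.conf x hx).inverse_apply (H.ne x hx) e).2.2
  -- the quadratic form
  obtain ⟨P, hP⟩ : ∃ P : Ve D → Ve D → ℝ, ∀ e x, P e x =
    2 * inner ℝ (C e) x * inner ℝ e x - ‖x‖ ^ 2 * inner ℝ e (C e) := ⟨_, fun _ _ => rfl⟩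
  have hPs : ∀ (t : ℝ) (e x : Ve D), P e (t • x) = t ^ 2 * P e x := by
    intro t e x
    rw [hP, hP, inner_smul_right, inner_smul_right, norm_smul, mul_pow, Real.norm_eq_abs, sq_abs]
    ring
  have hball : ∀ e f : Ve D, ‖e‖ = 1 → ‖f‖ = 1 → ∀ x ∈ ball (0 : Ve D) r,
      2 * P e x + ‖x‖ ^ 4 * ‖C e‖ ^ 2 = 2 * P f x + ‖x‖ ^ 4 * ‖C f‖ ^ 2 := by
    intro e f he hf x hx
    have h1 : ‖e + qv (C e) x‖ ^ 2 = ‖f + qv (C f) x‖ ^ 2 := by
      rw [← hC e x hx, ← hC f x hx, hμ x hx, hμ x hx, he, hf]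
    rw [norm_add_sq_real, norm_add_sq_real, V12_norm_qv, V12_norm_qv, V12_inner_qv, V12_inner_qv,
      he, hf] at h1
    rw [hP, hP]
    linarith
  have hPe : ∀ e f : Ve D, ‖e‖ = 1 → ‖f‖ = 1 → ∀ x : Ve D, P e x = P f x := by
    intro e f he hf x
    obtain ⟨t, ht⟩ : ∃ t : ℝ, t = r / (2 * (‖x‖ + 1)) := ⟨_, rfl⟩
    have hx1 : 0 < ‖x‖ + 1 := by positivity
    have ht0 : 0 < t := by rw [ht]; positivity
    have hb : ∀ s : ℝ, 0 < s → s ≤ t → s • x ∈ ball (0 : Ve D) r := by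
      intro s hs hst
      rw [mem_ball_zero_iff, norm_smul, Real.norm_eq_abs, abs_of_pos hs]
      calc s * ‖x‖ ≤ t * (‖x‖ + 1) := by
            apply mul_le_mul hst (by linarith) (norm_nonneg _) ht0.le
        _ = r / 2 := by rw [ht]; field_simp
        _ < r := by linarith
    have h1 := hball e f he hf _ (hb t ht0 le_rfl)
    have h2 := hball e f he hf _ (hb (t / 2) (by positivity) (by linarith))
    rw [hPs, hPs, norm_smul, Real.norm_eq_abs, abs_of_pos ht0] at h1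
    rw [hPs, hPs, norm_smul, Real.norm_eq_abs, abs_of_pos (by positivity : 0 < t / 2)] at h2
    have h3 : t ^ 2 * (P e x - P f x) = 0 := by
      ring_nf at h1 h2 ⊢
      linarith
    have h4 : P e x - P f x = 0 := (mul_eq_zero.1 h3).resolve_left (by positivity)
    linarith
  have hφ1 : ∀ e x : Ve D, ‖e‖ = 1 → ‖x‖ = 1 → inner ℝ e x = 0 →
      inner ℝ x (C x) = - (inner ℝ e (C e) : ℝ) := by
    intro e x he hx hex
    have h1 := hPe x e hx he x
    rw [hP, hP, hex, real_inner_self_eq_norm_sq, hx, real_inner_comm x (C x)] at h1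
    linarith
  have hφ : ∀ e : Ve D, ‖e‖ = 1 → (inner ℝ e (C e) : ℝ) = 0 := by
    intro e he
    obtain ⟨a, ha, hea, -⟩ := V12_exists_perp hD e e
    obtain ⟨b, hb, heb, hab⟩ := V12_exists_perp hD e a
    have h1 := hφ1 e a he ha hea
    have h2 := hφ1 e b he hb heb
    have h3 := hφ1 a b ha hb hab
    linarith
  have hP0 : ∀ e x : Ve D, ‖e‖ = 1 → P e x = 0 := by
    intro e x he
    by_cases hx : x = 0
    · rw [hP, hx]
      simp
    · have hn : ‖x‖ ≠ 0 := norm_ne_zero_iff.2 hx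
      have hu : ‖‖x‖⁻¹ • x‖ = 1 := by
        rw [norm_smul, norm_inv, norm_norm, inv_mul_cancel₀ hn]
      have h1 := hPe e (‖x‖⁻¹ • x) he hu (‖x‖⁻¹ • x)
      have h2 : P (‖x‖⁻¹ • x) (‖x‖⁻¹ • x) = 0 := by
        have h3 := hφ _ hu
        rw [hP, real_inner_self_eq_norm_sq, hu, real_inner_comm (‖x‖⁻¹ • x), h3]
        ring
      rw [h2, hPs] at h1
      exact (mul_eq_zero.1 h1).resolve_left (pow_ne_zero _ (inv_ne_zero hn))
  have hC0 : ∀ e : Ve D, ‖e‖ = 1 → C e = 0 := by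
    intro e he
    have h1 := hP0 e (e + C e) he
    have h2 := hφ e he
    rw [hP, h2, inner_add_right, inner_add_right, real_inner_self_eq_norm_sq,
      real_inner_self_eq_norm_sq, real_inner_comm e (C e), h2, he] at h1
    have h3 : ‖C e‖ ^ 2 = 0 := by linarith
    exact norm_eq_zero.1 (pow_eq_zero_iff (two_ne_zero) |>.1 h3)
  have hfd : ∀ x ∈ ball (0 : Ve D) r, fderiv ℝ k x = ContinuousLinearMap.id ℝ (Ve D) := by
    intro x hx
    ext1 v
    have h1 : Wv k v x = v := by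
      by_cases hv : v = 0
      · subst hv
        unfold Wv
        rw [map_zero]
      · have hn : ‖v‖ ≠ 0 := norm_ne_zero_iff.2 hv
        have hu : ‖‖v‖⁻¹ • v‖ = 1 := by
          rw [norm_smul, norm_inv, norm_norm, inv_mul_cancel₀ hn]
        have h3 := hC (‖v‖⁻¹ • v) x hx
        rw [hC0 _ hu] at h3
        have h4 : qv (0 : Ve D) x = 0 := by unfold qv; simp
        rw [h4, add_zero] at h3
        unfold Wv at h3 ⊢
        rw [map_smul] at h3
        exact smul_right_injective _ (inv_ne_zero hn) h3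
    have h5 := ((H.conf x hx).inverse_apply (H.ne x hx) v).1
    unfold Wv at h1
    rw [h1] at h5
    rw [h5]
    rfl
  intro x hx
  have hz : (0 : Ve D) ∈ ball (0 : Ve D) r := mem_ball_self hr
  have hd : ∀ y ∈ ball (0 : Ve D) r, HasFDerivWithinAt (fun y => k y - y)
      (0 : Ve D →L[ℝ] Ve D) (ball (0 : Ve D) r) y := by
    intro y hy
    have h1 : DifferentiableAt ℝ k y :=
      (H.c1.differentiableOn one_ne_zero).differentiableAt (isOpen_ball.mem_nhds hy)
    have h2 := h1.hasFDerivAt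
    rw [hfd y hy] at h2
    have h3 := h2.sub (hasFDerivAt_id y)
    rw [sub_self] at h3
    exact h3.hasFDerivWithinAt
  have h5 := (convex_ball (0 : Ve D) r).norm_image_sub_le_of_norm_hasFDerivWithin_le
    (C := 0) hd (fun y _ => by simp) hz hx
  rw [zero_mul] at h5
  have h6 := norm_le_zero_iff.1 h5
  simp only [h0, sub_zero] at h6
  exact sub_eq_zero.1 h6

end Pool.Agent.H779R2.Li
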