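import Pool.Agent.H779R2.Li.VDef
import Pool.Agent.H779R2.Li.V2

set_option autoImplicit false

namespace Pool.Agent.H779R2.Li

open Filter Topology MeasureTheory Metric
open scoped BigOperators

variable {D : ℕ}

/-- V13: norm of the denominator and of Moebius maps. -/
theorem den_eq (b u : Ve D) (hb : b ≠ 0) : den b u = ‖b‖ ^ 2 * ‖u - (‖b‖ ^ 2)⁻¹ • b‖ ^ 2 := by
  have hb' : ‖b‖ ≠ 0 := norm_ne_zero_iff.mpr hb
  rw [norm_sub_sq_real, inner_smul_right, norm_smul, den, real_inner_comm, norm_inv, norm_pow,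
    norm_norm]
  field_simp
  ring

/-- V13 -/
theorem den_nonneg (b u : Ve D) : 0 ≤ den b u := by
  have h1 : inner ℝ b u ≤ ‖b‖ * ‖u‖ := real_inner_le_norm b u
  unfold den
  nlinarith [sq_nonneg (1 - ‖b‖ * ‖u‖)]

/-- V13 -/
theorem norm_sub_sq_smul (b u : Ve D) : ‖u - ‖u‖ ^ 2 • b‖ ^ 2 = ‖u‖ ^ 2 * den b u := by
  rw [norm_sub_sq_real, inner_smul_right, norm_smul, den, real_inner_comm, norm_pow,
    norm_norm]
  ring

/-- V13 -/
theorem mobD_norm {A : Ve D →L[ℝ] Ve D} (hA : Conf A) (b u : Ve D) (h : den b u ≠ 0) :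
    ‖mobD A b u‖ = ‖A‖ * ‖u‖ / Real.sqrt (den b u) := by
  have hpos : 0 < den b u := lt_of_le_of_ne (den_nonneg b u) h.symm
  have h1 : ‖u - ‖u‖ ^ 2 • b‖ = ‖u‖ * Real.sqrt (den b u) := by
    rw [← Real.sqrt_sq (norm_nonneg (u - ‖u‖ ^ 2 • b)), norm_sub_sq_smul,
      Real.sqrt_mul (sq_nonneg _), Real.sqrt_sq (norm_nonneg _)]
  have h2 : Real.sqrt (den b u) ≠ 0 := (Real.sqrt_pos.mpr hpos).ne'
  rw [mobD, norm_smul, hA, h1, norm_inv, Real.norm_of_nonneg hpos.le]
  nth_rewrite 1 [← Real.mul_self_sqrt hpos.le]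
  field_simp

/-- auxiliary: squared distance. -/
theorem mobD_dist_aux (b u u' : Ve D) (h : den b u ≠ 0)
    (h' : den b u' ≠ 0) : ‖(den b u)⁻¹ • (u - ‖u‖ ^ 2 • b) - (den b u')⁻¹ • (u' - ‖u'‖ ^ 2 • b)‖ =
      ‖u - u'‖ / (Real.sqrt (den b u) * Real.sqrt (den b u')) := by
  have hpos : 0 < den b u := lt_of_le_of_ne (den_nonneg b u) h.symm
  have hpos' : 0 < den b u' := lt_of_le_of_ne (den_nonneg b u') h'.symm
  have hs : ‖(den b u)⁻¹ • (u - ‖u‖ ^ 2 • b) - (den b u')⁻¹ • (u' - ‖u'‖ ^ 2 • b)‖ ^ 2 =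
      ‖u - u'‖ ^ 2 * ((den b u)⁻¹ * (den b u')⁻¹) := by
    rw [norm_sub_sq_real, norm_smul, norm_smul, mul_pow, mul_pow, norm_sub_sq_smul,
      norm_sub_sq_smul, real_inner_smul_left, real_inner_smul_right, inner_sub_left,
      inner_sub_right, inner_sub_right, real_inner_smul_left, real_inner_smul_right,
      real_inner_smul_left, real_inner_smul_right, norm_sub_sq_real, real_inner_self_eq_norm_sq,
      Real.norm_of_nonneg (inv_nonneg.mpr hpos.le), Real.norm_of_nonneg (inv_nonneg.mpr hpos'.le),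
      real_inner_comm b u]
    field_simp
    unfold den
    ring
  rw [← Real.sqrt_sq (norm_nonneg _), hs, Real.sqrt_mul (sq_nonneg _), Real.sqrt_sq (norm_nonneg _),
    Real.sqrt_mul (inv_nonneg.mpr hpos.le), Real.sqrt_inv, Real.sqrt_inv, ← mul_inv,
    div_eq_mul_inv]

/-- V13: distances. -/
theorem mobD_dist {A : Ve D →L[ℝ] Ve D} (hA : Conf A) (b u u' : Ve D) (h : den b u ≠ 0)
    (h' : den b u' ≠ 0) : ‖mobD A b u - mobD A b u'‖ =
      ‖A‖ * ‖u - u'‖ / (Real.sqrt (den b u) * Real.sqrt (den b u')) := by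
  rw [mobD, mobD, ← map_smul, ← map_smul, ← map_sub, hA, mobD_dist_aux b u u' h h', mul_div_assoc]

/-- V13: multiplicativity of the denominator. -/
theorem den_mobD {A : Ve D →L[ℝ] Ve D} (hA : Conf A) (b b' u : Ve D) (h : den b u ≠ 0) :
    den (b + ContinuousLinearMap.adjoint A b') u = den b u * den b' (mobD A b u) := by
  have e1 : inner ℝ b' (mobD A b u) =
      (den b u)⁻¹ * (inner ℝ (ContinuousLinearMap.adjoint A b') u
        - ‖u‖ ^ 2 * inner ℝ (ContinuousLinearMap.adjoint A b') b) := by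
    rw [mobD, real_inner_smul_right, ← ContinuousLinearMap.adjoint_inner_left, inner_sub_right,
      real_inner_smul_right]
  have e2 : ‖mobD A b u‖ ^ 2 = ‖A‖ ^ 2 * ‖u‖ ^ 2 * (den b u)⁻¹ := by
    rw [mobD, norm_smul, hA, mul_pow, mul_pow, norm_sub_sq_smul, norm_inv, inv_pow,
      Real.norm_eq_abs, sq_abs]
    field_simp
  have e3 : ‖b + ContinuousLinearMap.adjoint A b'‖ ^ 2 = ‖b‖ ^ 2
      + 2 * inner ℝ (ContinuousLinearMap.adjoint A b') b + ‖A‖ ^ 2 * ‖b'‖ ^ 2 := by
    rw [norm_add_sq_real, hA.norm_adjoint_apply, mul_pow, real_inner_comm]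
  have e4 : den b u * den b' (mobD A b u) = den b u
      - 2 * (inner ℝ (ContinuousLinearMap.adjoint A b') u
        - ‖u‖ ^ 2 * inner ℝ (ContinuousLinearMap.adjoint A b') b)
      + ‖b'‖ ^ 2 * (‖A‖ ^ 2 * ‖u‖ ^ 2) := by
    rw [den.eq_def b' (mobD A b u), e1, e2]
    field_simp
  rw [e4, den, e3, inner_add_left, den]
  ring

/-- auxiliary -/
theorem Conf.apply_adjoint {A : Ve D →L[ℝ] Ve D} (h : Conf A) (v : Ve D) :
    A ((ContinuousLinearMap.adjoint A) v) = ‖A‖ ^ 2 • v := by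
  by_cases hA : A = 0
  · subst hA; simp
  · obtain ⟨h1, -, -⟩ := h.inverse_apply hA v
    nth_rewrite 1 [← h1]
    rw [h.adjoint_apply, map_smul, h1]

/-- V13: composition. -/
theorem mobD_comp {A A' : Ve D →L[ℝ] Ve D} (hA : Conf A) (b b' u : Ve D)
    (h : den b u ≠ 0) : mobD A' b' (mobD A b u) =
      mobD (A' ∘L A) (b + ContinuousLinearMap.adjoint A b') u := by
  have e2 : ‖mobD A b u‖ ^ 2 = ‖A‖ ^ 2 * ‖u‖ ^ 2 * (den b u)⁻¹ := by
    rw [mobD, norm_smul, hA, mul_pow, mul_pow, norm_sub_sq_smul, norm_inv, inv_pow,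
      Real.norm_eq_abs, sq_abs]
    field_simp
  have key : mobD A b u - ‖mobD A b u‖ ^ 2 • b' = (den b u)⁻¹ •
      A (u - ‖u‖ ^ 2 • (b + ContinuousLinearMap.adjoint A b')) := by
    rw [e2, smul_add, ← sub_sub, map_sub, map_smul, hA.apply_adjoint, smul_sub, ← mobD.eq_def,
      smul_smul, smul_smul]
    congr 2
    ring
  rw [mobD.eq_def A', mobD.eq_def (A' ∘L A), den_mobD hA b b' u h, key, map_smul, smul_smul,
    ContinuousLinearMap.comp_apply, mul_inv, mul_comm]

/-- the denominator is smooth -/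
theorem den_contDiff (b : Ve D) {n : WithTop ℕ∞} : ContDiff ℝ n (den b) := by
  unfold den
  exact ((contDiff_const.sub (contDiff_const.mul (contDiff_const.inner ℝ contDiff_id))).add
    (contDiff_const.mul (contDiff_norm_sq ℝ)))

/-- Moebius maps are smooth -/
theorem mobD_contDiffAt (A : Ve D →L[ℝ] Ve D) (b u : Ve D) (h : den b u ≠ 0)
    {n : WithTop ℕ∞} : ContDiffAt ℝ n (mobD A b) u := by
  unfold mobD
  refine ((den_contDiff b).contDiffAt.inv h).smul ?_
  refine A.contDiff.contDiffAt.comp u ?_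
  exact contDiffAt_id.sub ((contDiff_norm_sq ℝ).contDiffAt.smul contDiffAt_const)

/-- V13: the derivative of a Moebius map is conformal of norm `‖A‖ / den`. -/
theorem mobD_fderiv {A : Ve D →L[ℝ] Ve D} (hA : Conf A) (b u : Ve D) (h : den b u ≠ 0) :
    ∃ L : Ve D →L[ℝ] Ve D, HasFDerivAt (mobD A b) L u ∧ Conf L ∧ ‖L‖ = ‖A‖ / den b u := by
  have hd : DifferentiableAt ℝ (mobD A b) u :=
    (mobD_contDiffAt A b u h (n := 1)).differentiableAt (by norm_num)
  refine ⟨fderiv ℝ (mobD A b) u, hd.hasFDerivAt, ?_⟩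
  have hpos : 0 < den b u := lt_of_le_of_ne (den_nonneg b u) h.symm
  have key : ∀ w, ‖fderiv ℝ (mobD A b) u w‖ = (‖A‖ / den b u) * ‖w‖ := by
    intro w
    have h1 := (hd.hasFDerivAt.hasLineDerivAt w)
    have h2 : HasDerivAt (fun t : ℝ => mobD A b (u + t • w)) (fderiv ℝ (mobD A b) u w) 0 := h1
    rw [hasDerivAt_iff_tendsto_slope] at h2
    have h3 := h2.norm
    have hc : Continuous (fun t : ℝ => den b (u + t • w)) :=
      (den_contDiff b (n := 0)).continuous.comp (by fun_prop)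
    have hlim : Tendsto (fun t : ℝ => ‖A‖ * ‖w‖ / (Real.sqrt (den b (u + t • w))
        * Real.sqrt (den b u))) (𝓝[≠] 0)
        (𝓝 (‖A‖ * ‖w‖ / (Real.sqrt (den b u) * Real.sqrt (den b u)))) := by
      have : ContinuousAt (fun t : ℝ => ‖A‖ * ‖w‖ / (Real.sqrt (den b (u + t • w))
        * Real.sqrt (den b u))) 0 := by
        refine ContinuousAt.div continuousAt_const ?_ ?_
        · exact ((Real.continuous_sqrt.comp hc).mul continuous_const).continuousAt
        · simp only [zero_smul, add_zero]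
          exact mul_ne_zero (Real.sqrt_pos.mpr hpos).ne' (Real.sqrt_pos.mpr hpos).ne'
      have h4 := this.tendsto
      simp only [zero_smul, add_zero] at h4
      exact h4.mono_left nhdsWithin_le_nhds
    have hev : (fun t : ℝ => ‖slope (fun t : ℝ => mobD A b (u + t • w)) 0 t‖) =ᶠ[𝓝[≠] 0]
        (fun t : ℝ => ‖A‖ * ‖w‖ / (Real.sqrt (den b (u + t • w)) * Real.sqrt (den b u))) := by
      have h5 : ∀ᶠ t in 𝓝 (0 : ℝ), den b (u + t • w) ≠ 0 := by
        refine hc.continuousAt.eventually_ne ?_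
        simpa using h
      filter_upwards [h5.filter_mono nhdsWithin_le_nhds, self_mem_nhdsWithin] with t ht ht0
      have ht0' : t ≠ 0 := ht0
      rw [slope_def_module, norm_smul, sub_zero]
      simp only [zero_smul, add_zero]
      rw [mobD_dist hA b _ _ ht h, add_sub_cancel_left, norm_smul, norm_inv]
      have : ‖t‖ ≠ 0 := norm_ne_zero_iff.mpr ht0'
      field_simp
    have h6 := tendsto_nhds_unique h3 (hlim.congr' hev.symm)
    rw [h6, Real.mul_self_sqrt hpos.le]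
    ring
  have hn : ‖fderiv ℝ (mobD A b) u‖ = ‖A‖ / den b u := by
    by_cases hD : Nontrivial (Ve D)
    · exact ContinuousLinearMap.homothety_norm _ key
    · rw [not_nontrivial_iff_subsingleton] at hD
      have e1 : fderiv ℝ (mobD A b) u = 0 := by
        ext x : 1
        exact Subsingleton.elim _ _
      have e2 : A = 0 := by
        ext x : 1
        exact Subsingleton.elim _ _
      rw [e1, e2]; simp
  exact ⟨fun v => by rw [key, hn], hn⟩

/-- V13: Moebius maps are analytic. -/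
theorem mobD_analytic (A : Ve D →L[ℝ] Ve D) (b u : Ve D) (h : den b u ≠ 0) :
    AnalyticAt ℝ (mobD A b) u := by
  have := mobD_contDiffAt A b u h (n := ⊤)
  rw [← contDiffWithinAt_univ] at this
  have h2 := contDiffWithinAt_omega_iff_analyticWithinAt.1 this
  rwa [analyticWithinAt_univ] at h2

end Pool.Agent.H779R2.Li
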