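import Pool.Agent.H779R2.Li.V10
import Pool.Agent.H779R2.Li.V11
import Pool.Agent.H779R2.Li.V12
import Pool.Agent.H779R2.Li.V13

set_option autoImplicit false

namespace Pool.Agent.H779R2.Li

open Filter Topology MeasureTheory Metric
open scoped BigOperators

variable {D : ℕ}

namespace V14

theorem nontriv (hD : 3 ≤ D) : Nontrivial (Ve D) := by
  have : Nonempty (Fin D) := ⟨⟨0, by omega⟩⟩
  infer_instance

/-- compositions of conformal maps -/
theorem conf_comp (hD : 3 ≤ D) {P Q : Ve D →L[ℝ] Ve D} (hP : Conf P) (hQ : Conf Q) :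
    Conf (P ∘L Q) ∧ ‖P ∘L Q‖ = ‖P‖ * ‖Q‖ := by
  have := nontriv hD
  have h : ∀ v, ‖(P ∘L Q) v‖ = (‖P‖ * ‖Q‖) * ‖v‖ := by
    intro v
    rw [ContinuousLinearMap.comp_apply, hP, hQ]
    ring
  have h2 : ‖P ∘L Q‖ = ‖P‖ * ‖Q‖ := ContinuousLinearMap.homothety_norm (P ∘L Q) h
  refine ⟨fun v => ?_, h2⟩
  rw [h2, h v]

theorem conf_id (hD : 3 ≤ D) : Conf (ContinuousLinearMap.id ℝ (Ve D)) ∧
    ‖ContinuousLinearMap.id ℝ (Ve D)‖ = 1 := by
  have := nontriv hD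
  have h2 : ‖ContinuousLinearMap.id ℝ (Ve D)‖ = 1 := ContinuousLinearMap.norm_id
  refine ⟨fun v => ?_, h2⟩
  rw [h2, one_mul]
  rfl

theorem conf_inverse (hD : 3 ≤ D) {A : Ve D →L[ℝ] Ve D} (hA : Conf A) (h0 : A ≠ 0) :
    Conf A.inverse ∧ A.inverse ≠ 0 := by
  have := nontriv hD
  have h : ∀ v, ‖A.inverse v‖ = ‖A‖⁻¹ * ‖v‖ := fun v => (hA.inverse_apply h0 v).2.2
  have h2 : ‖A.inverse‖ = ‖A‖⁻¹ := ContinuousLinearMap.homothety_norm A.inverse h
  refine ⟨fun v => by rw [h2, h v], fun hc => ?_⟩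
  rw [hc, norm_zero] at h2
  exact h0 (norm_eq_zero.1 (inv_eq_zero.1 h2.symm))

theorem comp_ne (hD : 3 ≤ D) {P Q : Ve D →L[ℝ] Ve D} (hP : Conf P) (hQ : Conf Q) (hP0 : P ≠ 0)
    (hQ0 : Q ≠ 0) : P ∘L Q ≠ 0 := by
  intro h
  have h2 := (conf_comp hD hP hQ).2
  rw [h, norm_zero] at h2
  rcases mul_eq_zero.1 h2.symm with h3 | h3
  · exact hP0 (norm_eq_zero.1 h3)
  · exact hQ0 (norm_eq_zero.1 h3)

theorem inverse_comp (hD : 3 ≤ D) {P Q : Ve D →L[ℝ] Ve D} (hP : Conf P) (hQ : Conf Q)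
    (hP0 : P ≠ 0) (hQ0 : Q ≠ 0) (e : Ve D) :
    (P ∘L Q).inverse e = Q.inverse (P.inverse e) := by
  have h1 := (conf_comp hD hP hQ).1.inverse_apply (comp_ne hD hP hQ hP0 hQ0) (Q.inverse (P.inverse e))
  have h2 : (P ∘L Q) (Q.inverse (P.inverse e)) = e := by
    rw [ContinuousLinearMap.comp_apply, (hQ.inverse_apply hQ0 (P.inverse e)).1,
      (hP.inverse_apply hP0 e).1]
  rw [h2] at h1
  exact h1.2.1

theorem inverse_inverse (hD : 3 ≤ D) {A : Ve D →L[ℝ] Ve D} (hA : Conf A) (h0 : A ≠ 0) (e : Ve D) :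
    A.inverse.inverse e = A e := by
  have h1 := (conf_inverse hD hA h0).1.inverse_apply (conf_inverse hD hA h0).2 (A e)
  rw [(hA.inverse_apply h0 e).2.1] at h1
  exact h1.2.1

theorem mono {r r' : ℝ} (h' : r' ≤ r) {h : Ve D → Ve D} (H : CM r h) : CM r' h :=
  ⟨H.c1.mono (ball_subset_ball h'), fun x hx => H.conf x (ball_subset_ball h' hx),
    fun x hx => H.ne x (ball_subset_ball h' hx)⟩

theorem diff {r : ℝ} {h : Ve D → Ve D} (H : CM r h) {x : Ve D} (hx : x ∈ ball (0 : Ve D) r) :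
    HasFDerivAt h (fderiv ℝ h x) x :=
  ((H.c1.contDiffAt (isOpen_ball.mem_nhds hx)).differentiableAt (by norm_num)).hasFDerivAt

/-- normalisation of the derivative at `0` -/
theorem CM_lin (hD : 3 ≤ D) {r : ℝ} {h : Ve D → Ve D} (H : CM r h) {P : Ve D →L[ℝ] Ve D}
    (hP : Conf P) (hP0 : P ≠ 0) : CM r (fun x => P (h x)) ∧
      ∀ x ∈ ball (0 : Ve D) r, fderiv ℝ (fun x => P (h x)) x = P ∘L fderiv ℝ h x := by
  have hf : ∀ x ∈ ball (0 : Ve D) r, fderiv ℝ (fun x => P (h x)) x = P ∘L fderiv ℝ h x :=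
    fun x hx => (P.hasFDerivAt.comp x (diff H hx)).fderiv
  refine ⟨⟨P.contDiff.comp_contDiffOn H.c1, fun x hx => ?_, fun x hx => ?_⟩, hf⟩
  · rw [hf x hx]
    exact (conf_comp hD hP (H.conf x hx)).1
  · rw [hf x hx]
    exact comp_ne hD hP (H.conf x hx) hP0 (H.ne x hx)

theorem den_zero (b : Ve D) : den b (0 : Ve D) = 1 := by simp [den]

theorem den_cont (b : Ve D) : Continuous (fun u : Ve D => den b u) := by
  unfold den
  fun_prop

/-- composition with a Moebius map with derivative `id` -/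
theorem CM_mob (hD : 3 ≤ D) {r : ℝ} {h : Ve D → Ve D} (H : CM r h) (b : Ve D)
    (hden : ∀ x ∈ ball (0 : Ve D) r, den b (h x) ≠ 0) :
    CM r (fun x => mobD (ContinuousLinearMap.id ℝ (Ve D)) b (h x)) ∧
      ∀ x ∈ ball (0 : Ve D) r,
        ‖fderiv ℝ (fun x => mobD (ContinuousLinearMap.id ℝ (Ve D)) b (h x)) x‖ =
          ‖fderiv ℝ h x‖ / den b (h x) := by
  have hid := conf_id hD
  have hL : ∀ x ∈ ball (0 : Ve D) r, ∃ L : Ve D →L[ℝ] Ve D,
      fderiv ℝ (fun x => mobD (ContinuousLinearMap.id ℝ (Ve D)) b (h x)) x = L ∘L fderiv ℝ h x ∧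
        Conf L ∧ ‖L‖ = 1 / den b (h x) := by
    intro x hx
    obtain ⟨L, hL1, hL2, hL3⟩ := mobD_fderiv hid.1 b (h x) (hden x hx)
    refine ⟨L, (hL1.comp x (diff H hx)).fderiv, hL2, ?_⟩
    rw [hL3, hid.2]
  refine ⟨⟨?_, fun x hx => ?_, fun x hx => ?_⟩, fun x hx => ?_⟩
  · intro x hx
    have h1 : ContDiffAt ℝ 1 (mobD (ContinuousLinearMap.id ℝ (Ve D)) b) (h x) :=
      (mobD_analytic _ b (h x) (hden x hx)).contDiffAt
    exact (h1.comp x (H.c1.contDiffAt (isOpen_ball.mem_nhds hx))).contDiffWithinAt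
  · obtain ⟨L, hL1, hL2, hL3⟩ := hL x hx
    rw [hL1]
    exact (conf_comp hD hL2 (H.conf x hx)).1
  · obtain ⟨L, hL1, hL2, hL3⟩ := hL x hx
    rw [hL1]
    refine comp_ne hD hL2 (H.conf x hx) (fun hc => ?_) (H.ne x hx)
    rw [hc, norm_zero] at hL3
    exact hden x hx (by simpa using hL3.symm)
  · obtain ⟨L, hL1, hL2, hL3⟩ := hL x hx
    rw [hL1, (conf_comp hD hL2 (H.conf x hx)).2, hL3]
    ring

/-- the derivative of a normalised Moebius map at `0` -/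
theorem mob_deriv0 (b : Ve D) :
    HasFDerivAt (mobD (ContinuousLinearMap.id ℝ (Ve D)) b) (ContinuousLinearMap.id ℝ (Ve D)) 0 := by
  have h1 : DifferentiableAt ℝ (fun u : Ve D => (den b u)⁻¹) 0 := by
    apply DifferentiableAt.inv
    · change DifferentiableAt ℝ (fun u : Ve D => 1 - 2 * inner ℝ b u + ‖b‖ ^ 2 * ‖u‖ ^ 2) 0
      apply DifferentiableAt.add
      · apply DifferentiableAt.sub
        · exact differentiableAt_const _
        · exact (((innerSL ℝ b).differentiableAt).const_mul 2)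
      · exact ((differentiableAt_id.norm_sq ℝ).const_mul _)
    · rw [den_zero]
      exact one_ne_zero
  have h2 : HasFDerivAt (fun u : Ve D => u - ‖u‖ ^ 2 • b) (ContinuousLinearMap.id ℝ (Ve D)) 0 := by
    have h3 : HasFDerivAt (fun u : Ve D => ‖u‖ ^ 2 • b) (0 : Ve D →L[ℝ] Ve D) 0 := by
      have h4 : HasFDerivAt (fun u : Ve D => ‖u‖ ^ 2) (2 • (innerSL ℝ (0 : Ve D))) 0 :=
        (hasStrictFDerivAt_norm_sq (0 : Ve D)).hasFDerivAt
      have h5 := h4.smul_const b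
      have h6 : (2 • (innerSL ℝ (0 : Ve D))).smulRight b = (0 : Ve D →L[ℝ] Ve D) := by
        ext v
        simp
      rw [h6] at h5
      exact h5
    have h7 := (hasFDerivAt_id (𝕜 := ℝ) (0 : Ve D)).sub h3
    rw [sub_zero] at h7
    exact h7
  have h8 := h1.hasFDerivAt.smul h2
  have h9 : (fun u : Ve D => (den b u)⁻¹ • (u - ‖u‖ ^ 2 • b)) =
      mobD (ContinuousLinearMap.id ℝ (Ve D)) b := by
    funext u
    rfl
  have h10 : ((den b (0 : Ve D))⁻¹ • (ContinuousLinearMap.id ℝ (Ve D)) +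
      (fderiv ℝ (fun u : Ve D => (den b u)⁻¹) 0).smulRight ((0 : Ve D) - ‖(0 : Ve D)‖ ^ 2 • b)) =
      ContinuousLinearMap.id ℝ (Ve D) := by
    ext v
    simp [den_zero]
  rw [← h9]
  rw [← h10]
  exact h8

/-- the first derivative of the conformal factor -/
theorem factor_deriv (β c e v : Ve D) (he : ‖e‖ = 1) :
    HasDerivAt (fun t : ℝ => ‖e + (inner ℝ β (t • v) • e + inner ℝ β e • (t • v) -
      inner ℝ (t • v) e • β) + qv c (t • v)‖ ^ 2) (2 * inner ℝ β v) 0 := by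
  set w : Ve D := inner ℝ β v • e + inner ℝ β e • v - inner ℝ v e • β with hw
  set u : Ve D := qv c v with hu
  have h1 : ∀ t : ℝ, e + (inner ℝ β (t • v) • e + inner ℝ β e • (t • v) -
      inner ℝ (t • v) e • β) + qv c (t • v) = e + t • w + t ^ 2 • u := by
    intro t
    rw [hw, hu, qv, qv, inner_smul_right, inner_smul_left, norm_smul, inner_smul_right]
    simp only [RCLike.conj_to_real, smul_sub, smul_add, smul_smul, mul_pow, Real.norm_eq_abs,
      sq_abs]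
    module
  have h2 : (fun t : ℝ => ‖e + (inner ℝ β (t • v) • e + inner ℝ β e • (t • v) -
      inner ℝ (t • v) e • β) + qv c (t • v)‖ ^ 2) = fun t : ℝ => ‖e + t • w + t ^ 2 • u‖ ^ 2 := by
    funext t
    rw [h1 t]
  rw [h2]
  have h3 : HasDerivAt (fun t : ℝ => e + t • w + t ^ 2 • u) w 0 := by
    have h4 : HasDerivAt (fun t : ℝ => t • w) ((1 : ℝ) • w) 0 := (hasDerivAt_id (0 : ℝ)).smul_const w
    have h5 : HasDerivAt (fun t : ℝ => t ^ 2 • u) ((((2 : ℕ) : ℝ) * (0 : ℝ) ^ (2 - 1)) • u) 0 :=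
      (hasDerivAt_pow 2 (0 : ℝ)).smul_const u
    have h6 := (h4.const_add e).add h5
    have h7 : (1 : ℝ) • w + (((2 : ℕ) : ℝ) * (0 : ℝ) ^ (2 - 1)) • u = w := by simp
    rw [h7] at h6
    exact h6
  have h8 := h3.norm_sq
  have h9 : (2 : ℝ) * inner ℝ (e + (0 : ℝ) • w + (0 : ℝ) ^ 2 • u) w = 2 * inner ℝ β v := by
    have h10 : e + (0 : ℝ) • w + (0 : ℝ) ^ 2 • u = e := by simp
    rw [h10, hw, inner_sub_right, inner_add_right, inner_smul_right, inner_smul_right,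
      inner_smul_right, real_inner_self_eq_norm_sq, he, real_inner_comm v e, real_inner_comm e β]
    ring
  rw [← h9]
  exact h8

end V14

open V14 in
/-- V14: Liouville's theorem near `0`. -/
theorem liouville_loc (hD : 3 ≤ D) {r : ℝ} (hr : 0 < r) {h : Ve D → Ve D} (H : CM r h)
    (h0 : h 0 = 0) : ∃ b : Ve D, ∀ᶠ x in 𝓝 (0 : Ve D), h x = mobD (fderiv ℝ h 0) b x := by
  have h0r : (0 : Ve D) ∈ ball (0 : Ve D) r := mem_ball_self hr
  set A := fderiv ℝ h 0 with hAdef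
  have hA : Conf A := H.conf 0 h0r
  have hA0 : A ≠ 0 := H.ne 0 h0r
  have hAi := conf_inverse hD hA hA0
  obtain ⟨r₃, hr₃, hr₃', hp⟩ := wv_poly_all hD hr H
  -- the normalised map
  set h₁ : Ve D → Ve D := fun x => A.inverse (h x) with hh₁
  obtain ⟨H₁, hf₁⟩ := CM_lin hD (mono hr₃'.le H) hAi.1 hAi.2
  have h₁0 : h₁ 0 = 0 := by rw [hh₁]; simp [h0]
  have h0r₃ : (0 : Ve D) ∈ ball (0 : Ve D) r₃ := mem_ball_self hr₃
  have hd₁ : fderiv ℝ h₁ 0 = ContinuousLinearMap.id ℝ (Ve D) := by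
    rw [hf₁ 0 h0r₃]
    ext1 v
    exact (hA.inverse_apply hA0 v).2.1
  have hW₁ : ∀ e, ∀ x ∈ ball (0 : Ve D) r₃, Wv h₁ e x = Wv h (A e) x := by
    intro e x hx
    have hxr := ball_subset_ball hr₃'.le hx
    unfold Wv
    rw [hf₁ x hx, inverse_comp hD hAi.1 (H.conf x hxr) hAi.2 (H.ne x hxr),
      inverse_inverse hD hA hA0]
  have hp₁ : ∀ e, IsPoly r₃ (Wv h₁ e) := by
    intro e
    obtain ⟨k₀, B, c, hB, hk⟩ := hp (A e)
    exact ⟨k₀, B, c, hB, fun x hx => by rw [hW₁ e x hx]; exact hk x hx⟩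
  obtain ⟨β, hβ⟩ := lin_term hD hr₃ H₁ hd₁ hp₁
  -- composition with a Moebius map
  set b' : Ve D := (2 : ℝ)⁻¹ • β with hb'
  have hc₁ : ContinuousAt h₁ 0 := (diff H₁ h0r₃).continuousAt
  have hdc : ContinuousAt (fun x => den b' (h₁ x)) 0 :=
    (den_cont b').continuousAt.comp hc₁
  have hdpos : ∀ᶠ x in 𝓝 (0 : Ve D), 0 < den b' (h₁ x) := by
    have h1 : (0 : ℝ) < den b' (h₁ 0) := by
      rw [h₁0, den_zero]
      exact one_pos
    exact hdc.tendsto.eventually (lt_mem_nhds h1)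
  obtain ⟨r₄, hr₄, hr₄'⟩ := Metric.eventually_nhds_iff_ball.1 hdpos
  set r₅ := min r₃ r₄ with hr₅def
  have hr₅ : 0 < r₅ := lt_min hr₃ hr₄
  have hden : ∀ x ∈ ball (0 : Ve D) r₅, 0 < den b' (h₁ x) := fun x hx =>
    hr₄' x (ball_subset_ball (min_le_right _ _) hx)
  set k : Ve D → Ve D := fun x => mobD (ContinuousLinearMap.id ℝ (Ve D)) b' (h₁ x) with hk
  obtain ⟨Hk, hkn⟩ := CM_mob hD (mono (min_le_left r₃ r₄) H₁) b' (fun x hx => (hden x hx).ne')
  have h0r₅ : (0 : Ve D) ∈ ball (0 : Ve D) r₅ := mem_ball_self hr₅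
  have hmob0 : mobD (ContinuousLinearMap.id ℝ (Ve D)) b' 0 = 0 := by simp [mobD]
  have hk0 : k 0 = 0 := by
    rw [hk]
    show mobD (ContinuousLinearMap.id ℝ (Ve D)) b' (h₁ 0) = 0
    rw [h₁0, hmob0]
  have hdk : fderiv ℝ k 0 = ContinuousLinearMap.id ℝ (Ve D) := by
    have e1 : HasFDerivAt (mobD (ContinuousLinearMap.id ℝ (Ve D)) b')
        (ContinuousLinearMap.id ℝ (Ve D)) (h₁ 0) := by
      rw [h₁0]
      exact mob_deriv0 b'
    have e2 := e1.comp 0 (diff H₁ h0r₃)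
    rw [hd₁, ContinuousLinearMap.id_comp] at e2
    exact e2.fderiv
  obtain ⟨r₆, hr₆, hr₆', hpk⟩ := wv_poly_all hD hr₅ Hk
  have Hk6 : CM r₆ k := mono hr₆'.le Hk
  obtain ⟨βk, hβk⟩ := lin_term hD hr₆ Hk6 hdk hpk
  -- comparison of the conformal factors
  have hβk0 : βk = 0 := by
    apply ext_inner_right ℝ
    intro v
    rw [inner_zero_left]
    set e : Ve D := EuclideanSpace.single (⟨0, by omega⟩ : Fin D) (1 : ℝ) with he
    have he1 : ‖e‖ = 1 := by rw [he]; simp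
    obtain ⟨ck, hck⟩ := hβk e
    obtain ⟨c₁, hc₁'⟩ := hβ e
    have hlin : Tendsto (fun t : ℝ => t • v) (𝓝 0) (𝓝 (0 : Ve D)) := by
      have : Continuous (fun t : ℝ => t • v) := by fun_prop
      have h2 := this.tendsto 0
      simpa using h2
    have hev : ∀ᶠ t : ℝ in 𝓝 0, ‖e + (inner ℝ βk (t • v) • e + inner ℝ βk e • (t • v) -
        inner ℝ (t • v) e • βk) + qv ck (t • v)‖ ^ 2 =
        (den b' (h₁ (t • v))) ^ 2 * ‖e + (inner ℝ β (t • v) • e + inner ℝ β e • (t • v) -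
        inner ℝ (t • v) e • β) + qv c₁ (t • v)‖ ^ 2 := by
      filter_upwards [hlin (ball_mem_nhds (0 : Ve D) hr₆)] with t ht
      have ht6 : t • v ∈ ball (0 : Ve D) r₆ := ht
      have ht5 : t • v ∈ ball (0 : Ve D) r₅ := ball_subset_ball hr₆'.le ht6
      have ht3 : t • v ∈ ball (0 : Ve D) r₃ := ball_subset_ball (min_le_left _ _) ht5
      rw [← hck _ ht6, ← hc₁' _ ht3]
      unfold Wv
      rw [((Hk.conf _ ht5).inverse_apply (Hk.ne _ ht5) e).2.2,
        ((H₁.conf _ ht3).inverse_apply (H₁.ne _ ht3) e).2.2, hkn _ ht5]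
      have hd := (hden _ ht5).ne'
      have e8 : A.inverse (h (t • v)) = h₁ (t • v) := rfl
      rw [inv_div, e8]
      field_simp
    have hL := factor_deriv βk ck e v he1
    have hR := factor_deriv β c₁ e v he1
    have hh : HasDerivAt (fun t : ℝ => h₁ (t • v)) v 0 := by
      have e1 : HasFDerivAt h₁ (ContinuousLinearMap.id ℝ (Ve D)) ((0 : ℝ) • v) := by
        rw [zero_smul, ← hd₁]
        exact diff H₁ h0r₃
      have e2 : HasDerivAt (fun t : ℝ => t • v) ((1 : ℝ) • v) 0 :=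
        (hasDerivAt_id (0 : ℝ)).smul_const v
      have e3 := e1.comp_hasDerivAt (0 : ℝ) e2
      rw [ContinuousLinearMap.id_apply, one_smul] at e3
      exact e3
    have hdd : HasDerivAt (fun t : ℝ => den b' (h₁ (t • v))) (-2 * inner ℝ b' v) 0 := by
      unfold den
      have e1 : HasDerivAt (fun t : ℝ => inner ℝ b' (h₁ (t • v))) (inner ℝ b' v) 0 := by
        have := (innerSL ℝ b').hasFDerivAt.comp_hasDerivAt (0 : ℝ) hh
        exact this
      have e2 : HasDerivAt (fun t : ℝ => ‖h₁ (t • v)‖ ^ 2)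
          (2 * inner ℝ (h₁ ((0 : ℝ) • v)) v) 0 := hh.norm_sq
      have e3 := ((e1.const_mul 2).const_sub 1).add (e2.const_mul (‖b'‖ ^ 2))
      have e4 : -(2 * inner ℝ b' v) + ‖b'‖ ^ 2 * (2 * inner ℝ (h₁ ((0 : ℝ) • v)) v) =
          -2 * inner ℝ b' v := by
        rw [zero_smul, h₁0, inner_zero_left]
        ring
      rw [e4] at e3
      exact e3
    have hR2 := (hdd.pow 2).mul hR
    have hL2 := hR2.congr_of_eventuallyEq hev
    have huniq := hL.unique hL2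
    have e5 : den b' (h₁ ((0 : ℝ) • v)) = 1 := by rw [zero_smul, h₁0, den_zero]
    have e6 : ‖e + (inner ℝ β ((0 : ℝ) • v) • e + inner ℝ β e • ((0 : ℝ) • v) -
        inner ℝ ((0 : ℝ) • v) e • β) + qv c₁ ((0 : ℝ) • v)‖ ^ 2 = 1 := by
      simp [qv, he1]
    rw [e6] at huniq
    simp only [Pi.pow_apply, e5] at huniq
    have e7 : inner ℝ b' v = 2⁻¹ * inner ℝ β v := by
      rw [hb', inner_smul_left]
      simp
    rw [e7] at huniq
    norm_num at huniq
    linarith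
  have hnorm : ∀ x ∈ ball (0 : Ve D) r₆, k x = x := by
    apply id_of_norm hD hr₆ Hk6 hk0
    intro e
    obtain ⟨c, hc⟩ := hβk e
    refine ⟨c, fun x hx => ?_⟩
    rw [hc x hx, hβk0]
    simp
  -- conclusion
  refine ⟨-b', ?_⟩
  filter_upwards [ball_mem_nhds (0 : Ve D) hr₆] with x hx
  have hx5 : x ∈ ball (0 : Ve D) r₅ := ball_subset_ball hr₆'.le hx
  have hcomp := mobD_comp (A := ContinuousLinearMap.id ℝ (Ve D))
    (A' := ContinuousLinearMap.id ℝ (Ve D)) (conf_id hD).1 b' (-b') (h₁ x) (hden x hx5).ne'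
  have hkx : mobD (ContinuousLinearMap.id ℝ (Ve D)) b' (h₁ x) = x := hnorm x hx
  rw [hkx] at hcomp
  have e1 : b' + ContinuousLinearMap.adjoint (ContinuousLinearMap.id ℝ (Ve D)) (-b') = 0 := by
    rw [show ContinuousLinearMap.adjoint (ContinuousLinearMap.id ℝ (Ve D)) =
      ContinuousLinearMap.id ℝ (Ve D) from ContinuousLinearMap.adjoint_id]
    simp
  have e2 : mobD (ContinuousLinearMap.id ℝ (Ve D) ∘L ContinuousLinearMap.id ℝ (Ve D)) 0 (h₁ x) =
      h₁ x := by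
    simp [mobD, den]
  rw [e1, e2] at hcomp
  have e3 : h x = A (h₁ x) := ((hA.inverse_apply hA0 (h x)).1).symm
  rw [e3, ← hcomp]
  unfold mobD
  rw [map_smul]
  rfl

end Pool.Agent.H779R2.Li
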