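import Pool.Agent.H779R2.Li.V2

set_option autoImplicit false

namespace Pool.Agent.H779R2.Li

open Filter Topology MeasureTheory Metric
open scoped BigOperators

variable {D : ℕ}

/-- The inverse of a nonzero conformal linear map as a linear equivalence. -/
private noncomputable def V3_equiv {A : Ve D →L[ℝ] Ve D} (h : Conf A) (hA : A ≠ 0) :
    Ve D ≃L[ℝ] Ve D :=
  ContinuousLinearEquiv.equivOfInverse A A.inverse (fun v => (h.inverse_apply hA v).2.1)
    (fun v => (h.inverse_apply hA v).1)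

private theorem V3_equiv_coe {A : Ve D →L[ℝ] Ve D} (h : Conf A) (hA : A ≠ 0) :
    (V3_equiv h hA : Ve D →L[ℝ] Ve D) = A := by
  ext v
  rfl

/-- the function `ψ ∘ φ⁻¹`, extended by zero -/
private noncomputable def V3_chi (r : ℝ) (φ : Ve D → Ve D) (ψ : Ve D → ℝ) (y : Ve D) : ℝ :=
  open Classical in
  if h : ∃ x ∈ ball (0 : Ve D) r, φ x = y then ψ h.choose else 0

private theorem V3_chi_apply {r : ℝ} {φ : Ve D → Ve D} (hinj : Set.InjOn φ (ball 0 r))
    (ψ : Ve D → ℝ) {x : Ve D} (hx : x ∈ ball (0 : Ve D) r) : V3_chi r φ ψ (φ x) = ψ x := by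
  have h : ∃ z ∈ ball (0 : Ve D) r, φ z = φ x := ⟨x, hx, rfl⟩
  unfold V3_chi
  rw [dif_pos h]
  congr 1
  exact hinj h.choose_spec.1 hx h.choose_spec.2

private theorem V3_chi_zero {r : ℝ} {φ : Ve D → Ve D} (hinj : Set.InjOn φ (ball 0 r))
    (ψ : Ve D → ℝ) {y : Ve D} (hy : y ∉ φ '' tsupport ψ) : V3_chi r φ ψ y = 0 := by
  by_cases h : ∃ z ∈ ball (0 : Ve D) r, φ z = y
  · obtain ⟨z, hz, rfl⟩ := h
    rw [V3_chi_apply hinj ψ hz]
    by_contra hne
    exact hy ⟨z, subset_tsupport ψ hne, rfl⟩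
  · unfold V3_chi
    rw [dif_neg h]

private theorem V3_local {r : ℝ} {φ : Ve D → Ve D} (H : CM r φ)
    (hinj : Set.InjOn φ (ball 0 r)) (ψ : Ve D → ℝ) (hψ : ContDiff ℝ 1 ψ) {x : Ve D}
    (hx : x ∈ ball (0 : Ve D) r) : ContDiffAt ℝ 1 (V3_chi r φ ψ) (φ x) ∧
      ∀ a, fderiv ℝ (V3_chi r φ ψ) (φ x) a = fderiv ℝ ψ x ((fderiv ℝ φ x).inverse a) := by
  have hball : ball (0 : Ve D) r ∈ 𝓝 x := isOpen_ball.mem_nhds hx
  have hcd : ContDiffAt ℝ 1 φ x := H.c1.contDiffAt hball
  have hd : HasFDerivAt φ (fderiv ℝ φ x) x := (hcd.differentiableAt one_ne_zero).hasFDerivAt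
  have hd' : HasFDerivAt φ (V3_equiv (H.conf x hx) (H.ne x hx) : Ve D →L[ℝ] Ve D) x := by
    rw [V3_equiv_coe]; exact hd
  have hs : HasStrictFDerivAt φ (V3_equiv (H.conf x hx) (H.ne x hx) : Ve D →L[ℝ] Ve D) x :=
    hcd.hasStrictFDerivAt' hd' one_ne_zero
  have hloc : ContDiffAt ℝ 1 (hs.localInverse φ _ x) (φ x) :=
    hcd.to_localInverse hd' one_ne_zero
  have heq : V3_chi r φ ψ =ᶠ[𝓝 (φ x)] ψ ∘ (hs.localInverse φ _ x) := by
    have h1 : ∀ᶠ y in 𝓝 (φ x), hs.localInverse φ _ x y ∈ ball (0 : Ve D) r :=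
      hs.localInverse_tendsto hball
    filter_upwards [hs.eventually_right_inverse, h1] with y hy1 hy2
    have := V3_chi_apply hinj ψ hy2
    rw [hy1] at this
    exact this
  have hval : hs.localInverse φ _ x (φ x) = x := hs.localInverse_apply_image
  constructor
  · refine ContDiffAt.congr_of_eventuallyEq ?_ heq
    refine ContDiffAt.comp (φ x) ?_ hloc
    rw [hval]
    exact hψ.contDiffAt
  · intro a
    have hder : HasFDerivAt (hs.localInverse φ _ x)
        ((V3_equiv (H.conf x hx) (H.ne x hx)).symm : Ve D →L[ℝ] Ve D) (φ x) :=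
      hs.to_localInverse.hasFDerivAt
    have hψd : HasFDerivAt ψ (fderiv ℝ ψ x) (hs.localInverse φ _ x (φ x)) := by
      rw [hval]
      exact ((hψ.differentiable one_ne_zero) x).hasFDerivAt
    have hcomp := (hψd.comp (φ x) hder).congr_of_eventuallyEq heq
    rw [hcomp.fderiv]
    rfl

private theorem V3_contDiff {r : ℝ} {φ : Ve D → Ve D} (H : CM r φ)
    (hinj : Set.InjOn φ (ball 0 r)) (ψ : Ve D → ℝ) (hψ : ContDiff ℝ 1 ψ)
    (hc : HasCompactSupport ψ) (hs : tsupport ψ ⊆ ball 0 r) :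
    ContDiff ℝ 1 (V3_chi r φ ψ) ∧ HasCompactSupport (V3_chi r φ ψ) := by
  have hcomp : IsCompact (φ '' tsupport ψ) :=
    hc.isCompact.image_of_continuousOn (H.c1.continuousOn.mono hs)
  constructor
  · rw [contDiff_iff_contDiffAt]
    intro y
    by_cases hy : y ∈ φ '' tsupport ψ
    · obtain ⟨x, hx, rfl⟩ := hy
      exact (V3_local H hinj ψ hψ (hs hx)).1
    · have hev : V3_chi r φ ψ =ᶠ[𝓝 y] fun _ => 0 := by
        filter_upwards [hcomp.isClosed.isOpen_compl.mem_nhds hy] with z hz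
        exact V3_chi_zero hinj ψ hz
      exact contDiffAt_const.congr_of_eventuallyEq hev
  · exact HasCompactSupport.intro hcomp fun y hy => V3_chi_zero hinj ψ hy

private theorem V3_int_zero {χ : Ve D → ℝ} (h1 : ContDiff ℝ 1 χ) (h2 : HasCompactSupport χ)
    (a : Ve D) : ∫ y, fderiv ℝ χ y a = 0 := by
  have hcont : Continuous fun y => fderiv ℝ χ y a :=
    (h1.continuous_fderiv one_ne_zero).clm_apply continuous_const
  have hcs : HasCompactSupport fun y => fderiv ℝ χ y a := h2.fderiv_apply ℝ a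
  have hint : Integrable (fun y => fderiv ℝ χ y a) := hcont.integrable_of_hasCompactSupport hcs
  have hint0 : Integrable χ := h1.continuous.integrable_of_hasCompactSupport h2
  have := integral_mul_fderiv_eq_neg_fderiv_mul_of_integrable (μ := (volume : Measure (Ve D)))
    (f := fun _ : Ve D => (1 : ℝ)) (g := χ) (v := a) (by simp) (by simpa using hint)
    (by simpa using hint0) (fun x _ => differentiableAt_const _)
    (fun x _ => (h1.differentiable one_ne_zero) x)
  simpa using this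

/-- V3: the components of a conformal map are weakly `D`-harmonic. -/
theorem weak_harm (hD : 2 ≤ D) {r : ℝ} {φ : Ve D → Ve D} (H : CM r φ)
    (hinj : Set.InjOn φ (ball 0 r)) (ψ : Ve D → ℝ) (hψ : ContDiff ℝ 1 ψ)
    (hc : HasCompactSupport ψ) (hs : tsupport ψ ⊆ ball 0 r) (a : Ve D) :
    ∫ x, ‖fderiv ℝ φ x‖ ^ (D - 2) *
      fderiv ℝ ψ x (ContinuousLinearMap.adjoint (fderiv ℝ φ x) a) = 0 := by
  obtain ⟨hχ1, hχ2⟩ := V3_contDiff H hinj ψ hψ hc hs
  have hzero : ∀ x, x ∉ ball (0 : Ve D) r → fderiv ℝ ψ x = 0 := by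
    intro x hx
    by_contra hne
    have : x ∈ tsupport (fderiv ℝ ψ) := subset_tsupport _ hne
    exact hx (hs (tsupport_fderiv_subset ℝ this))
  have h1 : ∫ x, ‖fderiv ℝ φ x‖ ^ (D - 2) *
      fderiv ℝ ψ x (ContinuousLinearMap.adjoint (fderiv ℝ φ x) a) =
      ∫ x in ball (0 : Ve D) r, ‖fderiv ℝ φ x‖ ^ (D - 2) *
      fderiv ℝ ψ x (ContinuousLinearMap.adjoint (fderiv ℝ φ x) a) := by
    refine (setIntegral_eq_integral_of_forall_compl_eq_zero fun x hx => ?_).symm
    rw [hzero x hx]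
    simp
  have h2 : ∫ x in ball (0 : Ve D) r, ‖fderiv ℝ φ x‖ ^ (D - 2) *
      fderiv ℝ ψ x (ContinuousLinearMap.adjoint (fderiv ℝ φ x) a) =
      ∫ x in ball (0 : Ve D) r, |(fderiv ℝ φ x).det| •
        fderiv ℝ (V3_chi r φ ψ) (φ x) a := by
    refine setIntegral_congr_fun measurableSet_ball fun x hx => ?_
    have hconf := H.conf x hx
    have hne := H.ne x hx
    have hadj : ContinuousLinearMap.adjoint (fderiv ℝ φ x) a =
        ‖fderiv ℝ φ x‖ ^ 2 • (fderiv ℝ φ x).inverse a := by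
      have := hconf.adjoint_apply ((fderiv ℝ φ x).inverse a)
      rwa [(hconf.inverse_apply hne a).1] at this
    simp only [smul_eq_mul]
    rw [(V3_local H hinj ψ hψ hx).2 a, hadj, map_smul, hconf.abs_det, smul_eq_mul, ← mul_assoc,
      ← pow_add, Nat.sub_add_cancel hD]
  have h3 : ∫ y in φ '' ball (0 : Ve D) r, fderiv ℝ (V3_chi r φ ψ) y a =
      ∫ x in ball (0 : Ve D) r, |(fderiv ℝ φ x).det| • fderiv ℝ (V3_chi r φ ψ) (φ x) a := by
    refine integral_image_eq_integral_abs_det_fderiv_smul volume measurableSet_ball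
      (fun x hx => ?_) hinj (fun y => fderiv ℝ (V3_chi r φ ψ) y a)
    exact ((H.c1.contDiffAt (isOpen_ball.mem_nhds hx)).differentiableAt
      one_ne_zero).hasFDerivAt.hasFDerivWithinAt
  have h4 : ∫ y in φ '' ball (0 : Ve D) r, fderiv ℝ (V3_chi r φ ψ) y a =
      ∫ y, fderiv ℝ (V3_chi r φ ψ) y a := by
    refine setIntegral_eq_integral_of_forall_compl_eq_zero fun y hy => ?_
    by_contra hne
    have hne' : fderiv ℝ (V3_chi r φ ψ) y ≠ 0 := by
      intro h0
      exact hne (by rw [h0]; simp)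
    have hcomp : IsCompact (φ '' tsupport ψ) :=
      hc.isCompact.image_of_continuousOn (H.c1.continuousOn.mono hs)
    have hy2 : y ∉ φ '' tsupport ψ := fun hmem => hy (Set.image_mono hs hmem)
    have hev : V3_chi r φ ψ =ᶠ[𝓝 y] fun _ => 0 := by
      filter_upwards [hcomp.isClosed.isOpen_compl.mem_nhds hy2] with z hz
      exact V3_chi_zero hinj ψ hz
    apply hne'
    rw [hev.fderiv_eq]
    simp
  rw [h1, h2, ← h3, h4, V3_int_zero hχ1 hχ2 a]

end Pool.Agent.H779R2.Li
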