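import Pool.Agent.H779R2.Li.V1
import Pool.Agent.H779R2.Li.V2
import Pool.Agent.H779R2.Li.V3

set_option autoImplicit false

namespace Pool.Agent.H779R2.Li

open Filter Topology MeasureTheory Metric
open scoped BigOperators

variable {D : ℕ}

theorem V4_aux_int {g : Ve D → ℝ} {ρ r : ℝ} (hρ : ρ < r) (hg : ContinuousOn g (ball 0 r))
    (h0 : ∀ x, x ∉ closedBall (0 : Ve D) ρ → g x = 0) : Integrable g := by
  have h1 : IntegrableOn g (closedBall 0 ρ) :=
    (hg.mono (closedBall_subset_ball hρ)).integrableOn_compact (isCompact_closedBall 0 ρ)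
  rwa [integrableOn_iff_integrable_of_support_subset] at h1
  intro x hx
  by_contra hc
  exact hx (h0 x hc)

theorem V4_aux_hs (A : Ve D →L[ℝ] Ve D) :
    ‖A‖ ^ 2 ≤ ∑ i : Fin D,
      ‖(ContinuousLinearMap.adjoint A) (EuclideanSpace.basisFun (Fin D) ℝ i)‖ ^ 2 := by
  have h1 : ‖A‖ ≤ Real.sqrt (∑ i : Fin D,
      ‖(ContinuousLinearMap.adjoint A) (EuclideanSpace.basisFun (Fin D) ℝ i)‖ ^ 2) := by
    refine ContinuousLinearMap.opNorm_le_bound _ (Real.sqrt_nonneg _) fun v => ?_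
    have h2 : ‖A v‖ ^ 2 ≤ (∑ i : Fin D,
        ‖(ContinuousLinearMap.adjoint A) (EuclideanSpace.basisFun (Fin D) ℝ i)‖ ^ 2) * ‖v‖ ^ 2 := by
      rw [← (EuclideanSpace.basisFun (Fin D) ℝ).sum_sq_norm_inner_right (A v), Finset.sum_mul]
      refine Finset.sum_le_sum fun i _ => ?_
      rw [← ContinuousLinearMap.adjoint_inner_left, ← mul_pow]
      exact pow_le_pow_left₀ (norm_nonneg _) (norm_inner_le_norm _ _) 2
    rw [← Real.sqrt_sq (norm_nonneg v), ← Real.sqrt_mul (by positivity)]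
    exact Real.le_sqrt_of_sq_le h2
  calc ‖A‖ ^ 2 ≤ (Real.sqrt (∑ i : Fin D,
      ‖(ContinuousLinearMap.adjoint A) (EuclideanSpace.basisFun (Fin D) ℝ i)‖ ^ 2)) ^ 2 :=
        pow_le_pow_left₀ (norm_nonneg _) h1 2
    _ = _ := Real.sq_sqrt (by positivity)

theorem V4_aux_id (hD : 2 ≤ D) (r : ℝ) : CM r (fun x : Ve D => x) := by
  have hf : ∀ x : Ve D, fderiv ℝ (fun x : Ve D => x) x = ContinuousLinearMap.id ℝ (Ve D) :=
    fun x => fderiv_id'
  have : Nontrivial (Ve D) := by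
    have : Nonempty (Fin D) := ⟨⟨0, by omega⟩⟩
    infer_instance
  refine ⟨contDiff_id.contDiffOn, ?_, ?_⟩
  · intro x _ v
    rw [hf, ContinuousLinearMap.norm_id]; simp
  · intro x _ h
    rw [hf] at h
    have := congrArg norm h
    rw [ContinuousLinearMap.norm_id, norm_zero] at this
    exact one_ne_zero this

theorem V4_aux_key (hD : 2 ≤ D) {r r' : ℝ} (hr' : 0 < r') (hr : r' < r) (η : Ve D → ℝ)
    (hη : ContDiff ℝ 1 η) (ρ : ℝ) (hρ : ρ < r) (hρ' : r' ≤ ρ)
    (hη0 : tsupport η ⊆ closedBall 0 ρ) (hη1 : ∀ x ∈ ball (0 : Ve D) r', η x = 1)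
    (L : ℝ) (hL : ∀ x, ‖fderiv ℝ η x‖ ≤ L) (hL0 : 0 ≤ L)
    (C₁ : ℝ) (hC₁ : 0 < C₁) (hlip : ∀ a p : Ve D, ‖a‖ = 1 → ‖p‖ ≤ 2 →
      ‖‖p‖ ^ (D - 2) • p - a‖ ≤ C₁ * ‖p - a‖) (φ : Ve D → Ve D) (δ : ℝ) (H : CM r φ)
    (hinj : Set.InjOn φ (ball 0 r)) (hδ : 0 ≤ δ)
    (h1 : ∀ x ∈ ball (0 : Ve D) r, ‖φ x - x‖ ≤ δ)
    (h2 : ∀ x ∈ ball (0 : Ve D) r, ‖fderiv ℝ φ x - ContinuousLinearMap.id ℝ (Ve D)‖ ≤ 1 / 4)
    (a : Ve D) (ha : ‖a‖ = 1) :
    ∫ x in ball (0 : Ve D) r', ‖(ContinuousLinearMap.adjoint (fderiv ℝ φ x)) a - a‖ ^ 2 ≤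
      16 * C₁ ^ 2 * L ^ 2 * volume.real (ball (0 : Ve D) r) * δ ^ 2 := by
  have : Nontrivial (Ve D) := by
    have : Nonempty (Fin D) := ⟨⟨0, by omega⟩⟩
    infer_instance
  have hsub : closedBall (0 : Ve D) ρ ⊆ ball 0 r := closedBall_subset_ball hρ
  have hcd : ContinuousOn (fderiv ℝ φ) (ball 0 r) :=
    H.c1.continuousOn_fderiv_of_isOpen isOpen_ball le_rfl
  set p : Ve D → Ve D := fun x => (ContinuousLinearMap.adjoint (fderiv ℝ φ x)) a with hp
  have hcp : ContinuousOn p (ball 0 r) := by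
    have h3 : ContinuousOn (fun x => ContinuousLinearMap.adjoint (fderiv ℝ φ x)) (ball 0 r) :=
      (ContinuousLinearMap.adjoint (𝕜 := ℝ) (E := Ve D) (F := Ve D)).continuous.comp_continuousOn hcd
    exact h3.clm_apply continuousOn_const
  set w : Ve D → ℝ := fun x => inner ℝ (φ x - x) a with hw
  have hwd : ∀ x ∈ ball (0 : Ve D) r, HasFDerivAt w
      ((innerSL ℝ a).comp (fderiv ℝ φ x - ContinuousLinearMap.id ℝ (Ve D))) x := by
    intro x hx
    have hφ : DifferentiableAt ℝ φ x :=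
      (H.c1.differentiableOn one_ne_zero).differentiableAt (isOpen_ball.mem_nhds hx)
    have h3 : HasFDerivAt (fun x => φ x - x)
        (fderiv ℝ φ x - ContinuousLinearMap.id ℝ (Ve D)) x :=
      hφ.hasFDerivAt.sub (hasFDerivAt_id x)
    have h4 := (innerSL ℝ a).hasFDerivAt.comp x h3
    have h5 : w = fun x => innerSL ℝ a (φ x - x) := by
      funext y; rw [innerSL_apply_apply, real_inner_comm]
    rw [h5]
    exact h4
  have hwc : ContDiffOn ℝ 1 w (ball 0 r) := by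
    have h5 : w = fun x => innerSL ℝ a (φ x - x) := by
      funext y; rw [innerSL_apply_apply, real_inner_comm]
    rw [h5]
    exact (innerSL ℝ a).contDiff.comp_contDiffOn (H.c1.sub contDiffOn_id)
  set ψ : Ve D → ℝ := fun x => η x ^ 2 * w x with hψ
  have hηz : ∀ x, x ∉ closedBall (0 : Ve D) ρ → η =ᶠ[𝓝 x] 0 := fun x hx =>
    notMem_tsupport_iff_eventuallyEq.mp fun h => hx (hη0 h)
  have hψz : ∀ x, x ∉ closedBall (0 : Ve D) ρ → ψ =ᶠ[𝓝 x] 0 := by
    intro x hx
    filter_upwards [hηz x hx] with y hy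
    simp [hψ, hy]
  have hψc : ContDiff ℝ 1 ψ := by
    rw [contDiff_iff_contDiffAt]
    intro x
    by_cases hx : x ∈ ball (0 : Ve D) r
    · exact (hη.contDiffAt.pow 2).mul (hwc.contDiffAt (isOpen_ball.mem_nhds hx))
    · have hx' : x ∉ closedBall (0 : Ve D) ρ := fun h => hx (hsub h)
      exact (contDiffAt_const (c := (0 : ℝ))).congr_of_eventuallyEq (hψz x hx')
  have hψs : tsupport ψ ⊆ closedBall 0 ρ := by
    refine (closure_minimal ?_ isClosed_closedBall)
    intro x hx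
    by_contra hc
    exact hx (hψz x hc).self_of_nhds
  have hψcs : HasCompactSupport ψ :=
    HasCompactSupport.intro (isCompact_closedBall 0 ρ) fun x hx => (hψz x hx).self_of_nhds
  have hψd : ∀ x ∈ ball (0 : Ve D) r, ∀ v, fderiv ℝ ψ x v =
      2 * η x * w x * fderiv ℝ η x v + η x ^ 2 * inner ℝ v (p x - a) := by
    intro x hx v
    have hη' : HasFDerivAt η (fderiv ℝ η x) x := (hη.differentiable one_ne_zero x).hasFDerivAt
    have h3 := (hη'.pow 2).mul (hwd x hx)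
    have h4 : fderiv ℝ ψ x = _ := h3.fderiv
    rw [h4]
    have h5 : inner ℝ a (fderiv ℝ φ x v - v) = inner ℝ v (p x - a) := by
      rw [hp, inner_sub_right, inner_sub_right, ContinuousLinearMap.adjoint_inner_right,
        real_inner_comm, real_inner_comm a v]
    simp only [ContinuousLinearMap.add_apply, ContinuousLinearMap.smul_apply,
      ContinuousLinearMap.comp_apply, ContinuousLinearMap.sub_apply, ContinuousLinearMap.id_apply,
      innerSL_apply_apply, smul_eq_mul, h5, nsmul_eq_mul]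
    push_cast
    ring
  have hψf0 : ∀ x, x ∉ closedBall (0 : Ve D) ρ → fderiv ℝ ψ x = 0 := by
    intro x hx
    rw [(hψz x hx).fderiv_eq]
    simp
  -- the two weak equations
  have hI1 := weak_harm hD H hinj ψ hψc hψcs (hψs.trans hsub) a
  have hI2 : ∫ x, fderiv ℝ ψ x a = 0 := by
    have h3 := weak_harm hD (V4_aux_id hD r) (fun x _ y _ h => h) ψ hψc hψcs (hψs.trans hsub) a
    have hf : ∀ x : Ve D, fderiv ℝ (fun x : Ve D => x) x = ContinuousLinearMap.id ℝ (Ve D) :=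
      fun x => fderiv_id'
    rw [← h3]
    congr 1
    funext x
    rw [hf, ContinuousLinearMap.norm_id, one_pow, one_mul]
    have : (ContinuousLinearMap.adjoint (ContinuousLinearMap.id ℝ (Ve D))) a = a := by
      refine ext_inner_right ℝ fun v => ?_
      rw [ContinuousLinearMap.adjoint_inner_left]; rfl
    rw [this]
  have hpn : ∀ x ∈ ball (0 : Ve D) r, ‖p x‖ = ‖fderiv ℝ φ x‖ := by
    intro x hx
    rw [hp]
    simp only
    rw [(H.conf x hx).norm_adjoint_apply, ha, mul_one]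
  have hψfc : Continuous (fderiv ℝ ψ) := hψc.continuous_fderiv one_ne_zero
  have hint1 : Integrable fun x => ‖fderiv ℝ φ x‖ ^ (D - 2) * fderiv ℝ ψ x (p x) := by
    refine V4_aux_int hρ ?_ ?_
    · exact (hcd.norm.pow _).mul (hψfc.continuousOn.clm_apply hcp)
    · intro x hx; rw [hψf0 x hx]; simp
  have hint2 : Integrable fun x => fderiv ℝ ψ x a := by
    refine V4_aux_int hρ ?_ ?_
    · exact hψfc.continuousOn.clm_apply continuousOn_const
    · intro x hx; rw [hψf0 x hx]; simp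
  set J : Ve D → ℝ := fun x => fderiv ℝ ψ x (‖p x‖ ^ (D - 2) • p x - a) with hJ
  have hJe : ∀ x, J x = ‖fderiv ℝ φ x‖ ^ (D - 2) * fderiv ℝ ψ x (p x) - fderiv ℝ ψ x a := by
    intro x
    by_cases hx : x ∈ closedBall (0 : Ve D) ρ
    · rw [hJ]
      simp only
      rw [map_sub, map_smul, hpn x (hsub hx), smul_eq_mul]
    · rw [hJ]
      simp only
      rw [hψf0 x hx]; simp
  have hJi : Integrable J := by
    have : J = fun x => ‖fderiv ℝ φ x‖ ^ (D - 2) * fderiv ℝ ψ x (p x) - fderiv ℝ ψ x a :=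
      funext hJe
    rw [this]
    exact hint1.sub hint2
  have hJ0 : ∫ x, J x = 0 := by
    have : J = fun x => ‖fderiv ℝ φ x‖ ^ (D - 2) * fderiv ℝ ψ x (p x) - fderiv ℝ ψ x a :=
      funext hJe
    rw [this, integral_sub hint1 hint2, hI2]
    rw [sub_zero]
    exact hI1
  have hJ0' : ∫ x in ball (0 : Ve D) r, J x = 0 := by
    rw [setIntegral_eq_integral_of_forall_compl_eq_zero, hJ0]
    intro x hx
    have hx' : x ∉ closedBall (0 : Ve D) ρ := fun h => hx (hsub h)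
    rw [hJ]
    simp only
    rw [hψf0 x hx']; simp
  -- pointwise lower bound
  have hpt : ∀ x ∈ ball (0 : Ve D) r,
      1 / 4 * (η x ^ 2 * ‖p x - a‖ ^ 2) - 4 * C₁ ^ 2 * L ^ 2 * δ ^ 2 ≤ J x := by
    intro x hx
    rw [hJ]
    simp only
    rw [hψd x hx]
    set q := ‖p x‖ ^ (D - 2) • p x - a with hq
    have hm := pl_mono (D - 2) a (p x) ha
    rw [← hq] at hm
    have hp2 : ‖p x‖ ≤ 2 := by
      rw [hpn x hx]
      have h3 := h2 x hx
      have h4 : ‖fderiv ℝ φ x‖ ≤ ‖fderiv ℝ φ x - ContinuousLinearMap.id ℝ (Ve D)‖ +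
          ‖ContinuousLinearMap.id ℝ (Ve D)‖ := by
        calc ‖fderiv ℝ φ x‖ = ‖(fderiv ℝ φ x - ContinuousLinearMap.id ℝ (Ve D)) +
            ContinuousLinearMap.id ℝ (Ve D)‖ := by rw [sub_add_cancel]
          _ ≤ _ := norm_add_le _ _
      rw [ContinuousLinearMap.norm_id] at h4
      linarith
    have hl := hlip a (p x) ha hp2
    rw [← hq] at hl
    have hwb : |w x| ≤ δ := by
      have h3 : |w x| ≤ ‖φ x - x‖ * ‖a‖ := abs_real_inner_le_norm _ _
      rw [ha, mul_one] at h3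
      exact h3.trans (h1 x hx)
    have hηq : |fderiv ℝ η x q| ≤ L * (C₁ * ‖p x - a‖) := by
      have h3 : ‖fderiv ℝ η x q‖ ≤ ‖fderiv ℝ η x‖ * ‖q‖ := ContinuousLinearMap.le_opNorm _ _
      rw [Real.norm_eq_abs] at h3
      exact h3.trans (mul_le_mul (hL x) hl (norm_nonneg _) hL0)
    have h6 : |2 * η x * w x * fderiv ℝ η x q| ≤
        2 * (|η x| * ‖p x - a‖) * (C₁ * L * δ) := by
      rw [abs_mul, abs_mul, abs_mul, abs_two]
      calc 2 * |η x| * |w x| * |fderiv ℝ η x q| ≤ 2 * |η x| * δ * (L * (C₁ * ‖p x - a‖)) := by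
            gcongr
        _ = _ := by ring
    have h7 : 2 * (|η x| * ‖p x - a‖) * (C₁ * L * δ) ≤
        1 / 4 * (|η x| * ‖p x - a‖) ^ 2 + 4 * (C₁ * L * δ) ^ 2 := by
      nlinarith [sq_nonneg (1 / 2 * (|η x| * ‖p x - a‖) - 2 * (C₁ * L * δ))]
    have h8 : (|η x| * ‖p x - a‖) ^ 2 = η x ^ 2 * ‖p x - a‖ ^ 2 := by
      rw [mul_pow, sq_abs]
    have h9 : η x ^ 2 * (1 / 2 * ‖p x - a‖ ^ 2) ≤ η x ^ 2 * inner ℝ q (p x - a) :=
      mul_le_mul_of_nonneg_left hm (sq_nonneg _)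
    have h10 := neg_abs_le (2 * η x * w x * fderiv ℝ η x q)
    nlinarith
  -- integrate
  have hcη : ContinuousOn (fun x => η x ^ 2 * ‖p x - a‖ ^ 2) (ball 0 r) :=
    (hη.continuous.continuousOn.pow 2).mul ((hcp.sub continuousOn_const).norm.pow 2)
  have hiη : Integrable fun x => η x ^ 2 * ‖p x - a‖ ^ 2 := by
    refine V4_aux_int hρ hcη ?_
    intro x hx
    have : η x = 0 := (hηz x hx).self_of_nhds
    rw [this]; simp
  have hfin : volume (ball (0 : Ve D) r) ≠ ⊤ := measure_ball_lt_top.ne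
  have hlow : ∫ x in ball (0 : Ve D) r, (1 / 4 * (η x ^ 2 * ‖p x - a‖ ^ 2) -
      4 * C₁ ^ 2 * L ^ 2 * δ ^ 2) ≤ 0 := by
    rw [← hJ0']
    refine setIntegral_mono_on ?_ hJi.integrableOn measurableSet_ball hpt
    exact (hiη.const_mul _).integrableOn.sub (integrableOn_const hfin)
  rw [integral_sub (hiη.const_mul _).integrableOn (integrableOn_const hfin),
    integral_const_mul, setIntegral_const, smul_eq_mul] at hlow
  have hup : ∫ x in ball (0 : Ve D) r', ‖p x - a‖ ^ 2 ≤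
      ∫ x in ball (0 : Ve D) r, η x ^ 2 * ‖p x - a‖ ^ 2 := by
    calc ∫ x in ball (0 : Ve D) r', ‖p x - a‖ ^ 2
        = ∫ x in ball (0 : Ve D) r', η x ^ 2 * ‖p x - a‖ ^ 2 := by
          refine setIntegral_congr_fun measurableSet_ball fun x hx => ?_
          rw [hη1 x hx]; ring
      _ ≤ _ := by
          refine setIntegral_mono_set hiη.integrableOn ?_ ?_
          · exact Eventually.of_forall fun x => by positivity
          · exact (ball_subset_ball hr.le).eventuallyLE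
  calc ∫ x in ball (0 : Ve D) r', ‖p x - a‖ ^ 2
      ≤ ∫ x in ball (0 : Ve D) r, η x ^ 2 * ‖p x - a‖ ^ 2 := hup
    _ ≤ _ := by nlinarith [hlow]

/-- V4: Caccioppoli inequality for conformal maps close to the identity. -/
theorem cacc (hD : 2 ≤ D) {r r' : ℝ} (hr' : 0 < r') (hr : r' < r) :
    ∃ C : ℝ, 0 < C ∧ ∀ (φ : Ve D → Ve D) (δ : ℝ), CM r φ → Set.InjOn φ (ball 0 r) → 0 ≤ δ →
      (∀ x ∈ ball (0 : Ve D) r, ‖φ x - x‖ ≤ δ) →
      (∀ x ∈ ball (0 : Ve D) r, ‖fderiv ℝ φ x - ContinuousLinearMap.id ℝ (Ve D)‖ ≤ 1 / 4) →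
      ∫ x in ball (0 : Ve D) r', ‖fderiv ℝ φ x - ContinuousLinearMap.id ℝ (Ve D)‖ ^ 2 ≤
        C * δ ^ 2 := by
  obtain ⟨C₁, hC₁, hlip⟩ := pl_lip (D := D) (D - 2)
  let f : ContDiffBump (0 : Ve D) := ⟨r', (r + r') / 2, hr', by linarith⟩
  have hηc : ContDiff ℝ 1 f := f.contDiff
  have hηcs : HasCompactSupport f := f.hasCompactSupport
  obtain ⟨L, hL⟩ := (hηcs.fderiv (𝕜 := ℝ)).exists_bound_of_continuous
    (hηc.continuous_fderiv one_ne_zero)
  have hL0 : 0 ≤ L := (norm_nonneg _).trans (hL 0)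
  refine ⟨D * (16 * C₁ ^ 2 * L ^ 2 * volume.real (ball (0 : Ve D) r)) + 1, by positivity, ?_⟩
  intro φ δ H hinj hδ h1 h2
  have hts : tsupport f ⊆ closedBall 0 ((r + r') / 2) := by
    rw [f.tsupport_eq]
  have hone : ∀ x ∈ ball (0 : Ve D) r', f x = 1 := fun x hx =>
    f.one_of_mem_closedBall (ball_subset_closedBall hx)
  have key := fun a ha => V4_aux_key hD hr' hr f hηc ((r + r') / 2) (by linarith) (by linarith)
    hts hone L hL hL0 C₁ hC₁ hlip φ δ H hinj hδ h1 h2 a ha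
  have hcd : ContinuousOn (fderiv ℝ φ) (ball 0 r) :=
    H.c1.continuousOn_fderiv_of_isOpen isOpen_ball le_rfl
  have hadj : ∀ x, ∀ a : Ve D, (ContinuousLinearMap.adjoint (fderiv ℝ φ x -
      ContinuousLinearMap.id ℝ (Ve D))) a = (ContinuousLinearMap.adjoint (fderiv ℝ φ x)) a - a := by
    intro x a
    refine ext_inner_right ℝ fun v => ?_
    rw [ContinuousLinearMap.adjoint_inner_left, inner_sub_left,
      ContinuousLinearMap.adjoint_inner_left, ContinuousLinearMap.sub_apply, inner_sub_right]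
    rfl
  have hic : ∀ g : Ve D → ℝ, ContinuousOn g (ball 0 r) → IntegrableOn g (ball (0 : Ve D) r') := by
    intro g hg
    exact ((hg.mono (closedBall_subset_ball hr)).integrableOn_compact
      (isCompact_closedBall 0 r')).mono_set ball_subset_closedBall
  have hcp : ∀ a : Ve D, ContinuousOn
      (fun x => ‖(ContinuousLinearMap.adjoint (fderiv ℝ φ x)) a - a‖ ^ 2) (ball 0 r) := by
    intro a
    have h3 : ContinuousOn (fun x => ContinuousLinearMap.adjoint (fderiv ℝ φ x)) (ball 0 r) :=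
      (ContinuousLinearMap.adjoint (𝕜 := ℝ) (E := Ve D) (F := Ve D)).continuous.comp_continuousOn hcd
    exact ((h3.clm_apply continuousOn_const).sub continuousOn_const).norm.pow 2
  calc ∫ x in ball (0 : Ve D) r', ‖fderiv ℝ φ x - ContinuousLinearMap.id ℝ (Ve D)‖ ^ 2
      ≤ ∫ x in ball (0 : Ve D) r', ∑ i : Fin D,
          ‖(ContinuousLinearMap.adjoint (fderiv ℝ φ x)) (EuclideanSpace.basisFun (Fin D) ℝ i) -
            EuclideanSpace.basisFun (Fin D) ℝ i‖ ^ 2 := by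
        refine setIntegral_mono_on ?_ ?_ measurableSet_ball ?_
        · exact hic _ ((hcd.sub continuousOn_const).norm.pow 2)
        · exact hic _ (continuousOn_finset_sum _ fun i _ => hcp _)
        · intro x _
          have := V4_aux_hs (fderiv ℝ φ x - ContinuousLinearMap.id ℝ (Ve D))
          simp only [hadj] at this
          exact this
    _ = ∑ i : Fin D, ∫ x in ball (0 : Ve D) r',
          ‖(ContinuousLinearMap.adjoint (fderiv ℝ φ x)) (EuclideanSpace.basisFun (Fin D) ℝ i) -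
            EuclideanSpace.basisFun (Fin D) ℝ i‖ ^ 2 := by
        rw [integral_finset_sum]
        intro i _
        exact hic _ (hcp _)
    _ ≤ ∑ _i : Fin D, 16 * C₁ ^ 2 * L ^ 2 * volume.real (ball (0 : Ve D) r) * δ ^ 2 := by
        refine Finset.sum_le_sum fun i _ => key _ ?_
        exact (EuclideanSpace.basisFun (Fin D) ℝ).orthonormal.1 i
    _ = D * (16 * C₁ ^ 2 * L ^ 2 * volume.real (ball (0 : Ve D) r)) * δ ^ 2 := by
        rw [Finset.sum_const, Finset.card_univ, Fintype.card_fin, nsmul_eq_mul]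
        ring
    _ ≤ _ := by nlinarith [sq_nonneg δ]

end Pool.Agent.H779R2.Li
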