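import Pool.Agent.H779R2.Li.V2

set_option autoImplicit false

namespace Pool.Agent.H779R2.Li

open Filter Topology MeasureTheory Metric
open scoped BigOperators

variable {D : ℕ}

theorem V5_aux_conf {A : Ve D →L[ℝ] Ve D} {c : ℝ} (hc : 0 ≤ c) (h : ∀ v, ‖A v‖ = c * ‖v‖) :
    Conf A := by
  intro v
  by_cases hv : v = 0
  · simp [hv]
  · have hv' : 0 < ‖v‖ := norm_pos_iff.mpr hv
    have h1 : ‖A‖ ≤ c := ContinuousLinearMap.opNorm_le_bound _ hc fun w => (h w).le
    have h2 : c ≤ ‖A‖ := by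
      have := A.le_opNorm v
      rw [h v] at this
      exact le_of_mul_le_mul_right this hv'
    rw [h v, le_antisymm h1 h2]

theorem V5_aux_inv {r : ℝ} (hr : 0 < r) {h : Ve D → Ve D} (H : CM r h) :
    ∃ (g : Ve D → Ve D) (R : ℝ) (ρ : ℝ), 0 < R ∧ 0 < ρ ∧ ρ < r ∧
      ContDiffOn ℝ 1 g (ball (h 0) R) ∧
      (∀ y ∈ ball (h 0) R, g y ∈ ball (0 : Ve D) r ∧ h (g y) = y) ∧
      (∀ x ∈ ball (0 : Ve D) ρ, h x ∈ ball (h 0) (R / 2) ∧ g (h x) = x) := by
  have h0 : (0 : Ve D) ∈ ball (0 : Ve D) r := mem_ball_self hr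
  have hc0 : ContDiffAt ℝ 1 h 0 := H.c1.contDiffAt (isOpen_ball.mem_nhds h0)
  have hinv := fun v => (H.conf 0 h0).inverse_apply (H.ne 0 h0) v
  let A : Ve D ≃L[ℝ] Ve D := ContinuousLinearEquiv.equivOfInverse (fderiv ℝ h 0)
    (fderiv ℝ h 0).inverse (fun v => (hinv v).2.1) (fun v => (hinv v).1)
  have hA : HasFDerivAt h (A : Ve D →L[ℝ] Ve D) 0 := by
    have h1 : (A : Ve D →L[ℝ] Ve D) = fderiv ℝ h 0 := by
      ext v; rfl
    rw [h1]
    exact (hc0.differentiableAt one_ne_zero).hasFDerivAt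
  let P := hc0.toOpenPartialHomeomorph h hA one_ne_zero
  have hPs : (0 : Ve D) ∈ P.source := hc0.mem_toOpenPartialHomeomorph_source hA one_ne_zero
  have hPt : h 0 ∈ P.target := hc0.image_mem_toOpenPartialHomeomorph_target hA one_ne_zero
  have hPc : ∀ x, P x = h x := fun x => rfl
  have hPl : ∀ x ∈ P.source, P.symm (h x) = x := fun x hx => P.left_inv hx
  have hPr : ∀ y ∈ P.target, h (P.symm y) = y := fun y hy => P.right_inv hy
  have hgc : ContDiffAt ℝ 1 P.symm (h 0) := by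
    refine P.contDiffAt_symm hPt (f₀' := A) ?_ ?_
    · rw [show P.symm (h 0) = 0 from hPl 0 hPs]; exact hA
    · rw [show P.symm (h 0) = 0 from hPl 0 hPs]; exact hc0
  have hg0 : P.symm (h 0) = 0 := hPl 0 hPs
  have ev : ∀ᶠ y in 𝓝 (h 0), ContDiffAt ℝ 1 P.symm y ∧ y ∈ P.target ∧
      P.symm y ∈ ball (0 : Ve D) r := by
    have e1 : ∀ᶠ y in 𝓝 (h 0), y ∈ P.target := P.open_target.mem_nhds hPt
    have e2 : ∀ᶠ y in 𝓝 (h 0), P.symm y ∈ ball (0 : Ve D) r := by
      apply hgc.continuousAt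
      rw [hg0]
      exact isOpen_ball.mem_nhds h0
    exact (hgc.eventually (by simp)).and (e1.and e2)
  obtain ⟨R, hR, hRb⟩ := Metric.eventually_nhds_iff_ball.mp ev
  have ev2 : ∀ᶠ x in 𝓝 (0 : Ve D), x ∈ P.source ∧ h x ∈ ball (h 0) (R / 2) := by
    have e1 : ∀ᶠ y in 𝓝 (0 : Ve D), y ∈ P.source := P.open_source.mem_nhds hPs
    have e2 : ∀ᶠ y in 𝓝 (0 : Ve D), h y ∈ ball (h 0) (R / 2) :=
      hc0.continuousAt (isOpen_ball.mem_nhds (mem_ball_self (by positivity)))
    exact e1.and e2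
  obtain ⟨ρ, hρ, hρb⟩ := Metric.eventually_nhds_iff_ball.mp ev2
  refine ⟨P.symm, R, min ρ (r / 2), hR, lt_min hρ (by positivity), ?_, ?_, ?_, ?_⟩
  · exact lt_of_le_of_lt (min_le_right _ _) (by linarith)
  · intro y hy
    exact (hRb y hy).1.contDiffWithinAt
  · intro y hy
    exact ⟨(hRb y hy).2.2, hPr y (hRb y hy).2.1⟩
  · intro x hx
    have := hρb x (ball_subset_ball (min_le_left _ _) hx)
    exact ⟨this.2, hPl x this.1⟩

/-- V5: the maps `h⁻¹(h x + t e)`. -/
theorem exists_flow {r : ℝ} (hr : 0 < r) {h : Ve D → Ve D} (H : CM r h) (e : Ve D) :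
    ∃ r₁ > 0, r₁ < r ∧ ∃ t₀ > 0, ∃ C > 0, ∃ φ : ℝ → Ve D → Ve D, (∀ t, |t| ≤ t₀ →
      CM r₁ (φ t) ∧ Set.InjOn (φ t) (ball 0 r₁) ∧
      (∀ x ∈ ball (0 : Ve D) r₁, ‖φ t x - x‖ ≤ C * |t|) ∧
      ∀ x ∈ ball (0 : Ve D) r₁, ‖fderiv ℝ (φ t) x - ContinuousLinearMap.id ℝ (Ve D)‖ ≤ 1 / 4) ∧
      ∀ η > 0, ∃ t₁ > 0, t₁ ≤ t₀ ∧ ∀ t, |t| ≤ t₁ → ∀ x ∈ ball (0 : Ve D) r₁,
        ‖φ t x - x - t • Wv h e x‖ ≤ η * |t| := by
  obtain ⟨g, R, ρ, hR, hρ, hρr, hgc, hgR, hgρ⟩ := V5_aux_inv hr H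
  have hgd : ∀ y ∈ ball (h 0) R, HasFDerivAt g (fderiv ℝ g y) y := fun y hy =>
    ((hgc.differentiableOn one_ne_zero).differentiableAt (isOpen_ball.mem_nhds hy)).hasFDerivAt
  have hhd : ∀ x ∈ ball (0 : Ve D) r, HasFDerivAt h (fderiv ℝ h x) x := fun x hx =>
    ((H.c1.differentiableOn one_ne_zero).differentiableAt (isOpen_ball.mem_nhds hx)).hasFDerivAt
  -- the derivative of the inverse
  have hhg : ∀ y ∈ ball (h 0) R, ∀ v, fderiv ℝ h (g y) (fderiv ℝ g y v) = v := by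
    intro y hy v
    have h1 := (hhd (g y) (hgR y hy).1).comp y (hgd y hy)
    have h2 : h ∘ g =ᶠ[𝓝 y] id := by
      filter_upwards [isOpen_ball.mem_nhds hy] with z hz using (hgR z hz).2
    have h3 : HasFDerivAt (h ∘ g) (ContinuousLinearMap.id ℝ (Ve D)) y :=
      (hasFDerivAt_id y).congr_of_eventuallyEq h2
    have h4 := h1.unique h3
    exact congrArg (fun B : Ve D →L[ℝ] Ve D => B v) h4
  have hgh : ∀ x ∈ ball (0 : Ve D) ρ, ∀ v, fderiv ℝ g (h x) (fderiv ℝ h x v) = v := by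
    intro x hx v
    have hxr : x ∈ ball (0 : Ve D) r := ball_subset_ball hρr.le hx
    have hhx : h x ∈ ball (h 0) R := ball_subset_ball (by linarith) (hgρ x hx).1
    have h1 := (hgd (h x) hhx).comp x (hhd x hxr)
    have h2 : g ∘ h =ᶠ[𝓝 x] id := by
      filter_upwards [isOpen_ball.mem_nhds hx] with z hz using (hgρ z hz).2
    have h3 : HasFDerivAt (g ∘ h) (ContinuousLinearMap.id ℝ (Ve D)) x :=
      (hasFDerivAt_id x).congr_of_eventuallyEq h2
    have h4 := h1.unique h3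
    exact congrArg (fun B : Ve D →L[ℝ] Ve D => B v) h4
  have hW : ∀ x ∈ ball (0 : Ve D) ρ, Wv h e x = fderiv ℝ g (h x) e := by
    intro x hx
    have hxr : x ∈ ball (0 : Ve D) r := ball_subset_ball hρr.le hx
    have hhx : h x ∈ ball (h 0) R := ball_subset_ball (by linarith) (hgρ x hx).1
    have h1 := hhg (h x) hhx e
    rw [(hgρ x hx).2] at h1
    unfold Wv
    have h2 := ((H.conf x hxr).inverse_apply (H.ne x hxr) (fderiv ℝ g (h x) e)).2.1
    rw [h1] at h2
    exact h2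
  -- compactness
  have hcg' : ContinuousOn (fderiv ℝ g) (ball (h 0) R) :=
    hgc.continuousOn_fderiv_of_isOpen isOpen_ball le_rfl
  have hKs : closedBall (h 0) (3 * R / 4) ⊆ ball (h 0) R := closedBall_subset_ball (by linarith)
  have hKc : IsCompact (closedBall (h 0) (3 * R / 4)) := isCompact_closedBall _ _
  have hcg : ContinuousOn (fderiv ℝ g) (closedBall (h 0) (3 * R / 4)) := hcg'.mono hKs
  obtain ⟨K, hK⟩ := hKc.exists_bound_of_continuousOn hcg
  have hK0 : 0 ≤ K := (norm_nonneg _).trans (hK (h 0) (mem_closedBall_self (by positivity)))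
  have huc : UniformContinuousOn (fderiv ℝ g) (closedBall (h 0) (3 * R / 4)) :=
    hKc.uniformContinuousOn_of_continuous hcg
  have hch' : ContinuousOn (fderiv ℝ h) (ball 0 r) :=
    H.c1.continuousOn_fderiv_of_isOpen isOpen_ball le_rfl
  obtain ⟨K', hK'⟩ := (isCompact_closedBall (0 : Ve D) ρ).exists_bound_of_continuousOn
    (hch'.mono (closedBall_subset_ball hρr))
  have hK'0 : 0 ≤ K' := (norm_nonneg _).trans (hK' 0 (mem_closedBall_self hρ.le))
  -- segments
  have hseg : ∀ x ∈ ball (0 : Ve D) ρ, ∀ t : ℝ, |t| * (‖e‖ + 1) ≤ R / 4 →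
      h x + t • e ∈ closedBall (h 0) (3 * R / 4) := by
    intro x hx t ht
    have h1 := (hgρ x hx).1
    rw [mem_ball, dist_eq_norm] at h1
    rw [mem_closedBall, dist_eq_norm]
    have h2 : ‖t • e‖ ≤ R / 4 := by
      rw [norm_smul, Real.norm_eq_abs]
      nlinarith [abs_nonneg t]
    calc ‖h x + t • e - h 0‖ = ‖(h x - h 0) + t • e‖ := by congr 1; abel
      _ ≤ ‖h x - h 0‖ + ‖t • e‖ := norm_add_le _ _
      _ ≤ 3 * R / 4 := by linarith
  have hhx : ∀ x ∈ ball (0 : Ve D) ρ, h x ∈ closedBall (h 0) (3 * R / 4) := fun x hx =>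
    ball_subset_closedBall (ball_subset_ball (by linarith) (hgρ x hx).1)
  -- uniform closeness
  have hunif : ∀ ε : ℝ, 0 < ε → ∃ t₁ : ℝ, 0 < t₁ ∧ t₁ * (‖e‖ + 1) ≤ R / 4 ∧
      ∀ x ∈ ball (0 : Ve D) ρ, ∀ t : ℝ, |t| ≤ t₁ →
        ‖fderiv ℝ g (h x + t • e) - fderiv ℝ g (h x)‖ ≤ ε := by
    intro ε hε
    obtain ⟨d, hd, hd'⟩ := Metric.uniformContinuousOn_iff.mp huc ε hε
    have hpos : 0 < min (d / 2) (R / 4) / (‖e‖ + 1) := by positivity
    refine ⟨min (d / 2) (R / 4) / (‖e‖ + 1), hpos, ?_, ?_⟩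
    · rw [div_mul_cancel₀ _ (by positivity)]
      exact min_le_right _ _
    · intro x hx t ht
      have h1 : |t| * (‖e‖ + 1) ≤ min (d / 2) (R / 4) := by
        rwa [← le_div_iff₀ (by positivity)]
      have h2 := hd' (h x + t • e) (hseg x hx t (h1.trans (min_le_right _ _))) (h x) (hhx x hx) ?_
      · rw [dist_eq_norm] at h2
        exact h2.le
      · rw [dist_eq_norm, add_sub_cancel_left, norm_smul, Real.norm_eq_abs]
        have h3 : |t| * ‖e‖ ≤ |t| * (‖e‖ + 1) := by nlinarith [abs_nonneg t]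
        have h4 := h1.trans (min_le_left _ _)
        linarith
  obtain ⟨t₀, ht₀, ht₀R, ht₀'⟩ := hunif (1 / (4 * (K' + 1))) (by positivity)
  have hle0 : ∀ t : ℝ, |t| ≤ t₀ → |t| * (‖e‖ + 1) ≤ R / 4 := fun t ht =>
    (mul_le_mul_of_nonneg_right ht (by positivity)).trans ht₀R
  have hφd : ∀ t : ℝ, |t| ≤ t₀ → ∀ x ∈ ball (0 : Ve D) ρ,
      HasFDerivAt (fun x => g (h x + t • e)) ((fderiv ℝ g (h x + t • e)).comp (fderiv ℝ h x)) x := by
    intro t ht x hx
    have hxr : x ∈ ball (0 : Ve D) r := ball_subset_ball hρr.le hx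
    exact (hgd _ (hKs (hseg x hx t (hle0 t ht)))).comp x ((hhd x hxr).add_const (t • e))
  refine ⟨ρ, hρ, hρr, t₀, ht₀, K * ‖e‖ + 1, by positivity, fun t x => g (h x + t • e), ?_, ?_⟩
  · intro t ht
    refine ⟨⟨?_, ?_, ?_⟩, ?_, ?_, ?_⟩
    · -- C¹
      have h1 : ContDiffOn ℝ 1 (fun x => h x + t • e) (ball 0 ρ) :=
        (H.c1.mono (ball_subset_ball hρr.le)).add contDiffOn_const
      exact hgc.comp h1 fun x hx => hKs (hseg x hx t (hle0 t ht))
    · -- conformal
      intro x hx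
      have hxr : x ∈ ball (0 : Ve D) r := ball_subset_ball hρr.le hx
      have hy := hKs (hseg x hx t (hle0 t ht))
      rw [(hφd t ht x hx).fderiv]
      set y := h x + t • e with hyd
      have hgy := (hgR y hy).1
      have hn0 : 0 < ‖fderiv ℝ h (g y)‖ := norm_pos_iff.mpr (H.ne _ hgy)
      refine V5_aux_conf (c := ‖fderiv ℝ h x‖ / ‖fderiv ℝ h (g y)‖) (by positivity) fun v => ?_
      have h1 := hhg y hy (fderiv ℝ h x v)
      have h2 := H.conf (g y) hgy (fderiv ℝ g y (fderiv ℝ h x v))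
      rw [h1, H.conf x hxr v] at h2
      rw [ContinuousLinearMap.comp_apply, div_mul_eq_mul_div, eq_div_iff hn0.ne', h2]
      ring
    · -- nonzero
      intro x hx h0
      have hxr : x ∈ ball (0 : Ve D) r := ball_subset_ball hρr.le hx
      have hy := hKs (hseg x hx t (hle0 t ht))
      rw [(hφd t ht x hx).fderiv] at h0
      apply H.ne x hxr
      ext1 v
      have h1 := hhg _ hy (fderiv ℝ h x v)
      have h2 : (fderiv ℝ g (h x + t • e)) (fderiv ℝ h x v) = 0 :=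
        congrArg (fun B : Ve D →L[ℝ] Ve D => B v) h0
      rw [h2, map_zero] at h1
      rw [← h1]; rfl
    · -- injective
      intro x hx x' hx' hxx
      have hy := hKs (hseg x hx t (hle0 t ht))
      have hy' := hKs (hseg x' hx' t (hle0 t ht))
      have h1 : h x + t • e = h x' + t • e := by
        rw [← (hgR _ hy).2, ← (hgR _ hy').2]
        exact congrArg h hxx
      have h2 : h x = h x' := add_right_cancel h1
      rw [← (hgρ x hx).2, ← (hgρ x' hx').2, h2]
    · -- closeness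
      intro x hx
      have h1 := (convex_closedBall (h 0) (3 * R / 4)).norm_image_sub_le_of_norm_fderiv_le
        (𝕜 := ℝ) (f := g) (fun y hy => (hgd y (hKs hy)).differentiableAt) hK (hhx x hx)
        (hseg x hx t (hle0 t ht))
      rw [(hgρ x hx).2, add_sub_cancel_left, norm_smul, Real.norm_eq_abs] at h1
      calc ‖g (h x + t • e) - x‖ ≤ K * (|t| * ‖e‖) := h1
        _ ≤ (K * ‖e‖ + 1) * |t| := by nlinarith [abs_nonneg t]
    · -- derivative close to the identity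
      intro x hx
      rw [(hφd t ht x hx).fderiv]
      have h1 : (fderiv ℝ g (h x + t • e)).comp (fderiv ℝ h x) - ContinuousLinearMap.id ℝ (Ve D) =
          (fderiv ℝ g (h x + t • e) - fderiv ℝ g (h x)).comp (fderiv ℝ h x) := by
        ext1 v
        have := hgh x hx v
        simp only [sub_apply, ContinuousLinearMap.comp_apply, ContinuousLinearMap.id_apply, this]
      rw [h1]
      calc ‖(fderiv ℝ g (h x + t • e) - fderiv ℝ g (h x)).comp (fderiv ℝ h x)‖
          ≤ ‖fderiv ℝ g (h x + t • e) - fderiv ℝ g (h x)‖ * ‖fderiv ℝ h x‖ :=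
            ContinuousLinearMap.opNorm_comp_le _ _
        _ ≤ 1 / (4 * (K' + 1)) * K' := by
            gcongr
            · exact ht₀' x hx t ht
            · exact hK' x (ball_subset_closedBall hx)
        _ ≤ 1 / 4 := by
            rw [div_mul_eq_mul_div, div_le_div_iff₀ (by positivity) (by norm_num)]
            nlinarith
  · intro η hη
    obtain ⟨t₁, ht₁, ht₁R, ht₁'⟩ := hunif (η / (‖e‖ + 1)) (by positivity)
    refine ⟨min t₀ t₁, lt_min ht₀ ht₁, min_le_left _ _, ?_⟩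
    intro t ht x hx
    have htt : |t| ≤ t₁ := ht.trans (min_le_right _ _)
    have hseg' : ∀ z ∈ segment ℝ (h x) (h x + t • e), ∃ t' : ℝ, |t'| ≤ t₁ ∧ z = h x + t' • e := by
      intro z hz
      rw [segment_eq_image_lineMap] at hz
      obtain ⟨s, hs, rfl⟩ := hz
      refine ⟨s * t, ?_, ?_⟩
      · rw [abs_mul, abs_of_nonneg hs.1]
        calc s * |t| ≤ 1 * |t| := mul_le_mul_of_nonneg_right hs.2 (abs_nonneg _)
          _ ≤ t₁ := by linarith
      · rw [AffineMap.lineMap_apply, vsub_eq_sub, vadd_eq_add, add_sub_cancel_left, smul_smul,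
          add_comm]
    have h1 := (convex_segment (𝕜 := ℝ) (h x) (h x + t • e)).norm_image_sub_le_of_norm_fderiv_le'
      (𝕜 := ℝ) (f := g) (φ := fderiv ℝ g (h x)) (C := η / (‖e‖ + 1)) (x := h x)
      (y := h x + t • e) ?_ ?_ (left_mem_segment ℝ _ _) (right_mem_segment ℝ _ _)
    · rw [(hgρ x hx).2, add_sub_cancel_left, map_smul, ← hW x hx, norm_smul,
        Real.norm_eq_abs] at h1
      calc ‖g (h x + t • e) - x - t • Wv h e x‖ ≤ η / (‖e‖ + 1) * (|t| * ‖e‖) := h1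
        _ = η * |t| * (‖e‖ / (‖e‖ + 1)) := by ring
        _ ≤ η * |t| * 1 := by
            gcongr
            rw [div_le_one (by positivity)]
            linarith
        _ = η * |t| := mul_one _
    · intro z hz
      obtain ⟨t', ht', rfl⟩ := hseg' z hz
      exact (hgd _ (hKs (hseg x hx t' ((mul_le_mul_of_nonneg_right ht' (by positivity)).trans
        ht₁R)))).differentiableAt
    · intro z hz
      obtain ⟨t', ht', rfl⟩ := hseg' z hz
      exact ht₁' x hx t' ht'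

end Pool.Agent.H779R2.Li
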