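import Pool.Agent.H779R2.Li.V4
import Pool.Agent.H779R2.Li.V5

set_option autoImplicit false

namespace Pool.Agent.H779R2.Li

open Filter Topology MeasureTheory Metric
open scoped BigOperators

variable {D : ℕ}

theorem V6_aux_int {g : Ve D → ℝ} {K s : Set (Ve D)} (hK : IsCompact K) (hs : K ⊆ s)
    (hg : ContinuousOn g s) (h0 : ∀ x, x ∉ K → g x = 0) : Integrable g := by
  have h1 : IntegrableOn g K := (hg.mono hs).integrableOn_compact hK
  rwa [integrableOn_iff_integrable_of_support_subset] at h1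
  intro x hx
  by_contra hc
  exact hx (h0 x hc)

theorem V6_aux_div (hD : 2 ≤ D) {ρ : ℝ} (u : Ve D → ℝ) (hu : ContDiff ℝ 1 u)
    (hc : HasCompactSupport u) (hs : tsupport u ⊆ ball 0 ρ) (a : Ve D) :
    ∫ x, fderiv ℝ u x a = 0 := by
  have : Nontrivial (Ve D) := by
    have : Nonempty (Fin D) := ⟨⟨0, by omega⟩⟩
    infer_instance
  have h3 := weak_harm hD (V4_aux_id hD ρ) (fun x _ y _ h => h) u hu hc hs a
  have hf : ∀ x : Ve D, fderiv ℝ (fun x : Ve D => x) x = ContinuousLinearMap.id ℝ (Ve D) :=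
    fun x => fderiv_fun_id
  rw [← h3]
  congr 1
  funext x
  rw [hf, ContinuousLinearMap.norm_id, one_pow, one_mul]
  have : (ContinuousLinearMap.adjoint (ContinuousLinearMap.id ℝ (Ve D))) a = a := by
    refine ext_inner_right ℝ fun v => ?_
    rw [ContinuousLinearMap.adjoint_inner_left]; rfl
  rw [this]

theorem V6_aux_parts (hD : 2 ≤ D) {ρ : ℝ} {f : Ve D → Ve D} (hf : ContDiffOn ℝ 1 f (ball 0 ρ))
    (ψ : Ve D → ℝ) (hψ : ContDiff ℝ 1 ψ) (hc : HasCompactSupport ψ)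
    (hs : tsupport ψ ⊆ ball 0 ρ) (a b : Ve D) :
    Integrable (fun x => fderiv ℝ ψ x a * inner ℝ (f x) b) ∧
    Integrable (fun x => ψ x * inner ℝ (fderiv ℝ f x a) b) ∧
    ∫ x, fderiv ℝ ψ x a * inner ℝ (f x) b = - ∫ x, ψ x * inner ℝ (fderiv ℝ f x a) b := by
  have hψ0 : ∀ x, x ∉ tsupport ψ → ψ =ᶠ[𝓝 x] 0 := fun x hx =>
    notMem_tsupport_iff_eventuallyEq.mp hx
  have hψd0 : ∀ x, x ∉ tsupport ψ → fderiv ℝ ψ x = 0 := fun x hx => by
    rw [(hψ0 x hx).fderiv_eq]; simp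
  have hfd : ∀ x ∈ ball (0 : Ve D) ρ, HasFDerivAt f (fderiv ℝ f x) x := fun x hx =>
    ((hf.differentiableOn one_ne_zero).differentiableAt (isOpen_ball.mem_nhds hx)).hasFDerivAt
  have hfc : ContinuousOn (fderiv ℝ f) (ball 0 ρ) :=
    hf.continuousOn_fderiv_of_isOpen isOpen_ball le_rfl
  have hψc : Continuous (fderiv ℝ ψ) := hψ.continuous_fderiv one_ne_zero
  have hi1 : Integrable (fun x => fderiv ℝ ψ x a * inner ℝ (f x) b) := by
    refine V6_aux_int hc hs ?_ ?_
    · exact (hψc.continuousOn.clm_apply continuousOn_const).mul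
        (hf.continuousOn.inner (𝕜 := ℝ) continuousOn_const)
    · intro x hx; rw [hψd0 x hx]; simp
  have hi2 : Integrable (fun x => ψ x * inner ℝ (fderiv ℝ f x a) b) := by
    refine V6_aux_int hc hs ?_ ?_
    · exact hψ.continuous.continuousOn.mul
        ((hfc.clm_apply continuousOn_const).inner (𝕜 := ℝ) continuousOn_const)
    · intro x hx
      have : ψ x = 0 := (hψ0 x hx).self_of_nhds
      rw [this, zero_mul]
  refine ⟨hi1, hi2, ?_⟩
  set u : Ve D → ℝ := fun x => ψ x * inner ℝ (f x) b with hu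
  have hu0 : ∀ x, x ∉ tsupport ψ → u =ᶠ[𝓝 x] 0 := fun x hx => by
    filter_upwards [hψ0 x hx] with y hy
    simp [hu, hy]
  have huc : ContDiff ℝ 1 u := by
    rw [contDiff_iff_contDiffAt]
    intro x
    by_cases hx : x ∈ ball (0 : Ve D) ρ
    · exact hψ.contDiffAt.mul ((hf.contDiffAt (isOpen_ball.mem_nhds hx)).inner ℝ contDiffAt_const)
    · have hx' : x ∉ tsupport ψ := fun h => hx (hs h)
      exact (contDiffAt_const (c := (0 : ℝ))).congr_of_eventuallyEq (hu0 x hx')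
  have hus : tsupport u ⊆ tsupport ψ := by
    refine closure_minimal ?_ (isClosed_tsupport ψ)
    intro x hx
    by_contra hcon
    exact hx (hu0 x hcon).self_of_nhds
  have hucs : HasCompactSupport u := HasCompactSupport.intro hc fun x hx =>
    (hu0 x hx).self_of_nhds
  have hud : ∀ x, fderiv ℝ u x a = ψ x * inner ℝ (fderiv ℝ f x a) b +
      fderiv ℝ ψ x a * inner ℝ (f x) b := by
    intro x
    by_cases hx : x ∈ ball (0 : Ve D) ρ
    · have h1 := (innerSL ℝ b).hasFDerivAt.comp x (hfd x hx)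
      have h2 : (fun x => inner ℝ (f x) b) = (innerSL ℝ b) ∘ f := by
        funext y; simp only [Function.comp_apply, innerSL_apply_apply]; exact real_inner_comm _ _
      have hψ' : HasFDerivAt ψ (fderiv ℝ ψ x) x := (hψ.differentiable one_ne_zero x).hasFDerivAt
      have h3 := hψ'.mul h1
      have h4 : u = fun y => ψ y * ((innerSL ℝ b) ∘ f) y := by rw [hu, ← h2]
      rw [h4]
      have h5 : fderiv ℝ (fun y => ψ y * ((innerSL ℝ b) ∘ f) y) x = _ := h3.fderiv
      rw [h5]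
      simp only [add_apply, smul_apply, ContinuousLinearMap.comp_apply, innerSL_apply_apply,
        smul_eq_mul, Function.comp_apply, real_inner_comm]
      ring
    · have hx' : x ∉ tsupport ψ := fun h => hx (hs h)
      have h1 : ψ x = 0 := (hψ0 x hx').self_of_nhds
      rw [(hu0 x hx').fderiv_eq, hψd0 x hx', h1]
      simp
  have h0 := V6_aux_div hD u huc hucs (hus.trans hs) a
  simp only [hud] at h0
  rw [integral_add hi2 hi1] at h0
  linarith

theorem V6_aux_key (hD : 2 ≤ D) {r₁ r₂ : ℝ} (hr : r₂ < r₁) {K : Ve D → Ve D}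
    (hK : ContinuousOn K (ball 0 r₁)) (f : ℝ → Ve D → Ve D) (t₀ : ℝ) (ht₀ : 0 < t₀)
    (hf : ∀ t, |t| ≤ t₀ → ContDiffOn ℝ 1 (f t) (ball 0 r₁)) (a₁ b₁ a₂ b₂ : Ve D) (s c C : ℝ)
    (hc0 : 0 ≤ c) (hC0 : 0 ≤ C)
    (hE : ∀ t, |t| ≤ t₀ → ∀ x ∈ ball (0 : Ve D) r₁,
      |inner ℝ (fderiv ℝ (f t) x a₁) b₁ + s * inner ℝ (fderiv ℝ (f t) x a₂) b₂| ≤
        c * ‖fderiv ℝ (f t) x‖ ^ 2)
    (hint : ∀ t, |t| ≤ t₀ → ∫ x in ball (0 : Ve D) r₂, ‖fderiv ℝ (f t) x‖ ^ 2 ≤ C * t ^ 2)
    (hcl : ∀ η > 0, ∃ t₁ > 0, t₁ ≤ t₀ ∧ ∀ t, |t| ≤ t₁ → ∀ x ∈ ball (0 : Ve D) r₁,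
        ‖f t x - t • K x‖ ≤ η * |t|)
    (ψ : Ve D → ℝ) (hψ : ContDiff ℝ 1 ψ) (hc : HasCompactSupport ψ)
    (hs : tsupport ψ ⊆ ball 0 r₂) :
    ∫ x, (fderiv ℝ ψ x a₁ * inner ℝ (K x) b₁ + s * (fderiv ℝ ψ x a₂ * inner ℝ (K x) b₂)) = 0 := by
  have hs1 : tsupport ψ ⊆ ball 0 r₁ := hs.trans (ball_subset_ball hr.le)
  have hψ0 : ∀ x, x ∉ tsupport ψ → ψ =ᶠ[𝓝 x] 0 := fun x hx =>
    notMem_tsupport_iff_eventuallyEq.mp hx
  have hψd0 : ∀ x, x ∉ tsupport ψ → fderiv ℝ ψ x = 0 := fun x hx => by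
    rw [(hψ0 x hx).fderiv_eq]; simp
  have hψc : Continuous (fderiv ℝ ψ) := hψ.continuous_fderiv one_ne_zero
  obtain ⟨M, hM⟩ := hc.exists_bound_of_continuous hψ.continuous
  have hM0 : 0 ≤ M := (norm_nonneg _).trans (hM 0)
  have hiK : ∀ a b : Ve D, Integrable (fun x => fderiv ℝ ψ x a * inner ℝ (K x) b) := by
    intro a b
    refine V6_aux_int hc hs1 ?_ ?_
    · exact (hψc.continuousOn.clm_apply continuousOn_const).mul
        (hK.inner (𝕜 := ℝ) continuousOn_const)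
    · intro x hx; rw [hψd0 x hx]; simp
  set q : Ve D → ℝ := fun x => |fderiv ℝ ψ x a₁| * ‖b₁‖ + |s| * (|fderiv ℝ ψ x a₂| * ‖b₂‖) with hq
  have hqi : Integrable q := by
    refine V6_aux_int hc (Set.subset_univ _) ?_ ?_
    · have h1 : ∀ a : Ve D, Continuous fun x => |fderiv ℝ ψ x a| := fun a =>
        (hψc.clm_apply continuous_const).abs
      exact (((h1 a₁).mul continuous_const).add
        (continuous_const.mul ((h1 a₂).mul continuous_const))).continuousOn
    · intro x hx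
      simp only [hq]
      rw [hψd0 x hx]; simp
  have hq0 : 0 ≤ ∫ x, q x := integral_nonneg fun x => by
    simp only [hq]; positivity
  set I := ∫ x, (fderiv ℝ ψ x a₁ * inner ℝ (K x) b₁ +
    s * (fderiv ℝ ψ x a₂ * inner ℝ (K x) b₂)) with hI
  -- main estimate
  have main : ∀ η > 0, ∀ τ > 0, |I| ≤ η * (∫ x, q x) + M * c * C * τ := by
    intro η hη τ hτ
    obtain ⟨t₁, ht₁, ht₁₀, hcl'⟩ := hcl η hη
    set t := min t₁ τ with ht
    have ht0 : 0 < t := lt_min ht₁ hτ
    have htt₁ : |t| ≤ t₁ := by rw [abs_of_pos ht0]; exact min_le_left _ _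
    have htt₀ : |t| ≤ t₀ := htt₁.trans ht₁₀
    obtain ⟨h11, h12, h13⟩ := V6_aux_parts hD (hf t htt₀) ψ hψ hc hs1 a₁ b₁
    obtain ⟨h21, h22, h23⟩ := V6_aux_parts hD (hf t htt₀) ψ hψ hc hs1 a₂ b₂
    set J := ∫ x, (fderiv ℝ ψ x a₁ * inner ℝ (f t x) b₁ +
      s * (fderiv ℝ ψ x a₂ * inner ℝ (f t x) b₂)) with hJ
    have hJ1 : J = - ∫ x in ball (0 : Ve D) r₂, ψ x * (inner ℝ (fderiv ℝ (f t) x a₁) b₁ +
        s * inner ℝ (fderiv ℝ (f t) x a₂) b₂) := by
      rw [setIntegral_eq_integral_of_forall_compl_eq_zero]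
      · rw [hJ, integral_add h11 (h21.const_mul s), integral_const_mul, h13, h23]
        have h3 : (fun x => ψ x * (inner ℝ (fderiv ℝ (f t) x a₁) b₁ +
            s * inner ℝ (fderiv ℝ (f t) x a₂) b₂)) = fun x =>
            ψ x * inner ℝ (fderiv ℝ (f t) x a₁) b₁ +
              s * (ψ x * inner ℝ (fderiv ℝ (f t) x a₂) b₂) := by
          funext x; ring
        rw [h3, integral_add h12 (h22.const_mul s), integral_const_mul]
        ring
      · intro x hx
        have : ψ x = 0 := (hψ0 x fun h => hx (hs h)).self_of_nhds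
        rw [this, zero_mul]
    have hJb : |J| ≤ M * c * C * t ^ 2 := by
      rw [hJ1, abs_neg, ← Real.norm_eq_abs]
      have hfc : ContinuousOn (fderiv ℝ (f t)) (ball 0 r₁) :=
        (hf t htt₀).continuousOn_fderiv_of_isOpen isOpen_ball le_rfl
      have hib : IntegrableOn (fun x => ‖fderiv ℝ (f t) x‖ ^ 2) (ball (0 : Ve D) r₂) :=
        (((hfc.norm.pow 2).mono (closedBall_subset_ball hr)).integrableOn_compact
          (isCompact_closedBall 0 r₂)).mono_set ball_subset_closedBall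
      calc ‖∫ x in ball (0 : Ve D) r₂, ψ x * (inner ℝ (fderiv ℝ (f t) x a₁) b₁ +
            s * inner ℝ (fderiv ℝ (f t) x a₂) b₂)‖
          ≤ ∫ x in ball (0 : Ve D) r₂, M * c * ‖fderiv ℝ (f t) x‖ ^ 2 := by
            refine norm_integral_le_of_norm_le (hib.const_mul _) ?_
            refine (ae_restrict_iff' measurableSet_ball).mpr (Eventually.of_forall fun x hx => ?_)
            rw [norm_mul, mul_assoc]
            exact mul_le_mul (hM x) (hE t htt₀ x (ball_subset_ball hr.le hx)) (norm_nonneg _) hM0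
        _ = M * c * ∫ x in ball (0 : Ve D) r₂, ‖fderiv ℝ (f t) x‖ ^ 2 := by
            rw [integral_const_mul]
        _ ≤ M * c * (C * t ^ 2) := mul_le_mul_of_nonneg_left (hint t htt₀) (by positivity)
        _ = _ := by ring
    have hdiff : |J - t * I| ≤ η * t * ∫ x, q x := by
      have hA : Integrable (fun x => fderiv ℝ ψ x a₁ * inner ℝ (f t x) b₁ +
          s * (fderiv ℝ ψ x a₂ * inner ℝ (f t x) b₂)) := h11.add (h21.const_mul s)
      have hB : Integrable (fun x => t * (fderiv ℝ ψ x a₁ * inner ℝ (K x) b₁ +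
          s * (fderiv ℝ ψ x a₂ * inner ℝ (K x) b₂))) :=
        ((hiK a₁ b₁).add ((hiK a₂ b₂).const_mul s)).const_mul t
      rw [hJ, hI, ← integral_const_mul, ← integral_sub hA hB, ← Real.norm_eq_abs,
        ← integral_const_mul]
      refine norm_integral_le_of_norm_le (hqi.const_mul _) (Eventually.of_forall fun x => ?_)
      by_cases hx : x ∈ ball (0 : Ve D) r₁
      · have h1 := hcl' t htt₁ x hx
        rw [abs_of_pos ht0] at h1
        have h2 : (fderiv ℝ ψ x a₁ * inner ℝ (f t x) b₁ +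
            s * (fderiv ℝ ψ x a₂ * inner ℝ (f t x) b₂)) -
            t * (fderiv ℝ ψ x a₁ * inner ℝ (K x) b₁ + s * (fderiv ℝ ψ x a₂ * inner ℝ (K x) b₂)) =
            fderiv ℝ ψ x a₁ * inner ℝ (f t x - t • K x) b₁ +
              s * (fderiv ℝ ψ x a₂ * inner ℝ (f t x - t • K x) b₂) := by
          rw [inner_sub_left, inner_sub_left, real_inner_smul_left, real_inner_smul_left]
          ring
        have h3 : ∀ b : Ve D, |inner ℝ (f t x - t • K x) b| ≤ η * t * ‖b‖ := fun b =>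
          (abs_real_inner_le_norm _ _).trans (mul_le_mul_of_nonneg_right h1 (norm_nonneg _))
        change ‖(fderiv ℝ ψ x a₁ * inner ℝ (f t x) b₁ +
            s * (fderiv ℝ ψ x a₂ * inner ℝ (f t x) b₂)) -
            t * (fderiv ℝ ψ x a₁ * inner ℝ (K x) b₁ +
              s * (fderiv ℝ ψ x a₂ * inner ℝ (K x) b₂))‖ ≤ η * t * q x
        rw [h2, Real.norm_eq_abs]
        calc |fderiv ℝ ψ x a₁ * inner ℝ (f t x - t • K x) b₁ +
              s * (fderiv ℝ ψ x a₂ * inner ℝ (f t x - t • K x) b₂)|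
            ≤ |fderiv ℝ ψ x a₁ * inner ℝ (f t x - t • K x) b₁| +
              |s * (fderiv ℝ ψ x a₂ * inner ℝ (f t x - t • K x) b₂)| := abs_add_le _ _
          _ = |fderiv ℝ ψ x a₁| * |inner ℝ (f t x - t • K x) b₁| +
              |s| * (|fderiv ℝ ψ x a₂| * |inner ℝ (f t x - t • K x) b₂|) := by
              rw [abs_mul, abs_mul, abs_mul]
          _ ≤ |fderiv ℝ ψ x a₁| * (η * t * ‖b₁‖) + |s| * (|fderiv ℝ ψ x a₂| * (η * t * ‖b₂‖)) := by
              gcongr
              · exact h3 b₁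
              · exact h3 b₂
          _ = η * t * q x := by simp only [hq]; ring
      · have h1 : fderiv ℝ ψ x = 0 := hψd0 x fun h => hx (hs1 h)
        simp only [hq, h1]
        simp
    have h4 : t * |I| ≤ t * (η * (∫ x, q x) + M * c * C * τ) := by
      have h5 : |t * I| ≤ |J| + |J - t * I| := by
        calc |t * I| = |J - (J - t * I)| := by congr 1; ring
          _ ≤ |J| + |J - t * I| := abs_sub _ _
      rw [abs_mul, abs_of_pos ht0] at h5
      have h6 : t ≤ τ := min_le_right _ _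
      have h7 : M * c * C * t ^ 2 ≤ t * (M * c * C * τ) := by
        calc M * c * C * t ^ 2 = (M * c * C * t) * t := by ring
          _ ≤ (M * c * C * t) * τ := mul_le_mul_of_nonneg_left h6 (by positivity)
          _ = t * (M * c * C * τ) := by ring
      nlinarith
    exact le_of_mul_le_mul_left h4 ht0
  -- conclusion
  by_contra hne
  have hpos : 0 < |I| := abs_pos.mpr hne
  have h1 := main (|I| / (3 * ((∫ x, q x) + 1))) (by positivity)
    (|I| / (3 * (M * c * C + 1))) (by positivity)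
  have h2 : |I| / (3 * ((∫ x, q x) + 1)) * (∫ x, q x) ≤ |I| / 3 := by
    rw [div_mul_eq_mul_div, div_le_div_iff₀ (by positivity) (by norm_num)]
    nlinarith
  have h3 : M * c * C * (|I| / (3 * (M * c * C + 1))) ≤ |I| / 3 := by
    rw [mul_div_assoc', div_le_div_iff₀ (by positivity) (by norm_num)]
    nlinarith
  linarith

theorem V6_aux_cont {r : ℝ} {h : Ve D → Ve D} (H : CM r h) (e : Ve D) :
    ContinuousOn (Wv h e) (ball 0 r) := by
  intro x hx
  have hinv := fun v => (H.conf x hx).inverse_apply (H.ne x hx) v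
  let A : Ve D ≃L[ℝ] Ve D := ContinuousLinearEquiv.equivOfInverse (fderiv ℝ h x)
    (fderiv ℝ h x).inverse (fun v => (hinv v).2.1) (fun v => (hinv v).1)
  have hA : (A : Ve D →L[ℝ] Ve D) = fderiv ℝ h x := by
    ext v; rfl
  have h1 : ContinuousAt (ContinuousLinearMap.inverse : (Ve D →L[ℝ] Ve D) → _)
      (fderiv ℝ h x) := by
    rw [← hA]
    exact (contDiffAt_map_inverse (𝕜 := ℝ) (n := 1) A).continuousAt
  have h2 : ContinuousWithinAt (fderiv ℝ h) (ball 0 r) x :=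
    (H.c1.continuousOn_fderiv_of_isOpen isOpen_ball le_rfl) x hx
  have h3 : ContinuousWithinAt (fun x => (fderiv ℝ h x).inverse) (ball 0 r) x :=
    h1.comp_continuousWithinAt h2
  exact h3.clm_apply continuousWithinAt_const

/-- V6: the inverse derivative gives weak conformal vector fields. -/
theorem weak_kill (hD : 2 ≤ D) {r : ℝ} (hr : 0 < r) {h : Ve D → Ve D} (H : CM r h) (e : Ve D) :
    ∃ r₂ > 0, r₂ < r ∧ WK r₂ (Wv h e) := by
  obtain ⟨r₁, hr₁, hr₁r, t₀, ht₀, C, hC, φ, hφ, hcl⟩ := exists_flow hr H e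
  obtain ⟨C₄, hC₄, hcac⟩ := cacc hD (r := r₁) (r' := r₁ / 2) (by positivity) (by linarith)
  have hcont : ContinuousOn (Wv h e) (ball 0 r) := V6_aux_cont H e
  set f : ℝ → Ve D → Ve D := fun t x => φ t x - x with hf
  have hfd : ∀ t, |t| ≤ t₀ → ∀ x ∈ ball (0 : Ve D) r₁,
      fderiv ℝ (f t) x = fderiv ℝ (φ t) x - ContinuousLinearMap.id ℝ (Ve D) := by
    intro t ht x hx
    have h1 : DifferentiableAt ℝ (φ t) x :=
      ((hφ t ht).1.c1.differentiableOn one_ne_zero).differentiableAt (isOpen_ball.mem_nhds hx)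
    exact (h1.hasFDerivAt.sub (hasFDerivAt_id x)).fderiv
  have hfc : ∀ t, |t| ≤ t₀ → ContDiffOn ℝ 1 (f t) (ball 0 r₁) := fun t ht =>
    (hφ t ht).1.c1.sub contDiffOn_id
  have hint : ∀ t, |t| ≤ t₀ → ∫ x in ball (0 : Ve D) (r₁ / 2), ‖fderiv ℝ (f t) x‖ ^ 2 ≤
      (C₄ * C ^ 2) * t ^ 2 := by
    intro t ht
    obtain ⟨h1, h2, h3, h4⟩ := hφ t ht
    have h5 := hcac (φ t) (C * |t|) h1 h2 (by positivity) h3 h4
    have h6 : ∫ x in ball (0 : Ve D) (r₁ / 2), ‖fderiv ℝ (f t) x‖ ^ 2 =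
        ∫ x in ball (0 : Ve D) (r₁ / 2),
          ‖fderiv ℝ (φ t) x - ContinuousLinearMap.id ℝ (Ve D)‖ ^ 2 := by
      refine setIntegral_congr_fun measurableSet_ball fun x hx => ?_
      rw [hfd t ht x (ball_subset_ball (by linarith) hx)]
    rw [h6]
    calc _ ≤ C₄ * (C * |t|) ^ 2 := h5
      _ = _ := by rw [mul_pow, sq_abs]; ring
  -- conformality
  have hconf : ∀ t, |t| ≤ t₀ → ∀ x ∈ ball (0 : Ve D) r₁, ∀ a b : Ve D,
      inner ℝ (a + fderiv ℝ (f t) x a) (b + fderiv ℝ (f t) x b) =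
        ‖fderiv ℝ (φ t) x‖ ^ 2 * inner ℝ a b := by
    intro t ht x hx a b
    rw [← ((hφ t ht).1.conf x hx).inner_map a b]
    have h1 : ∀ v : Ve D, v + fderiv ℝ (f t) x v = fderiv ℝ (φ t) x v := by
      intro v
      rw [hfd t ht x hx]
      simp
    rw [h1, h1]
  have key := fun a₁ b₁ a₂ b₂ s c hc0 hE => V6_aux_key hD (r₂ := r₁ / 2) (by linarith)
    (hcont.mono (ball_subset_ball hr₁r.le)) f t₀ ht₀ hfc a₁ b₁ a₂ b₂ s c (C₄ * C ^ 2) hc0
    (by positivity) hE hint hcl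
  refine ⟨r₁ / 2, by positivity, by linarith, ⟨?_, ?_, ?_⟩⟩
  · exact hcont.mono (ball_subset_ball (by linarith))
  · intro ψ hψ hc hs a b hab
    have := key a b b a 1 (‖a‖ * ‖b‖) (by positivity) ?_ ψ hψ hc hs
    · simpa using this
    · intro t ht x hx
      have h1 := hconf t ht x hx a b
      rw [hab, mul_zero, inner_add_left, inner_add_right, inner_add_right, hab] at h1
      have h2 : inner ℝ (fderiv ℝ (f t) x a) b + 1 * inner ℝ (fderiv ℝ (f t) x b) a =
          - inner ℝ (fderiv ℝ (f t) x a) (fderiv ℝ (f t) x b) := by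
        have h3 : inner ℝ a (fderiv ℝ (f t) x b) = inner ℝ (fderiv ℝ (f t) x b) a :=
          real_inner_comm _ _
        rw [h3] at h1
        linarith
      rw [h2, abs_neg]
      calc |inner ℝ (fderiv ℝ (f t) x a) (fderiv ℝ (f t) x b)|
          ≤ ‖fderiv ℝ (f t) x a‖ * ‖fderiv ℝ (f t) x b‖ := abs_real_inner_le_norm _ _
        _ ≤ (‖fderiv ℝ (f t) x‖ * ‖a‖) * (‖fderiv ℝ (f t) x‖ * ‖b‖) := by
            gcongr
            · exact ContinuousLinearMap.le_opNorm _ _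
            · exact ContinuousLinearMap.le_opNorm _ _
        _ = _ := by ring
  · intro ψ hψ hc hs a b ha hb
    have := key a a b b (-1) 1 zero_le_one ?_ ψ hψ hc hs
    · rw [← this]
      congr 1
      funext x
      ring
    · intro t ht x hx
      have h1 := hconf t ht x hx a a
      have h2 := hconf t ht x hx b b
      rw [inner_add_left, inner_add_right, inner_add_right, real_inner_self_eq_norm_sq,
        real_inner_self_eq_norm_sq, ha] at h1
      rw [inner_add_left, inner_add_right, inner_add_right, real_inner_self_eq_norm_sq,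
        real_inner_self_eq_norm_sq, hb] at h2
      have h3 : inner ℝ a (fderiv ℝ (f t) x a) = inner ℝ (fderiv ℝ (f t) x a) a :=
        real_inner_comm _ _
      have h4 : inner ℝ b (fderiv ℝ (f t) x b) = inner ℝ (fderiv ℝ (f t) x b) b :=
        real_inner_comm _ _
      rw [h3] at h1
      rw [h4] at h2
      have h5 : ‖fderiv ℝ (f t) x a‖ ≤ ‖fderiv ℝ (f t) x‖ := by
        have := (fderiv ℝ (f t) x).le_opNorm a
        rwa [ha, mul_one] at this
      have h6 : ‖fderiv ℝ (f t) x b‖ ≤ ‖fderiv ℝ (f t) x‖ := by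
        have := (fderiv ℝ (f t) x).le_opNorm b
        rwa [hb, mul_one] at this
      have h7 : ‖fderiv ℝ (f t) x a‖ ^ 2 ≤ ‖fderiv ℝ (f t) x‖ ^ 2 :=
        pow_le_pow_left₀ (norm_nonneg _) h5 2
      have h8 : ‖fderiv ℝ (f t) x b‖ ^ 2 ≤ ‖fderiv ℝ (f t) x‖ ^ 2 :=
        pow_le_pow_left₀ (norm_nonneg _) h6 2
      have h9 : 0 ≤ ‖fderiv ℝ (f t) x a‖ ^ 2 := by positivity
      have h10 : 0 ≤ ‖fderiv ℝ (f t) x b‖ ^ 2 := by positivity
      rw [abs_le]
      constructor <;> nlinarith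

end Pool.Agent.H779R2.Li
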