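import Mathlib

set_option autoImplicit false

namespace Pool.Agent.H779R2.Li

open Filter Topology MeasureTheory Metric
open scoped BigOperators

/-- The model space. -/
abbrev Ve (D : ℕ) := EuclideanSpace ℝ (Fin D)

variable {D : ℕ}

/-- Conformal linear maps. -/
def Conf (A : Ve D →L[ℝ] Ve D) : Prop := ∀ v, ‖A v‖ = ‖A‖ * ‖v‖

/-- The denominator of a Moebius map. -/
noncomputable def den (b u : Ve D) : ℝ := 1 - 2 * inner ℝ b u + ‖b‖ ^ 2 * ‖u‖ ^ 2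

/-- Normalized Moebius map fixing `0`. -/
noncomputable def mobD (A : Ve D →L[ℝ] Ve D) (b u : Ve D) : Ve D :=
  (den b u)⁻¹ • A (u - ‖u‖ ^ 2 • b)

/-- `C¹` conformal maps on a ball (no normalization). -/
structure CM (r : ℝ) (h : Ve D → Ve D) : Prop where
  c1 : ContDiffOn ℝ 1 h (ball 0 r)
  conf : ∀ x ∈ ball (0 : Ve D) r, Conf (fderiv ℝ h x)
  ne : ∀ x ∈ ball (0 : Ve D) r, fderiv ℝ h x ≠ 0

/-- The conformal linear maps and the infinitesimal ones: `⟨B a, b⟩ + ⟨B b, a⟩ = 0` for `a ⊥ b`,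
`⟨B a, a⟩ = ⟨B b, b⟩` for unit vectors. -/
structure Inf (B : Ve D →L[ℝ] Ve D) : Prop where
  orth : ∀ a b : Ve D, inner ℝ a b = 0 → inner ℝ (B a) b + inner ℝ (B b) a = 0
  diag : ∀ a b : Ve D, ‖a‖ = 1 → ‖b‖ = 1 → inner ℝ (B a) a = inner ℝ (B b) b

/-- Quadratic part of conformal vector fields. -/
noncomputable def qv (c x : Ve D) : Ve D := (2 * inner ℝ c x) • x - ‖x‖ ^ 2 • c

/-- `K` is a polynomial conformal vector field on the ball of radius `r`. -/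
def IsPoly (r : ℝ) (K : Ve D → Ve D) : Prop :=
  ∃ (k₀ : Ve D) (B : Ve D →L[ℝ] Ve D) (c : Ve D), Inf B ∧
    ∀ x ∈ ball (0 : Ve D) r, K x = k₀ + B x + qv c x

/-- The inverse derivative applied to a vector. -/
noncomputable def Wv (h : Ve D → Ve D) (e x : Ve D) : Ve D := (fderiv ℝ h x).inverse e

/-- Weak conformal vector fields. -/
structure WK (r : ℝ) (K : Ve D → Ve D) : Prop where
  cont : ContinuousOn K (ball 0 r)
  orth : ∀ ψ : Ve D → ℝ, ContDiff ℝ 1 ψ → HasCompactSupport ψ → tsupport ψ ⊆ ball 0 r →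
    ∀ a b : Ve D, inner ℝ a b = 0 →
      ∫ x, (fderiv ℝ ψ x a * inner ℝ (K x) b + fderiv ℝ ψ x b * inner ℝ (K x) a) = 0
  diag : ∀ ψ : Ve D → ℝ, ContDiff ℝ 1 ψ → HasCompactSupport ψ → tsupport ψ ⊆ ball 0 r →
    ∀ a b : Ve D, ‖a‖ = 1 → ‖b‖ = 1 →
      ∫ x, (fderiv ℝ ψ x a * inner ℝ (K x) a - fderiv ℝ ψ x b * inner ℝ (K x) b) = 0

/-- Smooth conformal vector fields. -/
structure SK (r : ℝ) (K : Ve D → Ve D) : Prop where
  smooth : ContDiff ℝ 4 K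
  inf : ∀ x ∈ ball (0 : Ve D) r, Inf (fderiv ℝ K x)

end Pool.Agent.H779R2.Li
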